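import Pool.Agent.W118.CY.Basic2

/-! Caro-Yuster problem (MP_7c5d5d_co): near competitors with almost equal neighbourhoods. -/

set_option autoImplicit false

namespace Pool.Agent.W118.CY

open Finset

theorem exists_pow_bound (M e : ℕ) (he : 0 < e) :
    ∃ J : ℕ, 2 * M * (2 * e - 1) ^ J ≤ (2 * e) ^ J := by
  have he' : (0 : ℝ) < 2 * e := by
    have : (0 : ℝ) < e := by exact_mod_cast he
    linarith
  have he1 : ((2 * e - 1 : ℕ) : ℝ) = 2 * e - 1 := by
    rw [Nat.cast_sub (by omega)]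
    push_cast
    ring
  have hx : ((2 * e - 1 : ℕ) : ℝ) / (2 * e) < 1 := by
    rw [div_lt_one he', he1]
    linarith
  have hx0 : 0 ≤ ((2 * e - 1 : ℕ) : ℝ) / (2 * e) := by positivity
  obtain ⟨J, hJ⟩ := exists_pow_lt_of_lt_one (y := ((2 * e - 1 : ℕ) : ℝ) / (2 * e))
    (x := 1 / (2 * (M : ℝ) + 1)) (by positivity) hx
  refine ⟨J, ?_⟩
  rw [div_pow, div_lt_div_iff₀ (by positivity) (by positivity)] at hJ
  have h2 : ((2 * M * (2 * e - 1) ^ J : ℕ) : ℝ) ≤ (((2 * e) ^ J : ℕ) : ℝ) := by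
    push_cast
    have h3 : 0 ≤ ((2 * e - 1 : ℕ) : ℝ) ^ J := by positivity
    nlinarith
  exact_mod_cast h2

/-- the last step -/
theorem a_stop (h2 : S_AP) (t p N₂ m q M : ℕ) (hM1 : t + 1 ≤ M) (hM2 : N₂ ≤ M) :
    ∃ K : ℕ, ∀ (V : Type) [Fintype V] [DecidableEq V] (G : SimpleGraph V) [DecidableRel G.Adj]
      (P B Z : Finset V) (ρ R : ℕ), P.card ≤ p → Disjoint B P → ¬ Out G P B (t + 1) N₂ R →
      Z.card = M → Z ⊆ near G P B ρ → reg G P Z → K * (ρ + 1) ≤ R →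
      (core G P B).card + K * (ρ + 1) ≤ ht G P B →
      2 * q * (nbU G Z \ (B ∪ core G P B)).card ≤
        (2 * q + 1) * (ht G P B - (core G P B).card) →
      ∃ Z' : Finset V, Z'.card = m ∧ Z' ⊆ near G P B (K * (ρ + 1)) ∧
        q * (nbU G Z' \ (B ∪ core G P B)).card ≤ (q + 1) * (ht G P B - (core G P B).card) := by
  obtain ⟨KP, hAP⟩ := h2 t p N₂ M m hM1 hM2
  refine ⟨KP + 2 * q * m * KP, ?_⟩
  intro V _ _ G _ P B Z ρ R hP hBP hout hZc hZ hreg hR hg hw
  have e1 : KP * (ρ + 1) ≤ (KP + 2 * q * m * KP) * (ρ + 1) := Nat.mul_le_mul (by omega) le_rfl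
  obtain ⟨Y, hYc, hY, hY2⟩ := hAP V G P B Z ρ R hP hBP hZc hZ hreg (e1.trans hR) hout
  refine ⟨Y, hYc, hY.trans (near_mono e1), ?_⟩
  set C := core G P B with hC
  set g := ht G P B - C.card with hgdef
  set s := KP * (ρ + 1) with hs
  have hsub : nbU G Y \ (B ∪ C) ⊆ (nbU G Z \ (B ∪ C)) ∪ Y.biUnion (fun y => nb G y \ (B ∪ nbU G Z)) := by
    intro v hv
    rw [mem_sdiff, mem_nbU, mem_union] at hv
    obtain ⟨⟨y, hy, hyv⟩, hv2⟩ := hv
    rw [mem_union, mem_sdiff, mem_union, mem_biUnion]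
    by_cases h : v ∈ nbU G Z
    · exact Or.inl ⟨h, hv2⟩
    · refine Or.inr ⟨y, hy, ?_⟩
      rw [mem_sdiff, mem_nb, mem_union]
      exact ⟨hyv, fun h4 => h4.elim (fun h5 => hv2 (Or.inl h5)) h⟩
  have hcard : (nbU G Y \ (B ∪ C)).card ≤ (nbU G Z \ (B ∪ C)).card + m * s := by
    refine (card_le_card hsub).trans ((card_union_le _ _).trans (Nat.add_le_add le_rfl ?_))
    rw [← hYc]
    exact card_biUnion_le_card_mul _ _ _ fun y hy => hY2 y hy
  have h4 : 2 * q * m * s ≤ g := by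
    have : 2 * q * m * s ≤ (KP + 2 * q * m * KP) * (ρ + 1) := by
      rw [hs, ← mul_assoc]
      exact Nat.mul_le_mul (by omega) le_rfl
    omega
  have h5 : 2 * (q * (nbU G Y \ (B ∪ C)).card) ≤ 2 * ((q + 1) * g) := by
    calc 2 * (q * (nbU G Y \ (B ∪ C)).card)
        ≤ 2 * (q * ((nbU G Z \ (B ∪ C)).card + m * s)) :=
          Nat.mul_le_mul le_rfl (Nat.mul_le_mul le_rfl hcard)
      _ = 2 * q * (nbU G Z \ (B ∪ C)).card + 2 * q * m * s := by ring
      _ ≤ (2 * q + 1) * g + g := Nat.add_le_add hw h4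
      _ = 2 * ((q + 1) * g) := by ring
  omega

/-- the iteration -/
theorem a_iter (h2 : S_AP) (h3 : S_AS) (t p N₂ m q M e KS : ℕ) (hM1 : t + 1 ≤ M) (hM2 : N₂ ≤ M)
    (he : 0 < e)
    (hAS : ∀ (V : Type) [Fintype V]
      [DecidableEq V] (G : SimpleGraph V) [DecidableRel G.Adj] (P B C Z : Finset V) (g ρ R : ℕ),
      P.card ≤ p → Disjoint B P → Disjoint C B → ht G P B = C.card + g →
      (∀ s, s ≤ KS * (ρ + 1) → ∀ y ∈ near G P B s, (C \ nb G y).card ≤ s + (p + 1 + N₂)) →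
      Z.card = M → Z ⊆ near G P B ρ → reg G P Z →
      KS * (ρ + 1) ≤ R → KS * (ρ + 1) ≤ g → ¬ Out G P B (t + 1) N₂ R →
      (2 * q + 1) * g < 2 * q * (nbU G Z \ (B ∪ C)).card →
      ∃ Z' : Finset V, Z'.card = M ∧ Z' ⊆ near G P B (KS * (ρ + 1)) ∧ reg G P Z' ∧
        2 * e * (nbU G Z' \ (B ∪ C)).card ≤ (2 * e - 1) * (nbU G Z \ (B ∪ C)).card) :
    ∀ j : ℕ, ∃ K : ℕ, ∀ (V : Type) [Fintype V] [DecidableEq V] (G : SimpleGraph V)
      [DecidableRel G.Adj] (P B : Finset V) (r R : ℕ), P.card ≤ p → Disjoint B P →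
      (top G P B).card = t → N₂ ≤ (near G P B r).card → ¬ Out G P B (t + 1) N₂ R →
      ∀ (Z : Finset V) (ρ : ℕ), Z.card = M → Z ⊆ near G P B ρ → reg G P Z → r ≤ ρ →
      K * (ρ + 1) ≤ R → (core G P B).card + K * (ρ + 1) ≤ ht G P B →
      (2 * e - 1) ^ j * (nbU G Z \ (B ∪ core G P B)).card ≤
        (2 * e) ^ j * (ht G P B - (core G P B).card) →
      ∃ Z' : Finset V, Z'.card = m ∧ Z' ⊆ near G P B (K * (ρ + 1)) ∧
        q * (nbU G Z' \ (B ∪ core G P B)).card ≤ (q + 1) * (ht G P B - (core G P B).card) := by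
  obtain ⟨K0, hK0⟩ := a_stop h2 t p N₂ m q M hM1 hM2
  intro j
  induction j with
  | zero =>
    refine ⟨K0, ?_⟩
    intro V _ _ G _ P B r R hP hBP htop hnear hout Z ρ hZc hZ hreg hrρ hR hg hw
    refine hK0 V G P B Z ρ R hP hBP hout hZc hZ hreg hR hg ?_
    rw [pow_zero, pow_zero, one_mul, one_mul] at hw
    calc 2 * q * (nbU G Z \ (B ∪ core G P B)).card
        ≤ 2 * q * (ht G P B - (core G P B).card) := Nat.mul_le_mul le_rfl hw
      _ ≤ (2 * q + 1) * (ht G P B - (core G P B).card) := Nat.mul_le_mul (by omega) le_rfl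
  | succ j ih =>
    obtain ⟨Kj, hKj⟩ := ih
    refine ⟨K0 + (KS + 1) + Kj * (KS + 1), ?_⟩
    intro V _ _ G _ P B r R hP hBP htop hnear hout Z ρ hZc hZ hreg hrρ hR hg hw
    have e1 : K0 * (ρ + 1) ≤ (K0 + (KS + 1) + Kj * (KS + 1)) * (ρ + 1) :=
      Nat.mul_le_mul (by omega) le_rfl
    have e2 : (KS + 1) * (ρ + 1) ≤ (K0 + (KS + 1) + Kj * (KS + 1)) * (ρ + 1) :=
      Nat.mul_le_mul (by omega) le_rfl
    have e3 : Kj * ((KS + 1) * (ρ + 1)) ≤ (K0 + (KS + 1) + Kj * (KS + 1)) * (ρ + 1) := by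
      rw [← mul_assoc]
      exact Nat.mul_le_mul (by omega) le_rfl
    have e4 : (KS + 1) * (ρ + 1) = KS * (ρ + 1) + ρ + 1 := by ring
    by_cases hst : 2 * q * (nbU G Z \ (B ∪ core G P B)).card ≤
        (2 * q + 1) * (ht G P B - (core G P B).card)
    · obtain ⟨Z', h4, h5, h6⟩ := hK0 V G P B Z ρ R hP hBP hout hZc hZ hreg (e1.trans hR)
        (by omega) hst
      exact ⟨Z', h4, h5.trans (near_mono e1), h6⟩
    · push Not at hst
      obtain ⟨Z', h4, h5, h6, h7⟩ := hAS V G P B (core G P B) Z (ht G P B - (core G P B).card) ρ R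
        hP hBP core_disjoint (by omega)
        (fun s hs y hy => by
          have := core_near hout hBP hnear htop hy (by omega)
          omega)
        hZc hZ hreg (by omega) (by omega) hout hst
      have e5 : Kj * (KS * (ρ + 1) + ρ + 1) ≤ (K0 + (KS + 1) + Kj * (KS + 1)) * (ρ + 1) := by
        rw [← e4]
        exact e3
      obtain ⟨Z'', h8, h9, h10⟩ := hKj V G P B r R hP hBP htop hnear hout Z' (KS * (ρ + 1) + ρ) h4
        (h5.trans (near_mono (by omega))) h6 (by omega) (e5.trans hR) (by omega) (by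
          have h11 : 2 * e * ((2 * e - 1) ^ j * (nbU G Z' \ (B ∪ core G P B)).card) ≤
              2 * e * ((2 * e) ^ j * (ht G P B - (core G P B).card)) := by
            calc 2 * e * ((2 * e - 1) ^ j * (nbU G Z' \ (B ∪ core G P B)).card)
                = (2 * e - 1) ^ j * (2 * e * (nbU G Z' \ (B ∪ core G P B)).card) := by ring
              _ ≤ (2 * e - 1) ^ j * ((2 * e - 1) * (nbU G Z \ (B ∪ core G P B)).card) :=
                Nat.mul_le_mul le_rfl h7
              _ = (2 * e - 1) ^ (j + 1) * (nbU G Z \ (B ∪ core G P B)).card := by ring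
              _ ≤ (2 * e) ^ (j + 1) * (ht G P B - (core G P B).card) := hw
              _ = 2 * e * ((2 * e) ^ j * (ht G P B - (core G P B).card)) := by ring
          exact Nat.le_of_mul_le_mul_left h11 (by omega))
      exact ⟨Z'', h8, h9.trans (near_mono e5), h10⟩

theorem t_a (h1 : S_RM) (h2 : S_AP) (h3 : S_AS) : S_A := by
  intro t p N₂ m q ht1 hq
  obtain ⟨NR, hR⟩ := h1 (max N₂ (t + 1)) p
  obtain ⟨e, KS, he, hAS⟩ := h3 t p N₂ (max N₂ (t + 1)) q (p + 1 + N₂) (le_max_right _ _)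
    (le_max_left _ _) hq
  obtain ⟨J, hJ⟩ := exists_pow_bound (max N₂ (t + 1)) e he
  obtain ⟨K, hK⟩ := a_iter h2 h3 t p N₂ m q (max N₂ (t + 1)) e KS (le_max_right _ _)
    (le_max_left _ _) he hAS J
  refine ⟨max N₂ NR, K + (2 + (p + 1 + N₂)), ?_⟩
  intro V _ _ G _ P B r R hP hBP htop hN hKR hg hout
  have hN2 := (le_max_left N₂ NR).trans hN
  have hNR := (le_max_right N₂ NR).trans hN
  have e1 : K * (r + 1) ≤ (K + (2 + (p + 1 + N₂))) * (r + 1) := Nat.mul_le_mul (by omega) le_rfl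
  have e2 : (2 + (p + 1 + N₂)) * (r + 1) ≤ (K + (2 + (p + 1 + N₂))) * (r + 1) :=
    Nat.mul_le_mul (by omega) le_rfl
  have e3 : r + r + (p + 1 + N₂) ≤ (2 + (p + 1 + N₂)) * (r + 1) := by nlinarith
  obtain ⟨Z, hZ, hZc, v, hv⟩ := hR V G P (near G P B r) hP hNR
  have hreg : reg G P Z := reg_of_hom (disjoint_left.2 fun z hz => (mem_near.1 (hZ hz)).1.2) hv
  set C := core G P B with hC
  have hone : ∀ z ∈ Z, (nb G z \ (B ∪ C)).card ≤ 2 * (ht G P B - C.card) := by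
    intro z hz
    have h4 : (C \ nb G z).card ≤ r + P.card + 1 + N₂ :=
      core_near hout hBP hN2 htop (hZ hz) (by omega)
    have h5 : (nb G z \ (B ∪ C)).card + (nb G z ∩ C).card ≤ ht G P B := by
      rw [← card_union_of_disjoint]
      · refine le_trans (card_le_card ?_) (le_ht' (G := G) (mem_near.1 (hZ hz)).1.1
          (mem_near.1 (hZ hz)).1.2)
        intro u hu
        rw [mem_union, mem_sdiff, mem_inter, mem_union] at hu
        rw [mem_sdiff]
        rcases hu with hu | hu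
        · exact ⟨hu.1, fun h => hu.2 (Or.inl h)⟩
        · exact ⟨hu.1, fun h => disjoint_left.1 core_disjoint hu.2 h⟩
      · rw [disjoint_left]
        intro u hu hu'
        rw [mem_sdiff, mem_union] at hu
        exact hu.2 (Or.inr (mem_inter.1 hu').2)
    have h6 : (C \ nb G z).card + (nb G z ∩ C).card = C.card := by
      rw [inter_comm, card_sdiff_add_card_inter]
    omega
  have hw : (nbU G Z \ (B ∪ C)).card ≤ max N₂ (t + 1) * (2 * (ht G P B - C.card)) := by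
    have hsub : nbU G Z \ (B ∪ C) ⊆ Z.biUnion (fun z => nb G z \ (B ∪ C)) := by
      intro u hu
      rw [mem_sdiff, mem_nbU] at hu
      obtain ⟨⟨z, hz, hzu⟩, h⟩ := hu
      exact mem_biUnion.2 ⟨z, hz, mem_sdiff.2 ⟨mem_nb.2 hzu, h⟩⟩
    refine (card_le_card hsub).trans ?_
    rw [← hZc]
    exact card_biUnion_le_card_mul _ _ _ hone
  obtain ⟨Z', h4, h5, h6⟩ := hK V G P B r R hP hBP htop hN2 hout Z r hZc hZ hreg le_rfl
    (e1.trans hKR) (by rw [← hC]; omega) (by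
      rw [← hC]
      calc (2 * e - 1) ^ J * (nbU G Z \ (B ∪ C)).card
          ≤ (2 * e - 1) ^ J * (max N₂ (t + 1) * (2 * (ht G P B - C.card))) :=
            Nat.mul_le_mul le_rfl hw
        _ = 2 * max N₂ (t + 1) * (2 * e - 1) ^ J * (ht G P B - C.card) := by ring
        _ ≤ (2 * e) ^ J * (ht G P B - C.card) := Nat.mul_le_mul hJ le_rfl)
  exact ⟨Z', h4, h5.trans (near_mono e1), h6⟩

end Pool.Agent.W118.CY
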