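import Pool.Agent.W118.CY.Basic2

/-! Caro-Yuster problem (MP_7c5d5d_co): part CY-AP, many near competitors with neighbourhoods in the
union of the neighbourhoods of `Z`. -/

set_option autoImplicit false

namespace Pool.Agent.W118.CY

open Finset

theorem ap_card {V : Type} [DecidableEq V] (B D E : Finset V) :
    (E \ B).card ≤ (D \ B).card + (E \ D).card := by
  have : E \ B ⊆ (D \ B) ∪ (E \ D) := by
    intro v hv
    rw [mem_sdiff] at hv
    rw [mem_union, mem_sdiff, mem_sdiff]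
    by_cases hD : v ∈ D
    · exact Or.inl ⟨hD, hv.2⟩
    · exact Or.inr ⟨hv.1, hD⟩
  exact (card_le_card this).trans (card_union_le _ _)

theorem ap_disj {V : Type} [DecidableEq V] {B D E Z : Finset V} (h1 : Disjoint (D \ B) Z)
    (h2 : Disjoint (E \ D) Z) : Disjoint (E \ B) Z := by
  rw [disjoint_left]
  intro v hv hZ
  rw [mem_sdiff] at hv
  by_cases hD : v ∈ D
  · exact disjoint_left.1 h1 (mem_sdiff.2 ⟨hD, hv.2⟩) hZ
  · exact disjoint_left.1 h2 (mem_sdiff.2 ⟨hv.1, hD⟩) hZ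

theorem ap_disjZ {V : Type} [DecidableEq V] {B D Z P : Finset V} (h1 : Disjoint (D \ B) (Z ∪ P))
    (h2 : ∀ z ∈ Z, z ∉ B) : Disjoint Z D := by
  rw [disjoint_left]
  intro z hz hzD
  exact disjoint_left.1 h1 (mem_sdiff.2 ⟨hzD, h2 z hz⟩) (mem_union_left _ hz)

theorem ap_disjP {V : Type} [DecidableEq V] {B D Z P : Finset V} (h1 : Disjoint (D \ B) (Z ∪ P))
    (h2 : Disjoint B P) : Disjoint D P := by
  rw [disjoint_left]
  intro v hv hvP
  by_cases hvB : v ∈ B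
  · exact disjoint_left.1 h2 hvB hvP
  · exact disjoint_left.1 h1 (mem_sdiff.2 ⟨hv, hvB⟩) (mem_union_right _ hvP)

/-- one step of the construction -/
theorem ap_step (h2 : S_TL) {M c t N₂ : ℕ} (hM : t + 1 ≤ M) (hN : N₂ ≤ M)
    (hc : ∀ (V : Type) [Fintype V] [DecidableEq V] (G : SimpleGraph V) [DecidableRel G.Adj]
      (P D Z : Finset V) (ρ : ℕ),
      Z.card = M → Disjoint Z D → Disjoint D P → reg G P Z →
      (∀ z ∈ Z, ∀ z' ∈ Z, lev G D z ≤ lev G D z' + ρ) →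
      ∃ D' : Finset V, D ⊆ D' ∧ Disjoint (D' \ D) (Z ∪ P) ∧ (D' \ D).card ≤ c * (ρ + 1) ∧
        ∀ z ∈ Z, ∀ z' ∈ Z, lev G D' z = lev G D' z')
    (V : Type) [Fintype V] [DecidableEq V] (G : SimpleGraph V) [DecidableRel G.Adj]
    (P B Z D : Finset V) (ρ R a a1 a2 : ℕ)
    (hBP : Disjoint B P) (hZM : Z.card = M) (hZn : Z ⊆ near G P B ρ) (hreg : reg G P Z)
    (hBD : B ⊆ D) (hD : Disjoint (D \ B) (Z ∪ P)) (ha : (D \ B).card ≤ a)
    (ha1 : a + c * (ρ + a + 1) ≤ a1) (ha2 : a1 + t * (ρ + a1) ≤ a2) (hR : ρ + a2 ≤ R)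
    (hOut : ¬ Out G P B (t + 1) N₂ R) :
    ∃ (E : Finset V) (y : V), D ⊆ E ∧ Disjoint (E \ B) (Z ∪ P) ∧ (E \ B).card ≤ a2 ∧ y ∉ E ∧
      y ∉ Z ∧ y ∉ P ∧ y ∈ near G P B (ρ + a2) ∧
      (nb G y \ (B ∪ nbU G Z)).card ≤ a2 + M + P.card := by
  have hZB : ∀ z ∈ Z, z ∉ B ∧ z ∉ P := fun z hz => (mem_near.1 (hZn hz)).1
  have hZB' : ∀ z ∈ Z, z ∉ B := fun z hz => (hZB z hz).1
  have hZD : Disjoint Z D := ap_disjZ hD hZB'
  have hDP : Disjoint D P := ap_disjP hD hBP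
  have hspread : ∀ z ∈ Z, ∀ z' ∈ Z, lev G D z ≤ lev G D z' + (ρ + a) := by
    intro z hz z' hz'
    have e1 := lev_mono (G := G) hBD z
    have e2 := le_ht' (G := G) (hZB z hz).1 (hZB z hz).2
    have e3 := (mem_near.1 (hZn hz')).2
    have e4 := lev_le_add (G := G) B D z'
    omega
  obtain ⟨D1, hD1, hD1d, hD1c, hD1l⟩ := hc V G P D Z (ρ + a) hZM hZD hDP hreg hspread
  obtain ⟨z0, hz0⟩ : Z.Nonempty := by
    rw [← card_pos]
    omega
  have hBD1 : B ⊆ D1 := hBD.trans hD1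
  have hD1B : Disjoint (D1 \ B) (Z ∪ P) := ap_disj hD hD1d
  have hD1Bc : (D1 \ B).card ≤ a1 := by
    have := ap_card B D D1
    omega
  have hZD1 : Disjoint Z D1 := ap_disjZ hD1B hZB'
  have hD1P : Disjoint D1 P := ap_disjP hD1B hBP
  have hht1 : ht G P D1 ≤ lev G D1 z0 + (ρ + a1) := by
    have e1 := ht_mono (G := G) (P := P) hBD1
    have e2 := (mem_near.1 (hZn hz0)).2
    have e3 := lev_le_add (G := G) B D1 z0
    omega
  have ht1 : t * (ht G P D1 - lev G D1 z0) ≤ t * (ρ + a1) := Nat.mul_le_mul_left _ (by omega)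
  have htop : ∀ D' : Finset V, D1 ⊆ D' → Disjoint (D' \ D1) (Z ∪ P ∪ nbU G Z) →
      (D' \ D1).card ≤ t * (ht G P D1 - lev G D1 z0) → (top G P D').card ≤ t := by
    intro D' hD' hdis hcard
    have hdB : Disjoint (D' \ B) (Z ∪ P) :=
      ap_disj hD1B (disjoint_of_subset_right subset_union_left hdis)
    have hcB : (D' \ B).card ≤ a2 := by
      have := ap_card B D1 D'
      omega
    exact top_le_of_not_out hOut hZn (by omega) ⟨z0, hz0⟩ (hBD1.trans hD') (ap_disjP hdB hBP)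
      (ap_disjZ hdB hZB') (by omega)
  obtain ⟨D2, hD2, hD2d, hD2c, hD2l, hD2y⟩ := h2 V G P D1 Z ∅ (lev G D1 z0) t
    (fun z hz => ⟨disjoint_left.1 hZD1 hz, (hZB z hz).2, (hD1l z hz z0 hz0).le⟩)
    ⟨z0, hz0, rfl⟩ hD1P htop
  rw [union_empty] at hD2d
  have hD2B : Disjoint (D2 \ B) (Z ∪ P) :=
    ap_disj hD1B (disjoint_of_subset_right subset_union_left hD2d)
  have hD2Bc : (D2 \ B).card ≤ a2 := by
    have := ap_card B D1 D2
    omega
  have hZD2 : Disjoint Z D2 := ap_disjZ hD2B hZB'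
  have hD2P : Disjoint D2 P := ap_disjP hD2B hBP
  have hlev2 : ∀ z ∈ Z, lev G D2 z = lev G D1 z0 := by
    intro z hz
    rw [← hD1l z hz z0 hz0]
    refine lev_eq_of_disjoint hD2 ?_
    refine disjoint_of_subset_right ?_ hD2d
    intro v hv
    refine mem_union_right _ ?_
    rw [mem_nbU]
    exact ⟨z, hz, mem_nb.1 hv⟩
  have hne : ht G P D2 ≠ lev G D1 z0 := by
    intro heq
    have hsub : Z ⊆ top G P D2 := by
      intro z hz
      rw [mem_top]
      refine ⟨⟨disjoint_left.1 hZD2 hz, (hZB z hz).2⟩, ?_⟩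
      rw [heq, hlev2 z hz]
    have e1 := card_le_card hsub
    have e2 := htop D2 hD2 hD2d hD2c
    omega
  rcases hD2y with hD2y | ⟨y, hy, hyn⟩
  · exact absurd hD2y hne
  · rw [mem_top] at hy
    refine ⟨D2, y, hD1.trans hD2, hD2B, hD2Bc, hy.1.1, ?_, hy.1.2, ?_, ?_⟩
    · intro hyZ
      have := hlev2 y hyZ
      omega
    · refine near_back (hBD1.trans hD2) hy.1.1 hy.1.2 ?_
      have := ht_le_of_near (D := D2) (hZn hz0) (disjoint_left.1 hZD2 hz0)
      omega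
    · have hsub : nb G y \ (B ∪ nbU G Z) ⊆ (D2 \ B) ∪ Z ∪ P := by
        intro v hv
        rw [mem_sdiff, mem_union, not_or] at hv
        have := hyn hv.1
        simp only [mem_union, notMem_empty, or_false] at this
        simp only [mem_union, mem_sdiff]
        tauto
      have e1 := card_le_card hsub
      have e2 := card_union_le (D2 \ B ∪ Z) P
      have e3 := card_union_le (D2 \ B) Z
      omega

theorem ap_aux (h1 : S_TIE) (h2 : S_TL) (t p N₂ M : ℕ) (hM : t + 1 ≤ M) (hN : N₂ ≤ M) (i : ℕ) :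
    ∃ K : ℕ, ∀ (V : Type) [Fintype V] [DecidableEq V]
      (G : SimpleGraph V) [DecidableRel G.Adj] (P B Z : Finset V) (ρ R : ℕ),
      P.card ≤ p → Disjoint B P → Z.card = M → Z ⊆ near G P B ρ → reg G P Z →
      K * (ρ + 1) ≤ R → ¬ Out G P B (t + 1) N₂ R →
      ∃ D Y : Finset V, B ⊆ D ∧ Disjoint (D \ B) (Z ∪ P) ∧ (D \ B).card ≤ K * (ρ + 1) ∧
        Y ⊆ D \ B ∧ Y.card = i ∧ Y ⊆ near G P B (K * (ρ + 1)) ∧
        ∀ y ∈ Y, (nb G y \ (B ∪ nbU G Z)).card ≤ K * (ρ + 1) := by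
  obtain ⟨c, hc⟩ := h1 M
  induction i with
  | zero =>
    refine ⟨0, ?_⟩
    intro V _ _ G _ P B Z ρ R hP hBP hZM hZn hreg hR hOut
    refine ⟨B, ∅, Subset.refl _, ?_, ?_, empty_subset _, card_empty, empty_subset _, ?_⟩
    · rw [sdiff_self]
      exact disjoint_empty_left _
    · rw [sdiff_self]
      exact Nat.zero_le _
    · intro y hy
      exact absurd hy (notMem_empty _)
  | succ i ih =>
    obtain ⟨K, hK⟩ := ih
    -- the constants
    obtain ⟨k1, hk1⟩ : ∃ k1, k1 = K + c * (K + 1) := ⟨_, rfl⟩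
    obtain ⟨k2, hk2⟩ : ∃ k2, k2 = k1 + t * (k1 + 1) := ⟨_, rfl⟩
    refine ⟨k2 + M + p + 1, ?_⟩
    intro V _ _ G _ P B Z ρ R hP hBP hZM hZn hreg hR hOut
    have hKk1 : K ≤ k1 := by rw [hk1]; exact Nat.le_add_right _ _
    have hk12 : k1 ≤ k2 := by rw [hk2]; exact Nat.le_add_right _ _
    have hexp : (k2 + M + p + 1) * (ρ + 1) = k2 * (ρ + 1) + (M + p) * (ρ + 1) + (ρ + 1) := by ring
    have hMp : M + p ≤ (M + p) * (ρ + 1) := Nat.le_mul_of_pos_right _ (Nat.succ_pos _)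
    have hKk2 : K * (ρ + 1) ≤ k2 * (ρ + 1) := Nat.mul_le_mul_right _ (hKk1.trans hk12)
    have hKR : K * (ρ + 1) ≤ R := by omega
    obtain ⟨D, Y, hBD, hDd, hDc, hYD, hYc, hYn, hYs⟩ :=
      hK V G P B Z ρ R hP hBP hZM hZn hreg hKR hOut
    have ha1 : K * (ρ + 1) + c * (ρ + K * (ρ + 1) + 1) ≤ k1 * (ρ + 1) := by
      rw [hk1]
      apply le_of_eq
      ring
    have ha2 : k1 * (ρ + 1) + t * (ρ + k1 * (ρ + 1)) ≤ k2 * (ρ + 1) := by
      have e1 : t * (ρ + k1 * (ρ + 1)) ≤ t * ((k1 + 1) * (ρ + 1)) :=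
        Nat.mul_le_mul_left _ (by rw [add_mul, one_mul]; omega)
      have e2 : k2 * (ρ + 1) = k1 * (ρ + 1) + t * ((k1 + 1) * (ρ + 1)) := by
        rw [hk2]
        ring
      omega
    obtain ⟨E, y, hDE, hEd, hEc, hyE, hyZ, hyP, hyn, hys⟩ :=
      ap_step h2 hM hN hc V G P B Z D ρ R _ _ _ hBP hZM hZn hreg hBD hDd hDc ha1 ha2
        (by omega) hOut
    have hyB : y ∉ B := fun h => hyE (hDE (hBD h))
    have hyY : y ∉ Y := fun h => hyE (hDE (mem_sdiff.1 (hYD h)).1)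
    have hins : insert y E \ B = insert y (E \ B) := insert_sdiff_of_notMem _ hyB
    refine ⟨insert y E, insert y Y, ?_, ?_, ?_, ?_, ?_, ?_, ?_⟩
    · exact (hBD.trans hDE).trans (subset_insert _ _)
    · rw [hins, disjoint_insert_left]
      refine ⟨?_, hEd⟩
      rw [mem_union, not_or]
      exact ⟨hyZ, hyP⟩
    · rw [hins]
      have := card_insert_le y (E \ B)
      omega
    · rw [hins]
      refine insert_subset_insert _ (hYD.trans ?_)
      exact sdiff_subset_sdiff hDE (Subset.refl _)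
    · rw [card_insert_of_notMem hyY, hYc]
    · intro v hv
      rw [mem_insert] at hv
      rcases hv with rfl | hv
      · exact near_mono (by omega) hyn
      · exact near_mono (by omega) (hYn hv)
    · intro v hv
      rw [mem_insert] at hv
      rcases hv with rfl | hv
      · omega
      · have := hYs v hv
        omega

/-- **CY-AP** -/
theorem t_ap (h1 : S_TIE) (h2 : S_TL) : S_AP := by
  intro t p N₂ M N₀ hM hN
  obtain ⟨K, hK⟩ := ap_aux h1 h2 t p N₂ M hM hN N₀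
  refine ⟨K, ?_⟩
  intro V _ _ G _ P B Z ρ R hP hBP hZM hZn hreg hR hOut
  obtain ⟨D, Y, hBD, hDd, hDc, hYD, hYc, hYn, hYs⟩ :=
    hK V G P B Z ρ R hP hBP hZM hZn hreg hR hOut
  exact ⟨Y, hYc, hYn, hYs⟩

end Pool.Agent.W118.CY
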