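import Pool.Agent.W118.CY.Basic2

/-! Caro-Yuster problem (MP_7c5d5d_co): the part `S_AS`. -/

set_option autoImplicit false

namespace Pool.Agent.W118.CY

open Finset

theorem t_as (hAP : S_AP) (hAV : S_AV) (hRM : S_RM) : S_AS := by
  intro t p N₂ M q c₀ htM hN₂ hq
  obtain ⟨m₁, hm₁⟩ := hRM M p
  obtain ⟨N, e, he, hAV'⟩ := hAV m₁ (4 * q + 2)
  obtain ⟨KA, hKA⟩ := hAP t p N₂ M N htM hN₂
  refine ⟨e, KA + (4 * q + 2) * (KA + c₀) + 2 * e * (M * KA), he, ?_⟩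
  intro V _ _ G _ P B C Z g ρ R hP hBP hCB hht hcore hZc hZn hZr hKR hKg hOut hW
  obtain ⟨K, hK⟩ : ∃ K, K = KA + (4 * q + 2) * (KA + c₀) + 2 * e * (M * KA) := ⟨_, rfl⟩
  rw [← hK] at hcore hKR hKg ⊢
  obtain ⟨s, hs⟩ : ∃ s, s = KA * (ρ + 1) := ⟨_, rfl⟩
  have hKe : K * (ρ + 1) = s + ((4 * q + 2) * (s + c₀ * (ρ + 1))) + 2 * e * (M * s) := by
    rw [hK, hs]
    ring
  have h1ρ : c₀ ≤ c₀ * (ρ + 1) := Nat.le_mul_of_pos_right _ (Nat.succ_pos _)
  have hmul : (4 * q + 2) * (s + c₀) ≤ (4 * q + 2) * (s + c₀ * (ρ + 1)) :=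
    Nat.mul_le_mul_left _ (by omega)
  have hK1 : s ≤ K * (ρ + 1) := by omega
  have hK2 : (4 * q + 2) * (s + c₀) ≤ K * (ρ + 1) := by omega
  have hK3 : 2 * e * (M * s) ≤ K * (ρ + 1) := by omega
  obtain ⟨Y, hYc, hYn, hYs⟩ := hKA V G P B Z ρ R hP hBP hZc hZn hZr
    (by rw [← hs]; omega) hOut
  rw [← hs] at hYn hYs
  obtain ⟨W, hWdef⟩ : ∃ W, W = nbU G Z \ (B ∪ C) := ⟨_, rfl⟩
  rw [← hWdef] at hW ⊢
  have hgw : g < W.card := by
    by_contra hcon
    push Not at hcon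
    have h2 : 2 * q * W.card ≤ 2 * q * g := Nat.mul_le_mul_left _ hcon
    have h3 : (2 * q + 1) * g = 2 * q * g + g := by ring
    omega
  -- the neighbourhoods of the vertices of `Y`
  have hY1 : ∀ y ∈ Y, (nb G y \ (B ∪ C)).card ≤ g + s + c₀ := by
    intro y hy
    have hy1 := hYn hy
    have h1 := hcore s hK1 y hy1
    have h2 : lev G B y ≤ ht G P B := le_ht' (mem_near.1 hy1).1.1 (mem_near.1 hy1).1.2
    have h3 := lev_union (G := G) B C y hCB
    have h4 : (C \ nb G y).card + (C ∩ nb G y).card = C.card := card_sdiff_add_card_inter C (nb G y)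
    rw [inter_comm] at h3
    have h5 : (nb G y \ (B ∪ C)).card = lev G (B ∪ C) y := rfl
    rw [h5]
    omega
  have hY2 : ∀ y ∈ Y, W.card ≤ (4 * q + 2) * (W \ nb G y).card := by
    intro y hy
    have h1 := hY1 y hy
    have h2 : W ∩ nb G y ⊆ nb G y \ (B ∪ C) := by
      intro u hu
      rw [mem_inter, hWdef, mem_sdiff] at hu
      exact mem_sdiff.2 ⟨hu.2, hu.1.2⟩
    have h3 := card_le_card h2
    have h4 := card_sdiff_add_card_inter W (nb G y)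
    have h5 : W.card ≤ (W \ nb G y).card + (g + s + c₀) := by omega
    have h6 : (4 * q + 2) * W.card ≤ (4 * q + 2) * ((W \ nb G y).card + (g + s + c₀)) :=
      Nat.mul_le_mul_left _ h5
    have h7 : (4 * q + 2) * ((W \ nb G y).card + (g + s + c₀)) =
        (4 * q + 2) * (W \ nb G y).card + 2 * ((2 * q + 1) * g) + (4 * q + 2) * (s + c₀) := by ring
    have h8 : (4 * q + 2) * W.card = 2 * (2 * q * W.card) + 2 * W.card := by ring
    omega
  obtain ⟨Z₁, hZ₁, hZ₁c, hZ₁e⟩ := hAV' V G W Y hYc hY2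
  obtain ⟨Z', hZ', hZ'c, v, hv⟩ := hm₁ V G P Z₁ hP (by omega)
  have hZ'n : Z' ⊆ near G P B s := fun z hz => hYn (hZ₁ (hZ' hz))
  have hZ'P : Disjoint Z' P := by
    rw [disjoint_left]
    intro z hz
    exact (mem_near.1 (hZ'n hz)).1.2
  refine ⟨Z', hZ'c, hZ'n.trans (near_mono hK1), reg_of_hom hZ'P hv, ?_⟩
  have hsub : nbU G Z' \ (B ∪ C) ⊆
      (W ∩ nbU G Z₁) ∪ Z'.biUnion (fun z => nb G z \ (B ∪ nbU G Z)) := by
    intro u hu
    rw [mem_sdiff, mem_nbU] at hu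
    obtain ⟨⟨z, hz, hzu⟩, hu2⟩ := hu
    rw [mem_union]
    by_cases h : u ∈ nbU G Z
    · left
      rw [mem_inter, hWdef, mem_sdiff]
      exact ⟨⟨h, hu2⟩, mem_nbU.2 ⟨z, hZ' hz, hzu⟩⟩
    · right
      rw [mem_biUnion]
      refine ⟨z, hz, ?_⟩
      rw [mem_sdiff, mem_union, mem_nb]
      refine ⟨hzu, ?_⟩
      rintro (h1 | h1)
      · exact hu2 (mem_union_left _ h1)
      · exact h h1
  have h1 := card_le_card hsub
  have h2 := card_union_le (W ∩ nbU G Z₁) (Z'.biUnion (fun z => nb G z \ (B ∪ nbU G Z)))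
  have h3 : (Z'.biUnion (fun z => nb G z \ (B ∪ nbU G Z))).card ≤ M * s := by
    rw [← hZ'c]
    exact card_biUnion_le_card_mul _ _ _ fun z hz => hYs z (hZ₁ (hZ' hz))
  have h4 := card_sdiff_add_card_inter W (nbU G Z₁)
  have h5 : (nbU G Z' \ (B ∪ C)).card + (W \ nbU G Z₁).card ≤ W.card + M * s := by omega
  have h6 : 2 * e * ((nbU G Z' \ (B ∪ C)).card + (W \ nbU G Z₁).card) ≤
      2 * e * (W.card + M * s) := Nat.mul_le_mul_left _ h5
  have h7 : 2 * e * ((nbU G Z' \ (B ∪ C)).card + (W \ nbU G Z₁).card) =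
      2 * e * (nbU G Z' \ (B ∪ C)).card + 2 * (e * (W \ nbU G Z₁).card) := by ring
  have h8 : 2 * e * (W.card + M * s) = 2 * e * W.card + 2 * e * (M * s) := by ring
  have h9 : (2 * e - 1) * W.card + W.card = 2 * e * W.card := by
    have : 2 * e = (2 * e - 1) + 1 := by omega
    conv_rhs => rw [this]
    ring
  omega

end Pool.Agent.W118.CY
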