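import Pool.Agent.W118.CY.Basic2

/-! Caro-Yuster problem (MP_7c5d5d_co): averaging. -/

set_option autoImplicit false

namespace Pool.Agent.W118.CY

open Finset

theorem t_av : S_AV := by
  intro m q
  refine ⟨(2 * q + 1) * m, q * (2 * q + 1) * ((2 * q + 1) * m).choose m + 1, Nat.succ_pos _, ?_⟩
  intro V _ _ G _ W Y hY hyp
  have hmN : m ≤ Y.card := by rw [hY]; nlinarith
  rcases Nat.eq_zero_or_pos m with hm | hm
  · refine ⟨∅, by simp, by simp [hm], ?_⟩
    have h1 : nbU G ∅ = ∅ := by
      ext v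
      simp [mem_nbU]
    rw [h1, sdiff_empty]
    exact Nat.le_mul_of_pos_left _ (Nat.succ_pos _)
  rcases Nat.eq_zero_or_pos W.card with hW | hW
  · obtain ⟨Z, hZ, hZm⟩ := Finset.exists_subset_card_eq hmN
    exact ⟨Z, hZ, hZm, by rw [hW]; exact Nat.zero_le _⟩
  by_contra hcon
  push Not at hcon
  set K := ((2 * q + 1) * m).choose m with hK
  set W1 : Finset V := W.filter (fun x => m ≤ (Y.filter (fun y => x ∉ nb G y)).card) with hW1
  -- double counting
  have hdc : ∑ x ∈ W, (Y.filter (fun y => x ∉ nb G y)).card = ∑ y ∈ Y, (W \ nb G y).card := by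
    have e1 : ∀ x ∈ W, (Y.filter (fun y => x ∉ nb G y)).card =
        ∑ y ∈ Y, if x ∉ nb G y then 1 else 0 := fun x _ => Finset.card_filter _ _
    have e2 : ∀ y ∈ Y, (W \ nb G y).card = ∑ x ∈ W, if x ∉ nb G y then 1 else 0 := by
      intro y _
      rw [← Finset.filter_notMem_eq_sdiff, Finset.card_filter]
    rw [Finset.sum_congr rfl e1, Finset.sum_congr rfl e2, Finset.sum_comm]
  have h1 : Y.card * W.card ≤ q * ∑ x ∈ W, (Y.filter (fun y => x ∉ nb G y)).card := by
    rw [hdc, Finset.mul_sum, ← smul_eq_mul, ← Finset.sum_const]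
    exact Finset.sum_le_sum hyp
  have h2 : ∑ x ∈ W, (Y.filter (fun y => x ∉ nb G y)).card ≤ Y.card * W1.card + m * W.card := by
    have h3 : ∀ x ∈ W, (Y.filter (fun y => x ∉ nb G y)).card ≤
        (if m ≤ (Y.filter (fun y => x ∉ nb G y)).card then Y.card else 0) + m := by
      intro x _
      split_ifs with h
      · exact (Finset.card_filter_le _ _).trans (Nat.le_add_right _ _)
      · omega
    refine (Finset.sum_le_sum h3).trans ?_
    rw [Finset.sum_add_distrib, ← Finset.sum_filter, Finset.sum_const, Finset.sum_const,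
      smul_eq_mul, smul_eq_mul, mul_comm, mul_comm W.card]
  have h3 : W.card ≤ q * (2 * q + 1) * W1.card := by
    rw [hY] at h1 h2
    have h4 : (2 * q + 1) * m * W.card ≤ q * ((2 * q + 1) * m * W1.card + m * W.card) :=
      h1.trans (Nat.mul_le_mul_left _ h2)
    have h5 : m * W.card ≤ m * (q * (2 * q + 1) * W1.card) := by nlinarith
    exact Nat.le_of_mul_le_mul_left h5 hm
  have h4 : W1 ⊆ (powersetCard m Y).biUnion (fun Z => W \ nbU G Z) := by
    intro x hx
    rw [hW1, Finset.mem_filter] at hx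
    obtain ⟨Z, hZ, hZm⟩ := Finset.exists_subset_card_eq hx.2
    rw [Finset.mem_biUnion]
    refine ⟨Z, ?_, ?_⟩
    · rw [Finset.mem_powersetCard]
      exact ⟨hZ.trans (Finset.filter_subset _ _), hZm⟩
    · rw [Finset.mem_sdiff]
      refine ⟨hx.1, ?_⟩
      rw [mem_nbU]
      rintro ⟨z, hz, hadj⟩
      have := (Finset.mem_filter.1 (hZ hz)).2
      exact this (mem_nb.2 hadj)
  have h5 : W1.card ≤ ∑ Z ∈ powersetCard m Y, (W \ nbU G Z).card :=
    (Finset.card_le_card h4).trans Finset.card_biUnion_le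
  have hne : (powersetCard m Y).Nonempty := Finset.powersetCard_nonempty.2 hmN
  have h6 : ∑ Z ∈ powersetCard m Y, (q * (2 * q + 1) * K + 1) * (W \ nbU G Z).card <
      ∑ Z ∈ powersetCard m Y, W.card := by
    refine Finset.sum_lt_sum_of_nonempty hne ?_
    intro Z hZ
    rw [Finset.mem_powersetCard] at hZ
    exact hcon Z hZ.1 hZ.2
  rw [← Finset.mul_sum, Finset.sum_const, Finset.card_powersetCard, hY, smul_eq_mul, ← hK] at h6
  have h7 : (q * (2 * q + 1) * K + 1) * W1.card < K * W.card :=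
    lt_of_le_of_lt (Nat.mul_le_mul_left _ h5) h6
  have h8 : K * W.card ≤ K * (q * (2 * q + 1) * W1.card) := Nat.mul_le_mul_left _ h3
  nlinarith

end Pool.Agent.W118.CY
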