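import Pool.Agent.W118.CY.Basic2

/-! Caro-Yuster problem (MP_7c5d5d_co): the far vertex of maximum degree and the set U. -/

set_option autoImplicit false

namespace Pool.Agent.W118.CY

open Finset

theorem t_f1 : S_F1 := by
  intro V _ _ G _ P B Z t m q ρ g h1 hm htop hBP hZm hZ hht hq hq2 hg
  have hZ0 : Z.Nonempty := by rw [← card_pos]; omega
  -- notation
  obtain ⟨C, hC⟩ : ∃ C, C = core G P B := ⟨_, rfl⟩
  obtain ⟨W, hW⟩ : ∃ W, W = nbU G Z \ (B ∪ C) := ⟨_, rfl⟩
  obtain ⟨X0, hX0⟩ : ∃ X0, X0 = com G Z \ (B ∪ C) := ⟨_, rfl⟩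
  rw [← hC] at hht hq
  rw [← hW] at hq
  have hcomU : com G Z ⊆ nbU G Z := by
    intro v hv
    obtain ⟨z, hz⟩ := hZ0
    exact mem_nbU.2 ⟨z, hz, mem_com.1 hv z hz⟩
  have hX0W : X0 ⊆ W := by
    rw [hX0, hW]
    exact sdiff_subset_sdiff hcomU (Subset.refl _)
  have hCW : Disjoint C W := by
    rw [disjoint_left]
    intro v hv hvW
    rw [hW, mem_sdiff, mem_union] at hvW
    exact hvW.2 (Or.inr hv)
  -- (a)
  have ha0 : ∀ z ∈ Z, g ≤ (nb G z \ (B ∪ C)).card + ρ := by
    intro z hz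
    have h2 := (mem_near.1 (hZ hz)).2
    have h3 : nb G z \ B ⊆ (nb G z \ (B ∪ C)) ∪ C := by
      intro v hv
      rw [mem_sdiff] at hv
      simp only [mem_union, mem_sdiff]
      tauto
    have h4 := (card_le_card h3).trans (card_union_le _ _)
    unfold lev at h2
    omega
  have ha1 : ∀ z ∈ Z, (nb G z \ (B ∪ C)) ⊆ W := by
    intro z hz v hv
    rw [mem_sdiff] at hv
    rw [hW, mem_sdiff]
    exact ⟨mem_nbU.2 ⟨z, hz, mem_nb.1 hv.1⟩, hv.2⟩
  have ha2 : ∀ z ∈ Z, (W \ nb G z).card + g ≤ W.card + ρ := by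
    intro z hz
    have h2 : Disjoint (W \ nb G z) (nb G z \ (B ∪ C)) := by
      rw [disjoint_left]
      intro v hv hv2
      exact (mem_sdiff.1 hv).2 (mem_sdiff.1 hv2).1
    have h3 : (W \ nb G z) ∪ (nb G z \ (B ∪ C)) ⊆ W :=
      union_subset sdiff_subset (ha1 z hz)
    have h4 := card_le_card h3
    rw [card_union_of_disjoint h2] at h4
    have h5 := ha0 z hz
    omega
  have hw0 : g ≤ W.card + ρ := by
    obtain ⟨z, hz⟩ := hZ0
    have := ha2 z hz
    omega
  have ha3 : ∀ z ∈ Z, q * (W \ nb G z).card ≤ g + q * ρ := by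
    intro z hz
    have h2 := Nat.mul_le_mul_left q (ha2 z hz)
    rw [mul_add, mul_add] at h2
    rw [add_mul, one_mul] at hq
    omega
  -- (b)
  have hb : q * (W \ com G Z).card ≤ m * (g + q * ρ) := by
    have h2 : W \ com G Z ⊆ Z.biUnion (fun z => W \ nb G z) := by
      intro v hv
      rw [mem_sdiff, mem_com] at hv
      obtain ⟨hv1, hv2⟩ := hv
      push Not at hv2
      obtain ⟨z, hz, hz2⟩ := hv2
      rw [mem_biUnion]
      exact ⟨z, hz, mem_sdiff.2 ⟨hv1, fun h => hz2 (mem_nb.1 h)⟩⟩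
    have h3 := (card_le_card h2).trans card_biUnion_le
    calc q * (W \ com G Z).card ≤ q * ∑ z ∈ Z, (W \ nb G z).card := Nat.mul_le_mul_left _ h3
      _ = ∑ z ∈ Z, q * (W \ nb G z).card := by rw [mul_sum]
      _ ≤ ∑ z ∈ Z, (g + q * ρ) := sum_le_sum ha3
      _ = m * (g + q * ρ) := by rw [sum_const, hZm, smul_eq_mul]
  have htm : 16 ≤ 16 * t * m := by nlinarith
  have hq1 : 1 ≤ q := by omega
  -- (c)
  have hc : 16 * t * (W \ com G Z).card ≤ g + 16 * t * m * ρ := by
    have h2 : q * (16 * t * (W \ com G Z).card) ≤ q * (g + 16 * t * m * ρ) := by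
      calc q * (16 * t * (W \ com G Z).card) = 16 * t * (q * (W \ com G Z).card) := by ring
        _ ≤ 16 * t * (m * (g + q * ρ)) := Nat.mul_le_mul_left _ hb
        _ = (16 * t * m) * g + q * (16 * t * m * ρ) := by ring
        _ ≤ q * g + q * (16 * t * m * ρ) := Nat.add_le_add_right (Nat.mul_le_mul_right _ hq2) _
        _ = q * (g + 16 * t * m * ρ) := by ring
    exact Nat.le_of_mul_le_mul_left h2 (by omega)
  -- (d)
  have hXc : X0.card + (W \ com G Z).card = W.card := by
    have h2 : X0 = W ∩ com G Z := by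
      ext v
      rw [hX0, hW]
      simp only [mem_sdiff, mem_inter]
      constructor
      · rintro ⟨h3, h4⟩
        exact ⟨⟨hcomU h3, h4⟩, h3⟩
      · rintro ⟨⟨_, h4⟩, h3⟩
        exact ⟨h3, h4⟩
    rw [h2]
    exact card_inter_add_card_sdiff W (com G Z)
  have hd : 7 * g + 8 * ((m + 1) * (P.card + 2)) ≤ 8 * X0.card := by
    have h2 : 16 * t * W.card = 16 * t * X0.card + 16 * t * (W \ com G Z).card := by
      rw [← hXc]; ring
    have h3 : 16 * t * g ≤ 16 * t * W.card + 16 * t * ρ := by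
      calc 16 * t * g ≤ 16 * t * (W.card + ρ) := Nat.mul_le_mul_left _ hw0
        _ = _ := by ring
    have h4 : 16 * t * (m + 1) * (ρ + P.card + 2)
        = 16 * t * m * ρ + 16 * t * ρ + 2 * t * (8 * ((m + 1) * (P.card + 2))) := by ring
    rw [h4] at hg
    have h5 : 2 * t * (7 * g + 8 * ((m + 1) * (P.card + 2))) ≤ 2 * t * (8 * X0.card) := by
      have h6 : g ≤ t * g := Nat.le_mul_of_pos_left g h1
      have h7 : 2 * t * (7 * g + 8 * ((m + 1) * (P.card + 2)))
        = 14 * (t * g) + 2 * t * (8 * ((m + 1) * (P.card + 2))) := by ring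
      have h8 : 16 * t * g = 16 * (t * g) := by ring
      have h9 : 2 * t * (8 * X0.card) = 16 * t * X0.card := by ring
      rw [h7, h9]
      rw [h8] at h3
      omega
    exact Nat.le_of_mul_le_mul_left h5 (by omega)
  have hX0pos : 0 < X0.card := by
    have : 0 < (m + 1) * (P.card + 2) := by positivity
    omega
  -- (e)
  obtain ⟨a₀, ha₀, hae⟩ : ∃ a ∈ top G P B, X0.card ≤ t * (X0 \ nb G a).card := by
    by_contra hcon
    push Not at hcon
    have h2 : X0 ⊆ (top G P B).biUnion (fun a => X0 \ nb G a) := by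
      intro v hv
      have hv1 := hv
      rw [hX0, mem_sdiff, mem_union, not_or] at hv1
      have h3 : ¬ (∀ a ∈ top G P B, G.Adj a v) := by
        intro h4
        apply hv1.2.2
        rw [hC, mem_core]
        exact ⟨h4, hv1.2.1⟩
      push Not at h3
      obtain ⟨a, ha, ha2⟩ := h3
      rw [mem_biUnion]
      exact ⟨a, ha, mem_sdiff.2 ⟨hv, fun h => ha2 (mem_nb.1 h)⟩⟩
    have h3 := (card_le_card h2).trans card_biUnion_le
    have h4 : ∑ a ∈ top G P B, (t * (X0 \ nb G a).card + 1) ≤ ∑ a ∈ top G P B, X0.card :=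
      sum_le_sum fun a ha => hcon a ha
    rw [sum_add_distrib, sum_const, sum_const, smul_eq_mul, smul_eq_mul, htop, ← mul_sum] at h4
    have h5 := Nat.mul_le_mul_left t h3
    omega
  -- (f)
  have ha₀Z : a₀ ∉ Z := by
    intro h
    have h2 : X0 \ nb G a₀ = ∅ := by
      rw [eq_empty_iff_forall_notMem]
      intro v hv
      rw [mem_sdiff, hX0, mem_sdiff, mem_com] at hv
      exact hv.2 (mem_nb.2 (hv.1.1 a₀ h))
    rw [h2, card_empty, mul_zero] at hae
    omega
  refine ⟨a₀, ha₀, ha₀Z, X0 \ (nb G a₀ ∪ P ∪ {a₀}), ?_, ?_, ?_, ?_, ?_⟩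
  · intro v hv
    rw [mem_sdiff, hX0, mem_sdiff] at hv
    exact hv.1.1
  · rw [disjoint_left]
    intro v hv hv2
    rw [mem_sdiff, hX0, mem_sdiff] at hv
    simp only [mem_union, mem_singleton, not_or] at hv hv2
    tauto
  · -- (g)
    have h2 : X0 \ nb G a₀ ⊆ (X0 \ (nb G a₀ ∪ P ∪ {a₀})) ∪ (P ∪ {a₀}) := by
      intro v hv
      rw [mem_sdiff] at hv
      simp only [mem_union, mem_sdiff, mem_singleton, not_or]
      tauto
    have h3 := (card_le_card h2).trans (card_union_le _ _)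
    have h4 := card_union_le P {a₀}
    rw [card_singleton] at h4
    have h5 : (X0 \ nb G a₀).card ≤ (X0 \ (nb G a₀ ∪ P ∪ {a₀})).card + (P.card + 1) := by omega
    have h6 := Nat.mul_le_mul_left t h5
    have h7 : t * ((X0 \ (nb G a₀ ∪ P ∪ {a₀})).card + (P.card + 1))
        = t * (X0 \ (nb G a₀ ∪ P ∪ {a₀})).card + t * (P.card + 1) := by ring
    have h8 : 16 * (t * (P.card + 1)) ≤ g := by
      refine le_trans ?_ hg
      have : t * (P.card + 1) ≤ t * ((m + 1) * (ρ + P.card + 2)) :=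
        Nat.mul_le_mul_left _ (by nlinarith)
      calc 16 * (t * (P.card + 1)) ≤ 16 * (t * ((m + 1) * (ρ + P.card + 2))) := by omega
        _ = _ := by ring
    have h9 : 4 * t * (X0 \ (nb G a₀ ∪ P ∪ {a₀})).card
      = 4 * (t * (X0 \ (nb G a₀ ∪ P ∪ {a₀})).card) := by ring
    rw [h9]
    omega
  · -- (h)
    have h2 : ((nb G a₀ ∩ nbU G Z) \ B) ∪ (X0 \ nb G a₀) ⊆ C ∪ W := by
      intro v hv
      rw [mem_union] at hv
      rcases hv with hv | hv
      · rw [mem_sdiff, mem_inter] at hv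
        rw [mem_union, hW, mem_sdiff, mem_union]
        tauto
      · exact mem_union_right _ (hX0W (mem_sdiff.1 hv).1)
    have h3 : Disjoint ((nb G a₀ ∩ nbU G Z) \ B) (X0 \ nb G a₀) := by
      rw [disjoint_left]
      intro v hv hv2
      exact (mem_sdiff.1 hv2).2 (mem_inter.1 (mem_sdiff.1 hv).1).1
    have h4 := (card_le_card h2).trans (card_union_le _ _)
    rw [card_union_of_disjoint h3] at h4
    have h5 : nb G a₀ \ B ⊆ ((nb G a₀ ∩ nbU G Z) \ B) ∪ (nb G a₀ \ (B ∪ nbU G Z)) := by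
      intro v hv
      rw [mem_sdiff] at hv
      simp only [mem_union, mem_sdiff, mem_inter, not_or]
      tauto
    have h6 := (card_le_card h5).trans (card_union_le _ _)
    have h7 : (nb G a₀ \ B).card = C.card + g := by
      rw [← hht]
      exact (mem_top.1 ha₀).2
    have h8 : g + (X0 \ nb G a₀).card ≤ W.card + (nb G a₀ \ (B ∪ nbU G Z)).card := by omega
    have h9 : 16 * t * W.card ≤ 16 * t * g + g := by
      by_cases hwg : W.card ≤ g
      · exact (Nat.mul_le_mul_left _ hwg).trans (Nat.le_add_right _ _)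
      · push Not at hwg
        obtain ⟨e, he⟩ : ∃ e, W.card = g + e := ⟨W.card - g, by omega⟩
        rw [he] at hq ⊢
        have h10 : q * e ≤ g := by
          rw [add_mul, one_mul, mul_add] at hq
          omega
        have h11 : 16 * t * e ≤ q * e := by
          apply Nat.mul_le_mul_right
          refine le_trans ?_ hq2
          exact Nat.le_mul_of_pos_right _ hm
        rw [mul_add]
        omega
    have h10 := Nat.mul_le_mul_left (16 * t) h8
    rw [mul_add, mul_add] at h10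
    have h11 : 16 * t * (X0 \ nb G a₀).card = 16 * (t * (X0 \ nb G a₀).card) := by ring
    have h12 : 16 * t * (nb G a₀ \ (B ∪ nbU G Z)).card
      = 2 * (8 * t * (nb G a₀ \ (B ∪ nbU G Z)).card) := by ring
    rw [h11, h12] at h10
    omega
  · have h2 : nbU G Z \ B ⊆ C ∪ W := by
      intro v hv
      rw [mem_sdiff] at hv
      rw [mem_union, hW, mem_sdiff, mem_union]
      tauto
    have h3 := (card_le_card h2).trans (card_union_le _ _)
    have h4 := Nat.mul_le_mul_left q h3
    rw [mul_add] at h4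
    rw [hht, mul_add]
    rw [add_mul, one_mul] at hq
    omega

end Pool.Agent.W118.CY
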