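import Pool.Agent.W118.CY.Basic2

/-! Caro-Yuster problem (MP_7c5d5d_co): task CY-F2. -/

set_option autoImplicit false

namespace Pool.Agent.W118.CY

open Finset

theorem t_f2 (hTL : S_TL) : S_F2 := by
  intro V _ _ G _ P B Z U X E a₀ t N₂ ρ x u w R hBP hZn hN hZ0 haB haZ hw hUc hUd hEd hXU hXc
    hsm hR hU hout
  have hEB : ∀ v ∈ E, v ∉ B ∧ v ∉ Z ∧ v ∉ P ∧ v ≠ a₀ ∧ v ∉ nbU G Z := by
    intro v hv
    have := disjoint_left.1 hEd hv
    simp only [mem_union, mem_singleton, not_or] at this
    tauto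
  have hUB : ∀ v ∈ U, v ∉ B ∧ v ∉ P ∧ v ≠ a₀ := by
    intro v hv
    have := disjoint_left.1 hUd hv
    simp only [mem_union, mem_singleton, not_or] at this
    tauto
  have hUZ : ∀ v ∈ U, ∀ z ∈ Z, G.Adj z v := fun v hv => mem_com.1 (hUc hv)
  obtain ⟨z₁, hz₁⟩ := hZ0
  have hUnb : U ⊆ nbU G Z := fun v hv => mem_nbU.2 ⟨z₁, hz₁, hUZ v hv z₁ hz₁⟩
  have hZB : ∀ z ∈ Z, z ∉ B ∧ z ∉ P := fun z hz => (mem_near.1 (hZn hz)).1
  have hUnZ : ∀ v ∈ U, v ∉ Z := fun v hv hvZ => G.loopless.irrefl _ (hUZ v hv v hvZ)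
  set D : Finset V := B ∪ E ∪ X with hD
  have hDmem : ∀ v, v ∈ D ↔ v ∈ B ∨ v ∈ E ∨ v ∈ X := by
    intro v
    rw [hD, mem_union, mem_union, or_assoc]
  have hBD : B ⊆ D := fun v hv => (hDmem v).2 (Or.inl hv)
  have hDP : Disjoint D P := by
    rw [disjoint_left]
    intro v hv hvP
    rcases (hDmem v).1 hv with h | h | h
    · exact disjoint_left.1 hBP h hvP
    · exact (hEB v h).2.2.1 hvP
    · exact (hUB v (hXU h)).2.1 hvP
  have hZD : ∀ z ∈ Z, z ∉ D := by
    intro z hz hzD
    rcases (hDmem z).1 hzD with h | h | h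
    · exact (hZB z hz).1 h
    · exact (hEB z h).2.1 hz
    · exact hUnZ z (hXU h) hz
  have hlevZ : ∀ z ∈ Z, lev G D z + x = lev G B z := by
    intro z hz
    have h1 : D = B ∪ (E ∪ X) := by rw [hD, union_assoc]
    have h2 : Disjoint (E ∪ X) B := by
      rw [disjoint_left]
      intro v hv
      rcases mem_union.1 hv with h | h
      · exact (hEB v h).1
      · exact (hUB v (hXU h)).1
    have h3 := lev_union (G := G) B (E ∪ X) z h2
    have h4 : nb G z ∩ (E ∪ X) = X := by
      ext v
      rw [mem_inter, mem_union, mem_nb]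
      constructor
      · rintro ⟨h5, h6 | h6⟩
        · exact absurd (mem_nbU.2 ⟨z, hz, h5⟩) (hEB v h6).2.2.2.2
        · exact h6
      · intro h5
        exact ⟨hUZ v (hXU h5) z hz, Or.inr h5⟩
    rw [h4, hXc] at h3
    rw [h1]
    exact h3
  obtain ⟨z₀, hz₀, hmax⟩ := exists_max_image Z (lev G D) ⟨z₁, hz₁⟩
  set l : ℕ := lev G D z₀ with hl
  have hl1 : l + x ≤ ht G P B := by
    have h1 := hlevZ z₀ hz₀
    have h2 := le_ht' (G := G) (hZB z₀ hz₀).1 (hZB z₀ hz₀).2
    omega
  have hl2 : ht G P B ≤ l + ρ + x := by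
    have h1 := hlevZ z₀ hz₀
    have h2 := (mem_near.1 (hZn hz₀)).2
    omega
  have hl3 : ht G P D ≤ ht G P B := ht_mono hBD
  have hdiff : t * (ht G P D - l) ≤ t * (ρ + x) := Nat.mul_le_mul_left t (by omega)
  obtain ⟨D', hDD', hD'd, hD'c, hlD', hcase⟩ := hTL V G P D Z {a₀} l t
    (fun z hz => ⟨hZD z hz, (hZB z hz).2, hmax z hz⟩) ⟨z₀, hz₀, rfl⟩ hDP
    (by
      intro D' h1 h2 h3
      have h4 : D' \ B ⊆ E ∪ X ∪ (D' \ D) := by
        intro v hv
        rw [mem_sdiff] at hv
        rw [mem_union, mem_union, mem_sdiff]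
        by_cases h5 : v ∈ D
        · rcases (hDmem v).1 h5 with h6 | h6 | h6
          · exact absurd h6 hv.2
          · exact Or.inl (Or.inl h6)
          · exact Or.inl (Or.inr h6)
        · exact Or.inr ⟨hv.1, h5⟩
      have h5 := card_le_card h4
      have h6 := card_union_le (E ∪ X) (D' \ D)
      have h7 := card_union_le E X
      refine top_le_of_not_out hout hZn hN ⟨z₁, hz₁⟩ (hBD.trans h1) ?_ ?_ ?_
      · rw [disjoint_left]
        intro v hv hvP
        by_cases h8 : v ∈ D
        · exact disjoint_left.1 hDP h8 hvP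
        · have := disjoint_left.1 h2 (mem_sdiff.2 ⟨hv, h8⟩)
          simp only [mem_union, not_or] at this
          exact this.1.2 hvP
      · rw [disjoint_left]
        intro v hv hvD'
        have := disjoint_left.1 h2 (mem_sdiff.2 ⟨hvD', hZD v hv⟩)
        simp only [mem_union, not_or] at this
        exact this.1.1 hv
      · have h9 : (t + 2) * (ρ + x) = t * (ρ + x) + 2 * (ρ + x) := by ring
        rw [h9] at hR
        rw [hXc] at h7
        omega)
  have hD'm : ∀ v ∈ D', v ∉ D → v ∉ Z ∧ v ∉ P ∧ v ≠ a₀ ∧ v ∉ nbU G Z := by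
    intro v hv hvD
    have := disjoint_left.1 hD'd (mem_sdiff.2 ⟨hv, hvD⟩)
    simp only [mem_union, mem_singleton, not_or] at this
    tauto
  have hEq : B ∪ (E ∪ (D' \ D)) ∪ X = D' := by
    ext v
    simp only [mem_union, mem_sdiff]
    constructor
    · rintro ((h | h | h) | h)
      · exact hDD' (hBD h)
      · exact hDD' ((hDmem v).2 (Or.inr (Or.inl h)))
      · exact h.1
      · exact hDD' ((hDmem v).2 (Or.inr (Or.inr h)))
    · intro h
      by_cases h1 : v ∈ D
      · rcases (hDmem v).1 h1 with h2 | h2 | h2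
        · exact Or.inl (Or.inl h2)
        · exact Or.inl (Or.inr (Or.inl h2))
        · exact Or.inr h2
      · exact Or.inl (Or.inr (Or.inr ⟨h, h1⟩))
  refine ⟨E ∪ (D' \ D), subset_union_left, ?_, ?_, ?_⟩
  · rw [disjoint_left]
    intro v hv
    simp only [mem_union, mem_singleton, not_or]
    rcases mem_union.1 hv with h | h
    · have := hEB v h
      tauto
    · rw [mem_sdiff] at h
      have h1 := hD'm v h.1 h.2
      have h2 : v ∉ B := fun h3 => h.2 (hBD h3)
      tauto
  · have h1 := card_union_le E (D' \ D)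
    omega
  · rw [hEq]
    intro v hv hvP
    have hv1 := le_ht' (G := G) hv hvP
    rcases hcase with hc | ⟨y, hy, hyn⟩
    · have : 0 ≤ x / u := Nat.zero_le _
      omega
    · have hyt := mem_top.1 hy
      have hyB : y ∉ B := fun h3 => hyt.1.1 (hDD' (hBD h3))
      have hlevB := le_ht' (G := G) hyB hyt.1.2
      have hX : (X \ nb G y).card < x / u := by
        refine hsm y (le_trans (Nat.mul_le_mul_left _ ?_) hU)
        have h1 : U \ nb G y ⊆ (nbU G Z \ B) \ nb G y := by
          intro v hv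
          rw [mem_sdiff] at hv
          rw [mem_sdiff, mem_sdiff]
          exact ⟨⟨hUnb hv.1, (hUB v hv.1).1⟩, hv.2⟩
        have h2 := card_le_card h1
        have h3 := card_sdiff_add_card_inter (nbU G Z \ B) (nb G y)
        have h4 : nb G y \ B ⊆ ((nbU G Z \ B) ∩ nb G y) ∪ E ∪ (D' \ D) ∪ Z ∪ P ∪ {a₀} := by
          intro v hv
          rw [mem_sdiff] at hv
          have h5 := hyn hv.1
          simp only [mem_union, mem_singleton, mem_sdiff, mem_inter] at h5 ⊢
          by_cases h6 : v ∈ nbU G Z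
          · exact Or.inl (Or.inl (Or.inl (Or.inl (Or.inl ⟨⟨h6, hv.2⟩, hv.1⟩))))
          · rcases h5 with (((h5 | h5) | h5) | h5) | h5
            · by_cases h7 : v ∈ D
              · rcases (hDmem v).1 h7 with h8 | h8 | h8
                · exact absurd h8 hv.2
                · exact Or.inl (Or.inl (Or.inl (Or.inl (Or.inr h8))))
                · exact absurd (hUnb (hXU h8)) h6
              · exact Or.inl (Or.inl (Or.inl (Or.inr ⟨h5, h7⟩)))
            · exact Or.inl (Or.inl (Or.inr h5))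
            · exact Or.inl (Or.inr h5)
            · exact Or.inr h5
            · exact absurd h5 h6
        have h5 := card_le_card h4
        have h6 := card_union_le (((nbU G Z \ B) ∩ nb G y) ∪ E ∪ (D' \ D) ∪ Z ∪ P) {a₀}
        have h7 := card_union_le (((nbU G Z \ B) ∩ nb G y) ∪ E ∪ (D' \ D) ∪ Z) P
        have h8 := card_union_le (((nbU G Z \ B) ∩ nb G y) ∪ E ∪ (D' \ D)) Z
        have h9 := card_union_le (((nbU G Z \ B) ∩ nb G y) ∪ E) (D' \ D)
        have h10 := card_union_le ((nbU G Z \ B) ∩ nb G y) E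
        rw [card_singleton] at h6
        have h11 : lev G D' y ≤ (nb G y \ B).card := lev_mono (hBD.trans hDD') y
        have h12 := hyt.2
        have h13 : (t + 2) * (ρ + x) = t * (ρ + x) + 2 * (ρ + x) := by ring
        rw [h13]
        omega
      have h1 : lev G D' y ≤ lev G (B ∪ X) y := by
        refine lev_mono ?_ y
        intro v hv
        rcases mem_union.1 hv with h | h
        · exact hDD' (hBD h)
        · exact hDD' ((hDmem v).2 (Or.inr (Or.inr h)))
      have h2 := lev_union (G := G) B X y (by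
        rw [disjoint_left]
        intro v hv
        exact (hUB v (hXU hv)).1)
      have h3 := card_sdiff_add_card_inter X (nb G y)
      rw [inter_comm] at h3
      have h4 := hyt.2
      omega

end Pool.Agent.W118.CY
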