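import Pool.Agent.W118.CY.Basic2

/-! Caro-Yuster problem (MP_7c5d5d_co): the last part of the induction step. -/

set_option autoImplicit false

namespace Pool.Agent.W118.CY

open Finset

section

variable {V : Type} [Fintype V] [DecidableEq V] {G : SimpleGraph V} [DecidableRel G.Adj]

/-- pigeonhole: one of `t + 1` disjoint sets misses a set of size `t` -/
theorem f3_pigeon {t : ℕ} (X : Fin (t + 1) → Finset V) (S : Finset V) (hS : S.card = t)
    (hX : ∀ i j, i ≠ j → Disjoint (X i) (X j)) : ∃ i, Disjoint (X i) S := by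
  by_contra hcon
  push Not at hcon
  have h1 : ∀ i, ∃ v, v ∈ X i ∧ v ∈ S := by
    intro i
    have := hcon i
    rw [not_disjoint_iff] at this
    exact this
  choose f hf using h1
  have hinj : Function.Injective f := by
    intro i j hij
    by_contra hne
    exact disjoint_left.1 (hX i j hne) (hf i).1 (hij ▸ (hf j).1)
  have h2 : (univ.image f).card ≤ S.card := by
    refine card_le_card fun v hv => ?_
    rw [mem_image] at hv
    obtain ⟨i, _, rfl⟩ := hv
    exact (hf i).2
  rw [card_image_of_injective _ hinj, card_univ, Fintype.card_fin] at h2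
  omega

/-- the vertices of `X` which are not common neighbours of `S` -/
theorem f3_sum (X S : Finset V) (k : ℕ) (h : ∀ a ∈ S, (X \ nb G a).card ≤ k) :
    (X \ com G S).card ≤ S.card * k := by
  have h1 : X \ com G S ⊆ S.biUnion (fun a => X \ nb G a) := by
    intro v hv
    rw [mem_sdiff, mem_com] at hv
    obtain ⟨hv1, hv2⟩ := hv
    push Not at hv2
    obtain ⟨a, ha, hav⟩ := hv2
    rw [mem_biUnion]
    exact ⟨a, ha, mem_sdiff.2 ⟨hv1, fun h => hav (mem_nb.1 h)⟩⟩
  exact (card_le_card h1).trans (card_biUnion_le_card_mul _ _ _ h)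

end

theorem t_f3 : S_F3 := by
  intro t p N₂ Nt Kt ht1 hClaim V _ _ G _ P B Z E a₀ U X ρ L x σ R hPp hBP hVL hσ htop ha₀ hZn hNt
    hZne ha₀Z hE hXU hXX hUA hlevX hx hE1 hUc hR
  have ha₀m := mem_top.1 ha₀
  have hEm : ∀ v ∈ E, v ∉ B ∧ v ∉ Z ∧ v ∉ P ∧ v ≠ a₀ ∧ v ∉ nbU G Z := by
    intro v hv
    have := disjoint_left.1 hE hv
    simp only [mem_union, mem_singleton, not_or] at this
    tauto
  -- step 1
  obtain ⟨E1, hE1s, hE1c⟩ : ∃ E1 ⊆ (nb G a₀ \ (B ∪ nbU G Z)) \ (E ∪ Z ∪ P),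
      E1.card = ρ + σ + 1 := by
    refine exists_subset_card_eq ?_
    have h1 := le_card_sdiff (E ∪ Z ∪ P) (nb G a₀ \ (B ∪ nbU G Z))
    have h2 := card_union_le (E ∪ Z) P
    have h3 := card_union_le E Z
    omega
  have hE1m : ∀ v ∈ E1, v ∈ nb G a₀ ∧ v ∉ B ∧ v ∉ nbU G Z ∧ v ∉ E ∧ v ∉ Z ∧ v ∉ P := by
    intro v hv
    have := hE1s hv
    simp only [mem_sdiff, mem_union, not_or] at this
    tauto
  set D1 : Finset V := B ∪ E ∪ E1 with hD1
  set P1 : Finset V := P ∪ {a₀} with hP1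
  set s0 : ℕ := E.card + ρ + 2 * σ + 1 with hs0
  have hBD1 : B ⊆ D1 := by
    intro v hv
    simp only [hD1, mem_union]
    tauto
  have hD1B : ∀ v ∈ D1 \ B, v ∈ E ∨ v ∈ E1 := by
    intro v hv
    simp only [hD1, mem_sdiff, mem_union] at hv
    tauto
  have hD1Bc : (D1 \ B).card ≤ E.card + (ρ + σ + 1) := by
    have h1 : D1 \ B ⊆ E ∪ E1 := fun v hv => mem_union.2 (hD1B v hv)
    have h2 := card_le_card h1
    have h3 := card_union_le E E1
    omega
  have hD1P1 : Disjoint D1 P1 := by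
    rw [disjoint_left]
    intro v hv hv'
    simp only [hD1, mem_union] at hv
    simp only [hP1, mem_union, mem_singleton] at hv'
    rcases hv with (hv | hv) | hv
    · rcases hv' with hv' | hv'
      · exact disjoint_left.1 hBP hv hv'
      · exact ha₀m.1.1 (hv' ▸ hv)
    · have := hEm v hv
      tauto
    · have h1 := hE1m v hv
      rcases hv' with hv' | hv'
      · exact h1.2.2.2.2.2 hv'
      · rw [hv'] at h1
        exact not_mem_nb_self h1.1
  have hZlev : ∀ z ∈ Z, lev G D1 z = lev G B z := by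
    intro z hz
    refine lev_eq_of_disjoint hBD1 ?_
    rw [disjoint_left]
    intro v hv hv'
    have h1 : v ∈ nbU G Z := mem_nbU.2 ⟨z, hz, mem_nb.1 hv'⟩
    rcases hD1B v hv with h2 | h2
    · exact (hEm v h2).2.2.2.2 h1
    · exact (hE1m v h2).2.2.1 h1
  have hZD1 : ∀ z ∈ Z, z ∉ D1 := by
    intro z hz h1
    have h2 := mem_near.1 (hZn hz)
    simp only [hD1, mem_union] at h1
    rcases h1 with (h1 | h1) | h1
    · exact h2.1.1 h1
    · exact (hEm z h1).2.1 hz
    · exact (hE1m z h1).2.2.2.2.1 hz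
  have hZP1 : ∀ z ∈ Z, z ∉ P1 := by
    intro z hz h1
    have h2 := mem_near.1 (hZn hz)
    simp only [hP1, mem_union, mem_singleton] at h1
    rcases h1 with h1 | h1
    · exact h2.1.2 h1
    · exact ha₀Z (h1 ▸ hz)
  have hhtP : ∀ D : Finset V, ht G P1 D ≤ ht G P D := by
    intro D
    refine ht_le fun v h1 h2 => le_ht' h1 fun h3 => h2 ?_
    exact mem_union.2 (Or.inl h3)
  have hht1 : ht G P1 D1 ≤ ht G P B := (hhtP D1).trans (ht_mono hBD1)
  have hZnear : Z ⊆ near G P1 D1 ρ := by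
    intro z hz
    rw [mem_near]
    have h2 := mem_near.1 (hZn hz)
    refine ⟨⟨hZD1 z hz, hZP1 z hz⟩, ?_⟩
    rw [hZlev z hz]
    omega
  -- step 2
  have hOut : Out G P1 D1 t N₂ (Kt * (ρ + L + 1)) := by
    refine hClaim V G P1 D1 ρ L ?_ hD1P1 hVL (hNt.trans (card_le_card hZnear))
    have h1 := card_union_le P {a₀}
    rw [card_singleton] at h1
    rw [hP1]
    omega
  rw [← hσ] at hOut
  obtain ⟨D2, hD12, hD2P1, hD21, htopD2, hnearD2, hhtD2⟩ := hOut
  have hBD2 : B ⊆ D2 := hBD1.trans hD12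
  have hD2B : (D2 \ B).card ≤ s0 := by
    have h1 : D2 \ B ⊆ (D2 \ D1) ∪ (D1 \ B) := by
      intro v hv
      simp only [mem_sdiff, mem_union] at hv ⊢
      tauto
    have h2 := card_le_card h1
    have h3 := card_union_le (D2 \ D1) (D1 \ B)
    omega
  have ha₀P1 : a₀ ∈ P1 := mem_union.2 (Or.inr (mem_singleton.2 rfl))
  have ha₀D2 : a₀ ∉ D2 := fun h => disjoint_left.1 hD2P1 h ha₀P1
  have hD2P : Disjoint D2 P := by
    rw [disjoint_left]
    intro v hv hv'
    exact disjoint_left.1 hD2P1 hv (mem_union.2 (Or.inl hv'))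
  -- step 3
  obtain ⟨z₀, hz₀⟩ := hZne
  have h3a : ht G P B ≤ ht G P1 D2 + ρ + σ := by
    have h1 := le_ht' (G := G) (hZD1 z₀ hz₀) (hZP1 z₀ hz₀)
    have h2 := hZlev z₀ hz₀
    have h3 := (mem_near.1 (hZn hz₀)).2
    omega
  have h3b : lev G D2 a₀ + (ρ + σ + 1) ≤ ht G P B := by
    have h1 := lev_mono (G := G) (D := B ∪ E1) (D' := D2) (by
      intro v hv
      apply hD12
      simp only [hD1, mem_union] at hv ⊢
      tauto) a₀
    have h2 := lev_union (G := G) B E1 a₀ (by
      rw [disjoint_left]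
      intro v hv
      exact (hE1m v hv).2.1)
    have h3 : nb G a₀ ∩ E1 = E1 := by
      rw [inter_eq_right]
      intro v hv
      exact (hE1m v hv).1
    rw [h3, hE1c] at h2
    have h4 := ha₀m.2
    omega
  have h3c : lev G D2 a₀ < ht G P1 D2 := by omega
  have h3d : ht G P D2 = ht G P1 D2 := by
    refine le_antisymm ?_ (hhtP D2)
    refine ht_le fun v h1 h2 => ?_
    by_cases h3 : v = a₀
    · rw [h3]
      omega
    · refine le_ht' h1 ?_
      simp only [hP1, mem_union, mem_singleton]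
      tauto
  have h3e : top G P1 D2 ⊆ top G P D2 := by
    intro v hv
    rw [mem_top] at hv ⊢
    refine ⟨⟨hv.1.1, fun h => hv.1.2 (mem_union.2 (Or.inl h))⟩, ?_⟩
    rw [h3d]
    exact hv.2
  have h3f : near G P1 D2 σ ⊆ near G P D2 σ := by
    intro v hv
    rw [mem_near] at hv ⊢
    refine ⟨⟨hv.1.1, fun h => hv.1.2 (mem_union.2 (Or.inl h))⟩, ?_⟩
    rw [h3d]
    exact hv.2
  have ha₀t : a₀ ∉ top G P D2 := by
    intro h
    have h1 := (mem_top.1 h).2
    omega
  have ha₀n : a₀ ∈ near G P D2 s0 := by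
    rw [mem_near]
    refine ⟨⟨ha₀D2, ha₀m.1.2⟩, ?_⟩
    have h1 := lev_le_add (G := G) B D2 a₀
    have h2 := ha₀m.2
    have h3 := ht_mono (G := G) (P := P) hBD2
    omega
  have hnear2 : N₂ ≤ (near G P D2 σ).card := hnearD2.trans (card_le_card h3f)
  have htop2 : t ≤ (top G P D2).card := htopD2.trans (card_le_card h3e)
  -- step 4
  by_cases h4 : t + 1 ≤ (top G P D2).card
  · exact ⟨D2, hBD2, hD2P, by omega, h4,
      hnear2.trans (card_le_card (near_mono (by omega))), by omega⟩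
  -- step 5
  have hSt : (top G P D2).card = t := by omega
  obtain ⟨i, hi⟩ := f3_pigeon X (top G P D2) hSt hXX
  obtain ⟨hXUi, hXc, hUcom, hUd⟩ := hXU i
  have hUm : ∀ v ∈ U i, v ∉ B ∧ v ∉ P ∧ v ≠ a₀ ∧ v ∉ nb G a₀ := by
    intro v hv
    have := disjoint_left.1 hUd hv
    simp only [mem_union, mem_singleton, not_or] at this
    tauto
  have hUZ : ∀ v ∈ U i, v ∈ nbU G Z := by
    intro v hv
    exact mem_nbU.2 ⟨z₀, hz₀, mem_com.1 (hUcom hv) z₀ hz₀⟩
  have h20 : 0 < 20 * t := by omega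
  have hk1 : ρ + σ ≤ x / (20 * t) := by
    rw [Nat.le_div_iff_mul_le h20]
    calc (ρ + σ) * (20 * t) = 20 * t * (ρ + σ) := Nat.mul_comm _ _
      _ ≤ x := hx
  have hk2 : 20 * t * (x / (20 * t)) ≤ x := Nat.mul_div_le x (20 * t)
  have h5a : ∀ a ∈ top G P D2, (X i \ nb G a).card ≤ 2 * (x / (20 * t)) := by
    intro a ha
    have ham := mem_top.1 ha
    have h1 : a ∉ B ∪ E ∪ X i := by
      simp only [mem_union, not_or]
      refine ⟨⟨fun h => ham.1.1 (hBD2 h), fun h => ham.1.1 (hD12 ?_)⟩,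
        fun h => disjoint_left.1 hi h ha⟩
      simp only [hD1, mem_union]
      tauto
    have h2 := hlevX i a h1 ham.1.2
    have h3 := lev_union (G := G) (B ∪ E) (X i) a (by
      rw [disjoint_left]
      intro v hv hv'
      rcases mem_union.1 hv' with h | h
      · exact (hUm v (hXUi hv)).1 h
      · exact (hEm v h).2.2.2.2 (hUZ v (hXUi hv)))
    have h4 : lev G D2 a ≤ lev G (B ∪ E) a := lev_mono (by
      intro v hv
      apply hD12
      simp only [hD1, mem_union] at hv ⊢
      tauto) a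
    have h5 : (X i ∩ nb G a).card + (X i \ nb G a).card = (X i).card :=
      card_inter_add_card_sdiff _ _
    rw [inter_comm] at h5
    have h6 := ham.2
    omega
  have h5b := f3_sum (G := G) (X i) (top G P D2) _ h5a
  rw [hSt] at h5b
  have h5c : (X i ∩ com G (top G P D2)).card + (X i \ com G (top G P D2)).card = (X i).card :=
    card_inter_add_card_sdiff _ _
  have h5d : 9 * x ≤ 10 * (X i ∩ com G (top G P D2)).card := by
    have h1 : 10 * (t * (2 * (x / (20 * t)))) = 20 * t * (x / (20 * t)) := by ring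
    omega
  have h5e : (U i).card < 16 * (U i ∩ com G (top G P D2)).card := by
    by_contra hcon
    have := hUA i (top G P D2) hSt (by omega)
    omega
  have hUci := hUc i
  -- step 6
  obtain ⟨T, hT, hTc⟩ := exists_subset_card_eq hnear2
  obtain ⟨F, hF, hFc⟩ : ∃ F ⊆ (U i ∩ com G (top G P D2)) \ (D2 ∪ T), F.card = s0 := by
    refine exists_subset_card_eq ?_
    have h1 : (U i ∩ com G (top G P D2)) ⊆
        ((U i ∩ com G (top G P D2)) \ (D2 ∪ T)) ∪ ((D2 \ B) ∪ T) := by
      intro v hv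
      have h2 := (hUm v (mem_inter.1 hv).1).1
      simp only [mem_union, mem_sdiff, mem_inter] at hv ⊢
      tauto
    have h2 := card_le_card h1
    have h3 := card_union_le ((U i ∩ com G (top G P D2)) \ (D2 ∪ T)) ((D2 \ B) ∪ T)
    have h4 := card_union_le (D2 \ B) T
    omega
  have hFm : ∀ v ∈ F, v ∈ U i ∧ v ∈ com G (top G P D2) ∧ v ∉ D2 ∧ v ∉ T := by
    intro v hv
    have := hF hv
    simp only [mem_sdiff, mem_inter, mem_union, not_or] at this
    tauto
  obtain ⟨F', hF', h6a, h6b⟩ := extend (G := G) (P := P) (D := D2) (F := F) ha₀n ha₀t hFc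
    (by
      rw [disjoint_left]
      intro v hv
      exact (hFm v hv).2.2.1)
    (by
      rw [disjoint_left]
      intro v hv
      exact (hUm v (hFm v hv).1).2.1)
    (fun h => (hUm a₀ (hFm a₀ h).1).2.2.1 rfl)
    (fun v hv h => (hUm v (hFm v hv).1).2.2.2 (mem_nb.2 h))
    (fun v hv a ha => mem_com.1 (hFm v hv).2.1 a ha)
  have hF'c : F'.card ≤ s0 := by
    rw [← hFc]
    exact card_le_card hF'
  have hDD : ((D2 ∪ F') \ D2).card ≤ s0 := by
    have h1 : (D2 ∪ F') \ D2 ⊆ F' := by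
      intro v hv
      simp only [mem_sdiff, mem_union] at hv
      tauto
    exact (card_le_card h1).trans hF'c
  have hDB : ((D2 ∪ F') \ B).card ≤ 2 * s0 := by
    have h1 : (D2 ∪ F') \ B ⊆ (D2 \ B) ∪ F' := by
      intro v hv
      simp only [mem_sdiff, mem_union] at hv ⊢
      tauto
    have h2 := card_le_card h1
    have h3 := card_union_le (D2 \ B) F'
    omega
  refine ⟨D2 ∪ F', hBD2.trans subset_union_left, ?_, by omega, by omega, ?_, by omega⟩
  · rw [disjoint_union_left]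
    refine ⟨hD2P, ?_⟩
    rw [disjoint_left]
    intro v hv
    exact (hUm v (hFm v (hF' hv)).1).2.1
  · rw [← hTc]
    refine card_le_card fun z hz => ?_
    refine near_mono (s := σ + s0) (by omega) (near_of_subset (hT hz) subset_union_left ?_ hDD)
    rw [mem_union, not_or]
    exact ⟨(mem_near.1 (hT hz)).1.1, fun h => (hFm z (hF' h)).2.2.2 hz⟩

end Pool.Agent.W118.CY
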