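import Pool.Agent.W118.CY.Basic2

/-! Caro-Yuster problem (MP_7c5d5d_co): the case of a large core distance (written by helper138). -/

set_option autoImplicit false

namespace Pool.Agent.W118.CY

open Finset

theorem t_fin (h1 : S_F1) (h2 : S_F4) (h3 : S_F3) : S_FIN := by
  intro t ht1 hCl p N₂
  obtain ⟨Nt, Kt, hC⟩ := hCl (p + 1) N₂
  obtain ⟨m, hm⟩ : ∃ m, m = max Nt (max N₂ 1) := ⟨_, rfl⟩
  obtain ⟨u, hu⟩ : ∃ u, u = 20 * t := ⟨_, rfl⟩
  obtain ⟨cx, hcx⟩ : ∃ cx, cx = 200 * t * (Kt + 1) := ⟨_, rfl⟩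
  obtain ⟨c2, hc2⟩ : ∃ c2, c2 = (t + 1 + 1) * (t + 2) * (1 + cx) + m + p + 1 := ⟨_, rfl⟩
  obtain ⟨c3, hc3⟩ : ∃ c3, c3 = (t + 1) * (t * (1 + cx)) := ⟨_, rfl⟩
  obtain ⟨c4, hc4⟩ : ∃ c4, c4 = c3 + m + p + Kt + 2 := ⟨_, rfl⟩
  obtain ⟨c5, hc5⟩ : ∃ c5, c5 = 2 * (c3 + 2 * Kt + 2) + N₂ := ⟨_, rfl⟩
  obtain ⟨K, hK⟩ : ∃ K, K = c2 + 16 * t * 2 ^ (3 * u) * c2 + 16 * t * (m + 1) * (p + 3) +
    8 * t * c4 + 128 * t * c5 := ⟨_, rfl⟩
  obtain ⟨q, hq⟩ : ∃ q, q = 16 * t * m + 16 * t * 2 ^ (3 * u) := ⟨_, rfl⟩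
  have hm1 : 1 ≤ m := by omega
  have hmt : Nt ≤ m := by omega
  have hmN : N₂ ≤ m := by omega
  have hq1 : 16 * t * m ≤ q := by omega
  have hq2 : 16 * t * 2 ^ (3 * u) ≤ q := by omega
  have hq0 : 1 ≤ q := by
    have : 1 ≤ 16 * t * m := Nat.mul_pos (by omega) hm1
    omega
  have hK1 : c2 ≤ K := by omega
  have hK2 : 16 * t * 2 ^ (3 * u) * c2 ≤ K := by omega
  have hK3 : 16 * t * (m + 1) * (p + 3) ≤ K := by omega
  have hK4 : 8 * t * c4 ≤ K := by omega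
  have hK5 : 128 * t * c5 ≤ K := by omega
  refine ⟨m, q, K, hq0, ?_⟩
  intro V _ _ G _ P B Z ρ L hP hBP hV htop hZ hZn hqn hcore
  by_contra hO
  obtain ⟨lam, hlam⟩ : ∃ lam, lam = ρ + L + 1 := ⟨_, rfl⟩
  obtain ⟨g, hg⟩ : ∃ g, g = ht G P B - (core G P B).card := ⟨_, rfl⟩
  rw [← hlam] at hcore hO
  rw [← hg] at hqn
  have hhg : ht G P B = (core G P B).card + g := by omega
  have hgK : K * lam ≤ g := by omega
  have hl1 : 1 ≤ lam := by omega
  have hρl : ρ ≤ lam := by omega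
  have hgc : ∀ c, c ≤ K → c * lam ≤ g := fun c hc => (Nat.mul_le_mul_right _ hc).trans hgK
  have hcl : ∀ c : ℕ, c ≤ c * lam := fun c => Nat.le_mul_of_pos_right _ hl1
  obtain ⟨a₀, ha₀, ha₀Z, U, hUZ, hUd, hgU, hgn, hqw⟩ := h1 V G P B Z t m q ρ g ht1 hm1 htop hBP hZ
    hZn hhg hqn hq1 (by
      refine le_trans ?_ (hgc _ hK3)
      rw [mul_assoc (16 * t * (m + 1))]
      apply Nat.mul_le_mul_left
      have := hcl (p + 2)
      calc ρ + P.card + 2 ≤ lam + (p + 2) * lam := by omega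
        _ = (p + 3) * lam := by ring)
  obtain ⟨x, hx⟩ : ∃ x, x = cx * lam := ⟨_, rfl⟩
  have hZne : Z.Nonempty := by
    rw [← card_pos]; omega
  have ha₀B : a₀ ∉ B := (mem_top.1 ha₀).1.1
  -- the excess
  obtain ⟨w, hw⟩ : ∃ w, w = g / q := ⟨_, rfl⟩
  have hwq : q * w ≤ g := by
    rw [hw]; exact Nat.mul_div_le g q
  have hnw : (nbU G Z \ B).card ≤ ht G P B + w := by
    have h4 : (nbU G Z \ B).card - ht G P B ≤ g / q := by
      rw [Nat.le_div_iff_mul_le (by omega), Nat.sub_mul]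
      have e1 : (nbU G Z \ B).card * q = q * (nbU G Z \ B).card := mul_comm _ _
      have e2 : ht G P B * q = q * ht G P B := mul_comm _ _
      omega
    omega
  have hρx : ρ + x ≤ (1 + cx) * lam := by
    rw [hx, add_mul, one_mul]
    omega
  have hbig : (t + 1 + 1) * (t + 2) * (ρ + x) + Z.card + P.card + 1 ≤ c2 * lam := by
    have h4 : (t + 1 + 1) * (t + 2) * (ρ + x) ≤ (t + 1 + 1) * (t + 2) * ((1 + cx) * lam) :=
      Nat.mul_le_mul_left _ hρx
    have h5 := hcl (m + p + 1)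
    calc (t + 1 + 1) * (t + 2) * (ρ + x) + Z.card + P.card + 1
        ≤ (t + 1 + 1) * (t + 2) * ((1 + cx) * lam) + (m + p + 1) * lam := by omega
      _ = c2 * lam := by rw [hc2]; ring
  have hUbig : 2 * 2 ^ (3 * u) * (w + (t + 1 + 1) * (t + 2) * (ρ + x) + Z.card + P.card + 1) ≤
      U.card := by
    have h4 : w + (t + 1 + 1) * (t + 2) * (ρ + x) + Z.card + P.card + 1 ≤ w + c2 * lam := by omega
    have h5 : 16 * t * 2 ^ (3 * u) * w ≤ g := (Nat.mul_le_mul_right _ hq2).trans hwq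
    have h6 : 16 * t * 2 ^ (3 * u) * c2 * lam ≤ g := hgc _ hK2
    have h7 : (4 * t) * (2 * 2 ^ (3 * u) * (w + c2 * lam)) ≤ (4 * t) * U.card := by
      refine le_trans ?_ hgU
      have e : 2 * ((4 * t) * (2 * 2 ^ (3 * u) * (w + c2 * lam))) =
          16 * t * 2 ^ (3 * u) * w + 16 * t * 2 ^ (3 * u) * c2 * lam := by ring
      omega
    have h8 := Nat.le_of_mul_le_mul_left h7 (by omega)
    exact (Nat.mul_le_mul_left _ h4).trans h8
  have htL : t * L + 1 ≤ x := by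
    rw [hx, hcx]
    have h4 : t * L + 1 ≤ t * lam := by
      rw [hlam]
      calc t * L + 1 ≤ t * L + t * (ρ + 1) := by
            have : 1 ≤ t * (ρ + 1) := Nat.mul_pos ht1 (by omega)
            omega
        _ = t * (ρ + L + 1) := by ring
    refine h4.trans (Nat.mul_le_mul_right _ ?_)
    calc t = t * 1 := (mul_one t).symm
      _ ≤ t * (200 * (Kt + 1)) := Nat.mul_le_mul_left _ (by omega)
      _ = 200 * t * (Kt + 1) := by ring
  obtain ⟨E, U', X, hEc, hEd, hXU, hXd, hXA, hXl⟩ := h2 (t + 1) V G P B Z U a₀ t N₂ ρ x u w L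
    (K * lam) ht1 (by omega) hBP hZn (by omega) hZne ha₀B ha₀Z hV
    ⟨(Kt + 1) * lam, by rw [hx, hcx, hu]; ring⟩ htL hnw hUZ
    (disjoint_of_subset_right subset_union_left hUd)
    (hbig.trans (Nat.mul_le_mul_right _ hK1)) hUbig hO
  have hEc3 : E.card ≤ c3 * lam := by
    refine hEc.trans ?_
    calc (t + 1) * (t * (ρ + x)) ≤ (t + 1) * (t * ((1 + cx) * lam)) :=
          Nat.mul_le_mul_left _ (Nat.mul_le_mul_left _ hρx)
      _ = c3 * lam := by rw [hc3]; ring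
  obtain ⟨σ, hσ⟩ : ∃ σ, σ = Kt * lam := ⟨_, rfl⟩
  have hc5b : 2 * (E.card + ρ + 2 * σ + 1) + N₂ ≤ c5 * lam := by
    have h4 := hcl N₂
    calc 2 * (E.card + ρ + 2 * σ + 1) + N₂
        ≤ 2 * (c3 * lam + lam + 2 * (Kt * lam) + lam) + N₂ * lam := by omega
      _ = c5 * lam := by rw [hc5]; ring
  have h5K : c5 ≤ K := by
    refine le_trans ?_ hK5
    exact Nat.le_mul_of_pos_left _ (by omega)
  apply hO
  refine h3 t p N₂ Nt Kt ht1 (fun V _ _ G _ P B r L => hC V G P B r L) V G P B Z E a₀ U' X ρ L x σ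
    (K * lam) hP hBP hV (by rw [hσ, hlam]) htop ha₀ hZn (by omega) hZne ha₀Z hEd ?_ hXd hXA ?_ ?_ ?_
    ?_ ?_
  · intro i
    obtain ⟨h4, h5, h6, h7⟩ := hXU i
    exact ⟨h4, h5, h6.trans hUZ, disjoint_of_subset_left h6 hUd⟩
  · intro i v h4 h5
    rw [← hu]
    exact hXl i v h4 h5
  · rw [hx, hcx, hσ]
    calc 20 * t * (ρ + Kt * lam) ≤ 20 * t * (10 * ((Kt + 1) * lam)) := by
          apply Nat.mul_le_mul_left
          have e : 10 * ((Kt + 1) * lam) = 10 * (Kt * lam) + 10 * lam := by ring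
          omega
      _ = 200 * t * (Kt + 1) * lam := by ring
  · have h4 : 8 * t * (c4 * lam) ≤ 8 * t * (nb G a₀ \ (B ∪ nbU G Z)).card := by
      refine le_trans ?_ hgn
      rw [← mul_assoc]
      exact hgc _ hK4
    have h5 := Nat.le_of_mul_le_mul_left h4 (by omega)
    refine le_trans ?_ h5
    have h6 := hcl (m + p + 1)
    calc E.card + Z.card + P.card + (ρ + σ + 1)
        ≤ c3 * lam + (m + p + 1) * lam + lam + Kt * lam := by omega
      _ = c4 * lam := by rw [hc4]; ring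
  · intro i
    obtain ⟨-, -, -, h7⟩ := hXU i
    have h4 : 8 * t * (16 * (c5 * lam)) ≤ 8 * t * (U' i).card := by
      calc 8 * t * (16 * (c5 * lam)) = 128 * t * c5 * lam := by ring
        _ ≤ g := hgc _ hK5
        _ ≤ 4 * t * U.card := hgU
        _ ≤ 4 * t * (2 * (U' i).card) := Nat.mul_le_mul_left _ h7
        _ = 8 * t * (U' i).card := by ring
    have h5 := Nat.le_of_mul_le_mul_left h4 (by omega)
    omega
  · have h6 : c5 * lam ≤ K * lam := Nat.mul_le_mul_right _ h5K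
    omega

end Pool.Agent.W118.CY
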