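import Pool.Agent.W118.CY.Core

/-! Caro-Yuster problem (MP_7c5d5d_co): the conclusion. -/

set_option autoImplicit false

namespace Pool.Agent.W118.CY

open Finset

theorem main_of (hW : S_WIN) (hC : ∀ k : ℕ, 1 ≤ k → Claim k) :
    ∀ k : ℕ, ∃ C : ℝ, ∃ N : ℕ,
      ∀ (V : Type) [Fintype V] [DecidableEq V] (G : SimpleGraph V) [DecidableRel G.Adj],
        N ≤ Fintype.card V →
        ∃ S : Finset V,
          (((Fintype.card V - S.card : ℕ) : ℝ) ≤ C * Real.sqrt (Fintype.card V)) ∧
          k ≤ (S.filter (fun v => ∀ w ∈ S,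
                (S.filter (fun u => G.Adj w u)).card ≤
                  (S.filter (fun u => G.Adj v u)).card)).card := by
  intro k
  rcases Nat.eq_zero_or_pos k with rfl | hk
  · refine ⟨0, 0, ?_⟩
    intro V _ _ G _ _
    exact ⟨univ, by simp, Nat.zero_le _⟩
  obtain ⟨N, K, hN⟩ := hC k hk 0 0
  refine ⟨2 * ((N : ℝ) + 3 * K), (N + 2) ^ 2, ?_⟩
  intro V _ _ G _ hV
  set n := Fintype.card V with hn
  set s := Nat.sqrt n with hs
  have hsN : N + 2 ≤ s := by
    rw [hs, Nat.le_sqrt]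
    rw [pow_two] at hV
    exact hV
  have hs1 : n < (s + 1) * (s + 1) := Nat.lt_succ_sqrt n
  have hs2 : s * s ≤ n := Nat.sqrt_le n
  have hdiv : n / (s + 1) ≤ s := by
    have := (Nat.div_lt_iff_lt_mul (Nat.succ_pos s)).2 hs1
    exact Nat.lt_succ_iff.1 this
  have hht : ht G ∅ ∅ ≤ n := by
    refine ht_le fun v _ _ => ?_
    exact card_le_univ _
  obtain ⟨D', -, hD'c, hnear⟩ := hW V G N s n ∅ hht (by
    rw [card_empty, Nat.zero_add]
    calc N * (n / (s + 1) + 2) ≤ N * (s + 2) := Nat.mul_le_mul le_rfl (by omega)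
      _ ≤ s * s := by nlinarith
      _ ≤ n := hs2)
  rw [sdiff_empty] at hD'c
  have hpow : Fintype.card V ≤ 2 ^ (2 * (s + 1)) := by
    have h1 : s + 1 ≤ 2 ^ (s + 1) := Nat.lt_two_pow_self.le
    calc Fintype.card V ≤ (s + 1) * (s + 1) := hs1.le
      _ ≤ 2 ^ (s + 1) * 2 ^ (s + 1) := Nat.mul_le_mul h1 h1
      _ = 2 ^ (2 * (s + 1)) := by
        rw [← pow_add]
        congr 1
        omega
  obtain ⟨D, hDD, -, hDc, htop, -, -⟩ := hN V G ∅ D' s (2 * (s + 1)) (by simp) (by simp) hpow hnear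
  have hDcard : D.card ≤ (N + 3 * K) * (s + 1) := by
    have h1 : D.card ≤ (D \ D').card + D'.card := by
      have := card_sdiff_add_card_eq_card hDD
      omega
    have h2 : D'.card ≤ N * (s + 1) := hD'c.trans (Nat.mul_le_mul le_rfl (by omega))
    have h3 : (D \ D').card ≤ 3 * K * (s + 1) := by
      refine hDc.trans (le_of_eq ?_)
      ring
    rw [add_mul]
    omega
  refine ⟨Dᶜ, ?_, ?_⟩
  · have h1 : n - (Dᶜ).card = D.card := by
      rw [card_compl]
      have := card_le_univ D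
      omega
    rw [h1]
    have h2 : (1 : ℝ) ≤ Real.sqrt (n : ℝ) := by
      rw [Real.one_le_sqrt]
      have : 1 ≤ n := by nlinarith
      exact_mod_cast this
    have h3 : (s : ℝ) ≤ Real.sqrt (n : ℝ) := by
      refine Real.le_sqrt_of_sq_le ?_
      rw [pow_two]
      exact_mod_cast hs2
    calc (D.card : ℝ) ≤ (((N + 3 * K) * (s + 1) : ℕ) : ℝ) := by exact_mod_cast hDcard
      _ = ((N : ℝ) + 3 * K) * (s + 1) := by push_cast; ring
      _ ≤ ((N : ℝ) + 3 * K) * (2 * Real.sqrt n) := by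
        refine mul_le_mul_of_nonneg_left (by linarith) (by positivity)
      _ = 2 * ((N : ℝ) + 3 * K) * Real.sqrt n := by ring
  · refine htop.trans (card_le_card fun v hv => ?_)
    rw [mem_top] at hv
    have hlev : ∀ w, ((Dᶜ).filter (fun u => G.Adj w u)).card = lev G D w := by
      intro w
      unfold lev
      congr 1
      ext u
      rw [mem_filter, mem_compl, mem_sdiff, mem_nb]
      tauto
    rw [mem_filter, mem_compl]
    refine ⟨hv.1.1, fun w hw => ?_⟩
    rw [mem_compl] at hw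
    rw [hlev, hlev, hv.2]
    exact le_ht' hw (by simp)

end Pool.Agent.W118.CY
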