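import Pool.Agent.W118.CY.Basic2

/-! Caro-Yuster problem (MP_7c5d5d_co): CY-R1, one step of the collection of near twins
(helper591). -/

set_option autoImplicit false

namespace Pool.Agent.W118.CY

open Finset

theorem t_r1 (h : S_TL) : S_R1 := by
  intro V _ _ G _ P B C D Z t N₂ M v Γ R a hBP hCB hht hZc htM hNM hZcp hhom hZC hBD hDZP hDa hw
    hR hO
  have hZP : Disjoint Z P := by
    rw [disjoint_left]
    intro z hz hzP
    exact (mem_cp.1 (hZcp hz)).2 hzP
  have hZD : Disjoint Z D := by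
    rw [disjoint_left]
    intro z hz hzD
    have h1 := (mem_cp.1 (hZcp hz)).1
    exact disjoint_left.1 hDZP (mem_sdiff.2 ⟨hzD, h1⟩) (mem_union_left _ hz)
  have hDP : Disjoint D P := by
    rw [disjoint_left]
    intro d hd hdP
    by_cases hdB : d ∈ B
    · exact disjoint_left.1 hBP hdB hdP
    · exact disjoint_left.1 hDZP (mem_sdiff.2 ⟨hd, hdB⟩) (mem_union_right _ hdP)
  have hZ0 : Z.Nonempty := by
    rw [← card_pos]
    omega
  obtain ⟨z₀, hz₀⟩ := hZ0
  set c := (C \ (D ∪ Z ∪ P)).card with hc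
  have hlev : ∀ z ∈ Z, lev G D z = c + v := by
    intro z hz
    have e : nb G z \ D = (C \ (D ∪ Z ∪ P)) ∪ (nb G z ∩ (P ∪ Z)) := by
      ext u
      constructor
      · intro hu
        rw [mem_sdiff] at hu
        by_cases h1 : u ∈ P ∪ Z
        · exact mem_union_right _ (mem_inter.2 ⟨hu.1, h1⟩)
        · rw [mem_union, not_or] at h1
          have h2 : u ∉ D ∪ Z ∪ P := by
            simp only [mem_union, not_or]
            exact ⟨⟨hu.2, h1.2⟩, h1.1⟩
          exact mem_union_left _ (mem_sdiff.2 ⟨(hw u h2 z hz).2 (mem_nb.1 hu.1), h2⟩)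
      · intro hu
        rcases mem_union.1 hu with hu | hu
        · rw [mem_sdiff] at hu
          refine mem_sdiff.2 ⟨mem_nb.2 ((hw u hu.2 z hz).1 hu.1), fun h2 => ?_⟩
          exact hu.2 (mem_union_left _ (mem_union_left _ h2))
        · rw [mem_inter] at hu
          refine mem_sdiff.2 ⟨hu.1, fun h2 => ?_⟩
          rcases mem_union.1 hu.2 with h3 | h3
          · exact disjoint_left.1 hDP h2 h3
          · exact disjoint_left.1 hZD h3 h2
    rw [lev, e, card_union_of_disjoint, hom_deg hZP hhom z hz]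
    rw [disjoint_left]
    intro u hu hu'
    rw [mem_sdiff] at hu
    rw [mem_inter] at hu'
    apply hu.2
    rcases mem_union.1 hu'.2 with h3 | h3
    · exact mem_union_right _ h3
    · exact mem_union_left _ (mem_union_right _ h3)
  have hCc : C.card ≤ c + a + M + P.card := by
    have h1 : C ⊆ (C \ (D ∪ Z ∪ P)) ∪ (D \ B) ∪ Z ∪ P := by
      intro u hu
      have h2 : u ∉ B := disjoint_left.1 hCB hu
      simp only [mem_union, mem_sdiff]
      tauto
    have h2 := card_le_card h1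
    have h3 := card_union_le ((C \ (D ∪ Z ∪ P)) ∪ (D \ B) ∪ Z) P
    have h4 := card_union_le ((C \ (D ∪ Z ∪ P)) ∪ (D \ B)) Z
    have h5 := card_union_le (C \ (D ∪ Z ∪ P)) (D \ B)
    omega
  have hhtD : ht G P D - (c + v) ≤ Γ + a + M + P.card := by
    have h1 := ht_mono (G := G) (P := P) hBD
    omega
  have hnbU : ∀ u ∈ nbU G Z, u ∉ D ∪ Z ∪ P → u ∈ C := by
    intro u hu h1
    obtain ⟨z, hz, hzu⟩ := mem_nbU.1 hu
    exact (hw u h1 z hz).2 hzu
  have hnear : Z ⊆ near G P B (2 * Γ) := by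
    intro z hz
    rw [mem_near]
    refine ⟨mem_cp.1 (hZcp hz), ?_⟩
    have h1 := hZC z hz
    have h2 : (C ∩ nb G z).card ≤ lev G B z := by
      rw [lev]
      refine card_le_card fun u hu => ?_
      rw [mem_inter] at hu
      exact mem_sdiff.2 ⟨hu.2, disjoint_left.1 hCB hu.1⟩
    have h3 := card_sdiff_add_card_inter C (nb G z)
    omega
  have hTbound : ∀ n : ℕ, n ≤ t * (ht G P D - (c + v)) → n ≤ t * (Γ + a + M + P.card) :=
    fun n hn => hn.trans (Nat.mul_le_mul_left _ hhtD)
  have htop : ∀ D' : Finset V, D ⊆ D' → Disjoint (D' \ D) (Z ∪ P ∪ nbU G Z) →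
      (D' \ D).card ≤ t * (ht G P D - (c + v)) → (top G P D').card ≤ t := by
    intro D' hDD' hdis hcard
    refine top_le_of_not_out (s := 2 * Γ) hO hnear (by omega) ⟨z₀, hz₀⟩ (hBD.trans hDD') ?_ ?_ ?_
    · rw [disjoint_left]
      intro d hd hdP
      by_cases hdD : d ∈ D
      · exact disjoint_left.1 hDP hdD hdP
      · exact disjoint_left.1 hdis (mem_sdiff.2 ⟨hd, hdD⟩)
          (mem_union_left _ (mem_union_right _ hdP))
    · rw [disjoint_left]
      intro d hdZ hd
      by_cases hdD : d ∈ D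
      · exact disjoint_left.1 hZD hdZ hdD
      · exact disjoint_left.1 hdis (mem_sdiff.2 ⟨hd, hdD⟩)
          (mem_union_left _ (mem_union_left _ hdZ))
    · have h1 : D' \ B ⊆ (D' \ D) ∪ (D \ B) := by
        intro u hu
        rw [mem_sdiff] at hu
        rw [mem_union, mem_sdiff, mem_sdiff]
        by_cases hD : u ∈ D
        · exact Or.inr ⟨hD, hu.2⟩
        · exact Or.inl ⟨hu.1, hD⟩
      have h2 := (card_le_card h1).trans (card_union_le _ _)
      have h3 := hTbound _ hcard
      have h4 : (t + 3) * (Γ + a + M + P.card) =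
        t * (Γ + a + M + P.card) + 3 * (Γ + a + M + P.card) := by ring
      omega
  obtain ⟨D', hDD', hdis, hcard, hl, hcase⟩ := h V G P D Z ∅ (c + v) t
    (fun z hz => ⟨disjoint_left.1 hZD hz, disjoint_left.1 hZP hz, (hlev z hz).le⟩)
    ⟨z₀, hz₀, hlev z₀ hz₀⟩ hDP htop
  have hdis' : Disjoint (D' \ D) (Z ∪ P ∪ nbU G Z) := by
    refine disjoint_of_subset_right ?_ hdis
    intro u hu
    simp only [mem_union] at hu ⊢
    tauto
  have htopD' := htop D' hDD' hdis' hcard
  have hZD' : ∀ z ∈ Z, z ∉ D' := by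
    intro z hz hzD'
    have h1 : z ∉ D := disjoint_left.1 hZD hz
    exact disjoint_left.1 hdis' (mem_sdiff.2 ⟨hzD', h1⟩) (mem_union_left _ (mem_union_left _ hz))
  have hlev' : ∀ z ∈ Z, lev G D' z = c + v := by
    intro z hz
    rw [lev_eq_of_disjoint hDD', hlev z hz]
    refine disjoint_of_subset_right ?_ hdis'
    intro u hu
    exact mem_union_right _ (mem_nbU.2 ⟨z, hz, mem_nb.1 hu⟩)
  by_cases hcl : ht G P D' = c + v
  · exfalso
    have h1 : Z ⊆ top G P D' := by
      intro z hz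
      rw [mem_top]
      exact ⟨⟨hZD' z hz, disjoint_left.1 hZP hz⟩, by rw [hlev' z hz, hcl]⟩
    have h2 := card_le_card h1
    omega
  obtain ⟨y, hy, hyn⟩ := hcase.resolve_left hcl
  rw [mem_top] at hy
  have hyZ : y ∉ Z := fun h1 => hcl (by rw [← hy.2, hlev' y h1])
  have hC' : C \ (D' ∪ Z ∪ P) = C \ (D ∪ Z ∪ P) := by
    ext u
    rw [mem_sdiff, mem_sdiff]
    constructor
    · rintro ⟨h1, h2⟩
      refine ⟨h1, fun h3 => h2 ?_⟩
      simp only [mem_union] at h3 ⊢
      rcases h3 with (h3 | h3) | h3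
      · exact Or.inl (Or.inl (hDD' h3))
      · exact Or.inl (Or.inr h3)
      · exact Or.inr h3
    · rintro ⟨h1, h2⟩
      refine ⟨h1, fun h3 => ?_⟩
      have h4 : u ∈ D' := by
        simp only [mem_union, not_or] at h2 h3
        tauto
      have h5 : u ∉ D := by
        simp only [mem_union, not_or] at h2
        tauto
      exact disjoint_left.1 hdis' (mem_sdiff.2 ⟨h4, h5⟩)
        (mem_union_right _ (mem_nbU.2 ⟨z₀, hz₀, (hw u h2 z₀ hz₀).1 h1⟩))
  have hyn' : nb G y ⊆ D' ∪ Z ∪ P ∪ C := by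
    intro u hu
    have h1 := hyn hu
    simp only [mem_union, notMem_empty, or_false] at h1 ⊢
    rcases h1 with ((h1 | h1) | h1) | h1
    · tauto
    · tauto
    · tauto
    · by_cases h2 : u ∈ D ∪ Z ∪ P
      · simp only [mem_union] at h2
        rcases h2 with (h2 | h2) | h2
        · exact Or.inl (Or.inl (Or.inl (hDD' h2)))
        · tauto
        · tauto
      · exact Or.inr (hnbU u h1 h2)
  have hlevy : lev G D' y ≤ (nb G y ∩ Z).card + (nb G y ∩ P).card +
      ((C \ (D' ∪ Z ∪ P)) ∩ nb G y).card := by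
    have h1 : nb G y \ D' ⊆ (nb G y ∩ Z) ∪ (nb G y ∩ P) ∪ ((C \ (D' ∪ Z ∪ P)) ∩ nb G y) := by
      intro u hu
      rw [mem_sdiff] at hu
      have h2 := hyn' hu.1
      simp only [mem_union, mem_inter, mem_sdiff] at h2 ⊢
      tauto
    have h2 := card_le_card h1
    have h3 := card_union_le ((nb G y ∩ Z) ∪ (nb G y ∩ P)) ((C \ (D' ∪ Z ∪ P)) ∩ nb G y)
    have h4 := card_union_le (nb G y ∩ Z) (nb G y ∩ P)
    rw [lev]
    omega
  have hsplit := card_sdiff_add_card_inter (C \ (D' ∪ Z ∪ P)) (nb G y)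
  have hcc : (C \ (D' ∪ Z ∪ P)).card = c := by rw [hC']
  refine ⟨D', y, hDD', ?_, hTbound _ hcard, hy.1.1, hy.1.2, hyZ, hyn', ?_⟩
  · exact disjoint_of_subset_right subset_union_left hdis'
  · by_cases hyC : y ∈ C
    · left
      refine ⟨hyC, ?_⟩
      have h1 : (nb G y ∩ Z).card ≤ M := by
        rw [← hZc]
        exact card_le_card inter_subset_right
      omega
    · right
      refine ⟨hyC, ?_⟩
      have h1 : nb G y ∩ Z = ∅ := by
        rw [eq_empty_iff_forall_notMem]
        intro z hz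
        rw [mem_inter, mem_nb] at hz
        have h2 : y ∉ D ∪ Z ∪ P := by
          simp only [mem_union, not_or]
          exact ⟨⟨fun h3 => hy.1.1 (hDD' h3), hyZ⟩, hy.1.2⟩
        exact hyC ((hw y h2 z hz.2).2 hz.1.symm)
      rw [h1, card_empty] at hlevy
      omega

end Pool.Agent.W118.CY
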