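import Pool.Agent.W118.CY.Basic2

/-! Caro-Yuster problem (MP_7c5d5d_co): part R2, the collection of near twins (helper85). -/

set_option autoImplicit false
set_option maxHeartbeats 4000000

namespace Pool.Agent.W118.CY

open Finset

namespace R2

/-- the first deleted set -/
def D1 {V : Type} [Fintype V] [DecidableEq V] (G : SimpleGraph V) [DecidableRel G.Adj]
    (P B C Z : Finset V) : Finset V :=
  B ∪ ((Z.biUnion fun z => (nb G z \ (B ∪ C)) ∪ (C \ nb G z)) \ (Z ∪ P))

section

variable {V : Type} [Fintype V] [DecidableEq V] {G : SimpleGraph V} [DecidableRel G.Adj]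
  {P B C Z : Finset V}

theorem D1_sub : B ⊆ D1 G P B C Z := subset_union_left

theorem D1_disj : Disjoint (D1 G P B C Z \ B) (Z ∪ P) := by
  rw [disjoint_left]
  intro w hw hw'
  unfold D1 at hw
  rw [mem_sdiff, mem_union, mem_sdiff] at hw
  rcases hw with ⟨h1 | h1, h2⟩
  · exact h2 h1
  · exact h1.2 hw'

theorem D1_card {Γ M : ℕ} (hM : Z.card = M)
    (hZ : ∀ z ∈ Z, (C \ nb G z).card ≤ Γ ∧ (nb G z \ (B ∪ C)).card ≤ Γ) :
    (D1 G P B C Z \ B).card ≤ 2 * M * Γ := by
  have h1 : D1 G P B C Z \ B ⊆ Z.biUnion fun z => (nb G z \ (B ∪ C)) ∪ (C \ nb G z) := by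
    intro w hw
    unfold D1 at hw
    rw [mem_sdiff, mem_union, mem_sdiff] at hw
    rcases hw with ⟨h1 | h1, h2⟩
    · exact absurd h1 h2
    · exact h1.1
  have h2 : (Z.biUnion fun z => (nb G z \ (B ∪ C)) ∪ (C \ nb G z)).card ≤ Z.card * (2 * Γ) := by
    apply card_biUnion_le_card_mul
    intro z hz
    have h3 := card_union_le (nb G z \ (B ∪ C)) (C \ nb G z)
    have h4 := hZ z hz
    omega
  have h3 := (card_le_card h1).trans h2
  rw [hM] at h3
  calc (D1 G P B C Z \ B).card ≤ M * (2 * Γ) := h3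
    _ = 2 * M * Γ := by ring

theorem D1_iff {D : Finset V} (hD : D1 G P B C Z ⊆ D) (w : V) (hw : w ∉ D ∪ Z ∪ P) (z : V)
    (hz : z ∈ Z) : w ∈ C ↔ G.Adj z w := by
  rw [mem_union, mem_union, not_or, not_or] at hw
  obtain ⟨⟨h1, h2⟩, h3⟩ := hw
  have h4 : w ∉ B := fun h => h1 (hD (D1_sub h))
  constructor
  · intro hC
    by_contra hadj
    apply h1
    apply hD
    unfold D1
    rw [mem_union, mem_sdiff, mem_biUnion, mem_union, not_or]
    refine Or.inr ⟨⟨z, hz, ?_⟩, h2, h3⟩
    rw [mem_union, mem_sdiff, mem_sdiff, mem_nb]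
    exact Or.inr ⟨hC, hadj⟩
  · intro hadj
    by_contra hC
    apply h1
    apply hD
    unfold D1
    rw [mem_union, mem_sdiff, mem_biUnion, mem_union, not_or]
    refine Or.inr ⟨⟨z, hz, ?_⟩, h2, h3⟩
    rw [mem_union, mem_sdiff, mem_sdiff, mem_nb, mem_union, not_or]
    exact Or.inl ⟨hadj, h4, hC⟩

end

theorem step (h : S_R1) (t p N₂ M : ℕ) (htM : t + 1 ≤ M) (hN : N₂ ≤ M) : ∀ i : ℕ, ∃ K : ℕ,
    ∀ (V : Type) [Fintype V] [DecidableEq V] (G : SimpleGraph V) [DecidableRel G.Adj]
    (P B C Z : Finset V) (v Γ R : ℕ),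
    P.card ≤ p → Disjoint B P → Disjoint C B → ht G P B ≤ C.card + Γ → Z.card = M →
    Z ⊆ cp P B → (∀ z ∈ Z, (C \ nb G z).card ≤ Γ ∧ (nb G z \ (B ∪ C)).card ≤ Γ) →
    hom G P Z v → K * (Γ + 1) ≤ R → ¬ Out G P B (t + 1) N₂ R →
    ∃ D Y : Finset V, D1 G P B C Z ⊆ D ∧ Disjoint (D \ B) (Z ∪ P) ∧ (D \ B).card ≤ K * (Γ + 1) ∧
      Y ⊆ D ∧ Y.card = i ∧ Y ⊆ cp P B ∧
      (∀ y ∈ Y, (C \ nb G y).card ≤ K * (Γ + 1) ∧ (nb G y \ (B ∪ C)).card ≤ K * (Γ + 1)) ∧
      (∀ y ∈ Y, y ∈ C → v + 2 ≤ M + (nb G y ∩ P).card) ∧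
      (∀ y ∈ Y, y ∉ C → v + 1 ≤ (nb G y ∩ P).card) ∧
      (∀ y ∈ Y, ∀ y' ∈ Y, y ∈ C → y' ∈ C → y ≠ y' → G.Adj y y') ∧
      (∀ y ∈ Y, y ∈ C → C \ (D ∪ Z ∪ P) ⊆ nb G y) := by
  intro i
  induction i with
  | zero =>
    refine ⟨2 * M, ?_⟩
    intro V _ _ G _ P B C Z v Γ R hP hBP hCB hht hZ hZc hZn hhom hR hOut
    refine ⟨D1 G P B C Z, ∅, Subset.refl _, D1_disj, ?_, empty_subset _, card_empty,
      empty_subset _, ?_, ?_, ?_, ?_, ?_⟩
    · refine (D1_card hZ hZn).trans ?_
      exact Nat.mul_le_mul_left _ (Nat.le_succ _)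
    all_goals
      intro y hy
      exact absurd hy (notMem_empty y)
  | succ i ih =>
    obtain ⟨K, hK⟩ := ih
    refine ⟨K + (t + 3) * (1 + K + M + p) + 2 * (M + p) + 1, ?_⟩
    intro V _ _ G _ P B C Z v Γ R hP hBP hCB hht hZ hZc hZn hhom hR hOut
    have hmono : K * (Γ + 1) ≤
        (K + (t + 3) * (1 + K + M + p) + 2 * (M + p) + 1) * (Γ + 1) :=
      Nat.mul_le_mul_right _ (by omega)
    obtain ⟨D, Y, hD1, hDd, hDc, hYD, hYc, hYcp, hY1, hY2, hY3, hY4, hY5⟩ :=
      hK V G P B C Z v Γ R hP hBP hCB hht hZ hZc hZn hhom (hmono.trans hR) hOut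
    have hBD : B ⊆ D := D1_sub.trans hD1
    obtain ⟨q, hq⟩ : ∃ q : ℕ, q = (1 + K + M + p) * (Γ + 1) := ⟨_, rfl⟩
    have hlin : Γ + K * (Γ + 1) + M + P.card ≤ q := by
      have h1 : P.card ≤ p * (Γ + 1) := hP.trans (Nat.le_mul_of_pos_right _ (Nat.succ_pos _))
      have h2 : M ≤ M * (Γ + 1) := Nat.le_mul_of_pos_right _ (Nat.succ_pos _)
      have h3 : q = (Γ + 1) + K * (Γ + 1) + M * (Γ + 1) + p * (Γ + 1) := by
        rw [hq]
        ring
      omega
    have hKq : (K + (t + 3) * (1 + K + M + p) + 2 * (M + p) + 1) * (Γ + 1) =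
        K * (Γ + 1) + (t + 3) * q + (2 * (M + p) + 1) * (Γ + 1) := by
      rw [hq]
      ring
    have hreq : (t + 3) * (Γ + K * (Γ + 1) + M + P.card) ≤ R := by
      have h1 : (t + 3) * (Γ + K * (Γ + 1) + M + P.card) ≤ (t + 3) * q :=
        Nat.mul_le_mul_left _ hlin
      rw [hKq] at hR
      omega
    obtain ⟨D', y, hDD', hD'd, hD'c, hyD', hyP, hyZ, hynb, hcase⟩ :=
      h V G P B C D Z t N₂ M v Γ R (K * (Γ + 1)) hBP hCB hht hZ htM hN hZc hhom
        (fun z hz => (hZn z hz).1) hBD hDd hDc (fun w hw z hz => D1_iff hD1 w hw z hz) hreq hOut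
    have hD'c' : (D' \ D).card ≤ t * q := hD'c.trans (Nat.mul_le_mul_left _ hlin)
    have hyD : y ∉ D := fun hh => hyD' (hDD' hh)
    have hyB : y ∉ B := fun hh => hyD (hBD hh)
    have hPz : (nb G y ∩ P).card ≤ p := (card_le_card inter_subset_right).trans hP
    -- size of the missing part
    obtain ⟨C', hC'⟩ : ∃ C' : Finset V, C' = C \ (D' ∪ Z ∪ P) := ⟨_, rfl⟩
    rw [← hC'] at hcase
    have hmiss : (C' \ nb G y).card ≤ M + p := by
      rcases hcase with ⟨_, h1⟩ | ⟨_, h1⟩
      · omega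
      · omega
    have hv1 : y ∈ C → v + 2 ≤ M + (nb G y ∩ P).card := by
      intro hyC
      rcases hcase with ⟨_, h1⟩ | ⟨h1, _⟩
      · have h2 : y ∈ C' \ nb G y := by
          rw [mem_sdiff, hC', mem_sdiff, mem_union, mem_union]
          refine ⟨⟨hyC, ?_⟩, not_mem_nb_self⟩
          rintro ((h3 | h3) | h3)
          · exact hyD' h3
          · exact hyZ h3
          · exact hyP h3
        have h3 : 0 < (C' \ nb G y).card := card_pos.2 ⟨y, h2⟩
        omega
      · exact absurd hyC h1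
    have hv2 : y ∉ C → v + 1 ≤ (nb G y ∩ P).card := by
      intro hyC
      rcases hcase with ⟨h1, _⟩ | ⟨_, h1⟩
      · exact absurd h1 hyC
      · omega
    -- sizes
    have hD'B : (D' \ B).card ≤ K * (Γ + 1) + t * q := by
      have h1 : D' \ B ⊆ (D \ B) ∪ (D' \ D) := by
        intro w hw
        rw [mem_sdiff] at hw
        rw [mem_union, mem_sdiff, mem_sdiff]
        by_cases hwD : w ∈ D
        · exact Or.inl ⟨hwD, hw.2⟩
        · exact Or.inr ⟨hw.1, hwD⟩
      have h2 := (card_le_card h1).trans (card_union_le _ _)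
      omega
    obtain ⟨D'', hD''⟩ : ∃ D'' : Finset V, D'' = D' ∪ ({y} ∪ (C' \ nb G y)) := ⟨_, rfl⟩
    have hD'D'' : D' ⊆ D'' := by
      rw [hD'']
      exact subset_union_left
    have hmem'' : ∀ w, w ∈ D'' ↔ w ∈ D' ∨ w = y ∨ (w ∈ C' ∧ w ∉ nb G y) := by
      intro w
      rw [hD'', mem_union, mem_union, mem_singleton, mem_sdiff]
    have hbig : (2 * (M + p) + 1) ≤ (2 * (M + p) + 1) * (Γ + 1) :=
      Nat.le_mul_of_pos_right _ (Nat.succ_pos _)
    have htq : t * q + 3 * q = (t + 3) * q := by ring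
    refine ⟨D'', insert y Y, (hD1.trans hDD').trans hD'D'', ?_, ?_, ?_, ?_, ?_, ?_, ?_, ?_, ?_, ?_⟩
    · rw [disjoint_left]
      intro w hw hw'
      rw [mem_sdiff, hmem''] at hw
      obtain ⟨h1 | h1 | h1, h2⟩ := hw
      · by_cases hwD : w ∈ D
        · exact disjoint_left.1 hDd (mem_sdiff.2 ⟨hwD, h2⟩) hw'
        · exact disjoint_left.1 hD'd (mem_sdiff.2 ⟨h1, hwD⟩) hw'
      · rw [h1, mem_union] at hw'
        rcases hw' with h3 | h3
        · exact hyZ h3
        · exact hyP h3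
      · rw [hC', mem_sdiff, mem_union, mem_union, not_or, not_or] at h1
        rw [mem_union] at hw'
        rcases hw' with h3 | h3
        · exact h1.1.2.1.2 h3
        · exact h1.1.2.2 h3
    · have h1 : D'' \ B ⊆ (D' \ B) ∪ ({y} ∪ (C' \ nb G y)) := by
        intro w hw
        rw [mem_sdiff, hmem''] at hw
        rw [mem_union, mem_sdiff, mem_union, mem_singleton, mem_sdiff]
        rcases hw with ⟨h1 | h1 | h1, h2⟩
        · exact Or.inl ⟨h1, h2⟩
        · exact Or.inr (Or.inl h1)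
        · exact Or.inr (Or.inr h1)
      have h2 := (card_le_card h1).trans (card_union_le _ _)
      have h3 := card_union_le {y} (C' \ nb G y)
      rw [card_singleton] at h3
      rw [hKq]
      omega
    · intro w hw
      rw [mem_insert] at hw
      rw [hmem'']
      rcases hw with rfl | hw
      · exact Or.inr (Or.inl rfl)
      · exact Or.inl (hDD' (hYD hw))
    · rw [card_insert_of_notMem (fun hh => hyD (hYD hh)), hYc]
    · intro w hw
      rw [mem_insert] at hw
      rcases hw with rfl | hw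
      · exact mem_cp.2 ⟨hyB, hyP⟩
      · exact hYcp hw
    · intro w hw
      rw [mem_insert] at hw
      rcases hw with rfl | hw
      · constructor
        · have h1 : C \ nb G w ⊆ (C' \ nb G w) ∪ ((D' \ B) ∪ (Z ∪ P)) := by
            intro x hx
            rw [mem_sdiff] at hx
            rw [mem_union, mem_sdiff, hC', mem_sdiff, mem_union, mem_union, mem_union, mem_sdiff,
              mem_union]
            have hxB : x ∉ B := fun hh => disjoint_left.1 hCB hx.1 hh
            by_cases hxD : (x ∈ D' ∨ x ∈ Z) ∨ x ∈ P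
            · right
              rcases hxD with (h2 | h2) | h2
              · exact Or.inl ⟨h2, hxB⟩
              · exact Or.inr (Or.inl h2)
              · exact Or.inr (Or.inr h2)
            · exact Or.inl ⟨⟨hx.1, hxD⟩, hx.2⟩
          have h2 := (card_le_card h1).trans (card_union_le _ _)
          have h3 := card_union_le (D' \ B) (Z ∪ P)
          have h4 := card_union_le Z P
          rw [hKq]
          omega
        · have h1 : nb G w \ (B ∪ C) ⊆ (D' \ B) ∪ (Z ∪ P) := by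
            intro x hx
            rw [mem_sdiff, mem_union, not_or] at hx
            have h2 := hynb hx.1
            rw [mem_union, mem_union, mem_union] at h2
            rw [mem_union, mem_sdiff, mem_union]
            rcases h2 with ((h2 | h2) | h2) | h2
            · exact Or.inl ⟨h2, hx.2.1⟩
            · exact Or.inr (Or.inl h2)
            · exact Or.inr (Or.inr h2)
            · exact absurd h2 hx.2.2
          have h2 := (card_le_card h1).trans (card_union_le _ _)
          have h4 := card_union_le Z P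
          rw [hKq]
          omega
      · have h1 := hY1 w hw
        exact ⟨h1.1.trans hmono, h1.2.trans hmono⟩
    · intro w hw
      rw [mem_insert] at hw
      rcases hw with rfl | hw
      · exact hv1
      · exact hY2 w hw
    · intro w hw
      rw [mem_insert] at hw
      rcases hw with rfl | hw
      · exact hv2
      · exact hY3 w hw
    · have hyadj : y ∈ C → ∀ y' ∈ Y, y' ∈ C → G.Adj y' y := by
        intro hyC y' hy' hy'C
        have h1 : y ∈ nb G y' := hY5 y' hy' hy'C (by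
          rw [mem_sdiff, mem_union, mem_union]
          refine ⟨hyC, ?_⟩
          rintro ((h3 | h3) | h3)
          · exact hyD h3
          · exact hyZ h3
          · exact hyP h3)
        exact mem_nb.1 h1
      intro w hw w' hw' hwC hw'C hne
      rw [mem_insert] at hw hw'
      rcases hw with rfl | hw
      · rcases hw' with rfl | hw'
        · exact absurd rfl hne
        · exact (hyadj hwC w' hw' hw'C).symm
      · rcases hw' with rfl | hw'
        · exact hyadj hw'C w hw hwC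
        · exact hY4 w hw w' hw' hwC hw'C hne
    · intro w hw hwC x hx
      rw [mem_sdiff, mem_union, mem_union, not_or, not_or, hmem'', not_or, not_or] at hx
      rw [mem_insert] at hw
      rcases hw with rfl | hw
      · by_contra hxn
        apply hx.2.1.1.2.2
        refine ⟨?_, hxn⟩
        rw [hC', mem_sdiff, mem_union, mem_union]
        refine ⟨hx.1, ?_⟩
        rintro ((h3 | h3) | h3)
        · exact hx.2.1.1.1 h3
        · exact hx.2.1.2 h3
        · exact hx.2.2 h3
      · apply hY5 w hw hwC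
        rw [mem_sdiff, mem_union, mem_union]
        refine ⟨hx.1, ?_⟩
        rintro ((h3 | h3) | h3)
        · exact hx.2.1.1.1 (hDD' h3)
        · exact hx.2.1.2 h3
        · exact hx.2.2 h3

end R2

theorem t_r2 (h : S_R1) : S_R2 := by
  intro t p N₂ M N₁ ht hN
  obtain ⟨K, hK⟩ := R2.step h t p N₂ M ht hN N₁
  refine ⟨K, ?_⟩
  intro V _ _ G _ P B C Z v Γ R hP hBP hCB hht hZ hZc hZn hhom hR hOut
  obtain ⟨D, Y, _, _, _, _, h1, h2, h3, h4, h5, h6, _⟩ :=
    hK V G P B C Z v Γ R hP hBP hCB hht hZ hZc hZn hhom hR hOut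
  exact ⟨Y, h1, h2, h3, h4, h5, h6⟩

end Pool.Agent.W118.CY
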