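import Pool.Agent.W118.CY.Basic2

/-! Project CY (helper118), task CY-RM (helper577): Ramsey. -/

set_option autoImplicit false

namespace Pool.Agent.W118.CY

open Finset

namespace RMaux

theorem ram (a b : ℕ) : ∃ N : ℕ, ∀ (V : Type) [DecidableEq V] (G : SimpleGraph V)
    [DecidableRel G.Adj] (Y : Finset V), N ≤ Y.card →
    (∃ Z ⊆ Y, Z.card = a ∧ ∀ z ∈ Z, ∀ z' ∈ Z, z ≠ z' → G.Adj z z') ∨
    (∃ Z ⊆ Y, Z.card = b ∧ ∀ z ∈ Z, ∀ z' ∈ Z, ¬ G.Adj z z') := by
  induction a generalizing b with
  | zero => exact ⟨0, fun V _ G _ Y _ => Or.inl ⟨∅, empty_subset _, rfl, by simp⟩⟩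
  | succ a iha =>
    induction b with
    | zero => exact ⟨0, fun V _ G _ Y _ => Or.inr ⟨∅, empty_subset _, rfl, by simp⟩⟩
    | succ b ihb =>
      obtain ⟨N₁, h₁⟩ := iha (b + 1)
      obtain ⟨N₂, h₂⟩ := ihb
      refine ⟨N₁ + N₂ + 1, ?_⟩
      intro V _ G _ Y hY
      have hne : Y.Nonempty := by
        rw [← card_pos]
        omega
      obtain ⟨y, hy⟩ := hne
      have hsplit := card_filter_add_card_filter_not (s := Y.erase y) (fun z => G.Adj y z)
      rw [card_erase_of_mem hy] at hsplit
      by_cases hc : N₁ ≤ ((Y.erase y).filter fun z => G.Adj y z).card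
      · rcases h₁ V G _ hc with ⟨Z, hZ, hcard, hZc⟩ | ⟨Z, hZ, hcard, hZc⟩
        · left
          have hyZ : y ∉ Z := by
            intro h
            have := (mem_filter.1 (hZ h)).1
            exact notMem_erase y Y this
          refine ⟨insert y Z, ?_, by rw [card_insert_of_notMem hyZ, hcard], ?_⟩
          · intro z hz
            rcases mem_insert.1 hz with h | h
            · rw [h]
              exact hy
            · exact mem_of_mem_erase (mem_filter.1 (hZ h)).1
          · intro z hz z' hz' hne
            rcases mem_insert.1 hz with h | h <;> rcases mem_insert.1 hz' with h' | h'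
            · exact absurd (h.trans h'.symm) hne
            · rw [h]
              exact (mem_filter.1 (hZ h')).2
            · rw [h']
              exact ((mem_filter.1 (hZ h)).2).symm
            · exact hZc z h z' h' hne
        · right
          exact ⟨Z, hZ.trans ((filter_subset _ _).trans (erase_subset _ _)), hcard, hZc⟩
      · have hc' : N₂ ≤ ((Y.erase y).filter fun z => ¬ G.Adj y z).card := by omega
        rcases h₂ V G _ hc' with ⟨Z, hZ, hcard, hZc⟩ | ⟨Z, hZ, hcard, hZc⟩
        · left
          exact ⟨Z, hZ.trans ((filter_subset _ _).trans (erase_subset _ _)), hcard, hZc⟩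
        · right
          have hyZ : y ∉ Z := by
            intro h
            have := (mem_filter.1 (hZ h)).1
            exact notMem_erase y Y this
          refine ⟨insert y Z, ?_, by rw [card_insert_of_notMem hyZ, hcard], ?_⟩
          · intro z hz
            rcases mem_insert.1 hz with h | h
            · rw [h]
              exact hy
            · exact mem_of_mem_erase (mem_filter.1 (hZ h)).1
          · intro z hz z' hz'
            rcases mem_insert.1 hz with h | h <;> rcases mem_insert.1 hz' with h' | h'
            · rw [h, h']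
              exact G.loopless.irrefl y
            · rw [h]
              exact (mem_filter.1 (hZ h')).2
            · rw [h']
              exact fun e => (mem_filter.1 (hZ h)).2 e.symm
            · exact hZc z h z' h'

end RMaux

theorem t_rm : S_RM := by
  intro M p
  obtain ⟨N, hN⟩ := RMaux.ram M M
  refine ⟨(p + 1) * N, ?_⟩
  intro V _ _ G _ P Y hP hY
  have hmap : ∀ y ∈ Y, (nb G y ∩ P).card ∈ range (p + 1) := by
    intro y _
    rw [mem_range]
    exact Nat.lt_succ_of_le ((card_le_card inter_subset_right).trans hP)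
  obtain ⟨c, _, hc⟩ := exists_le_card_fiber_of_mul_le_card_of_maps_to hmap
    ⟨0, mem_range.2 (Nat.succ_pos p)⟩ (by rw [card_range]; exact hY)
  rcases hN V G _ hc with ⟨Z, hZ, hcard, hZc⟩ | ⟨Z, hZ, hcard, hZc⟩
  · refine ⟨Z, hZ.trans (filter_subset _ _), hcard, c + (M - 1), Or.inl ⟨hZc, ?_⟩⟩
    intro z hz
    rw [(mem_filter.1 (hZ hz)).2, hcard]
  · refine ⟨Z, hZ.trans (filter_subset _ _), hcard, c, Or.inr ⟨hZc, ?_⟩⟩
    intro z hz
    exact (mem_filter.1 (hZ hz)).2

end Pool.Agent.W118.CY
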