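import Pool.Agent.W118.CY.Basic

/-! Caro-Yuster problem (MP_7c5d5d_co): the statements of the parts of the proof. -/

set_option autoImplicit false

namespace Pool.Agent.W118.CY

open Finset

section

variable {V : Type} [Fintype V] [DecidableEq V]

/-- all vertices of `Z` have the same number of neighbours in `P ∪ Z` -/
def reg (G : SimpleGraph V) [DecidableRel G.Adj] (P Z : Finset V) : Prop :=
  ∀ z ∈ Z, ∀ z' ∈ Z, (nb G z ∩ (P ∪ Z)).card = (nb G z' ∩ (P ∪ Z)).card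

/-- `Z` is a clique or independent, and every vertex of `Z` has exactly `v` neighbours in `P ∪ Z` -/
def hom (G : SimpleGraph V) [DecidableRel G.Adj] (P Z : Finset V) (v : ℕ) : Prop :=
  ((∀ z ∈ Z, ∀ z' ∈ Z, z ≠ z' → G.Adj z z') ∧ ∀ z ∈ Z, (nb G z ∩ P).card + (Z.card - 1) = v) ∨
  ((∀ z ∈ Z, ∀ z' ∈ Z, ¬ G.Adj z z') ∧ ∀ z ∈ Z, (nb G z ∩ P).card = v)

/-- the common neighbours of the vertices of maximum degree -/
def core (G : SimpleGraph V) [DecidableRel G.Adj] (P B : Finset V) : Finset V :=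
  com G (top G P B) \ B

end

/-- the statement proved by induction on `t` -/
def Claim (t : ℕ) : Prop :=
  ∀ p N₂ : ℕ, ∃ N K : ℕ, ∀ (V : Type) [Fintype V] [DecidableEq V] (G : SimpleGraph V)
    [DecidableRel G.Adj] (P B : Finset V) (r L : ℕ),
    P.card ≤ p → Disjoint B P → Fintype.card V ≤ 2 ^ L → N ≤ (near G P B r).card →
    Out G P B t N₂ (K * (r + L + 1))

/-- zero sum lemma -/
def S_ZS : Prop :=
  ∀ d b : ℕ, ∃ c : ℕ, ∀ (ι : Type) [DecidableEq ι] (F : Finset ι) (w : ι → Fin d → ℤ) (ρ : ℕ),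
    (∀ i ∈ F, ∀ j, |w i j| ≤ b) → (∀ j, |∑ i ∈ F, w i j| ≤ ρ) → c * (ρ + 1) < F.card →
    ∃ B ⊆ F, B.Nonempty ∧ ∀ j, ∑ i ∈ B, w i j = 0

/-- making the degrees of a regular set equal -/
def S_TIE : Prop :=
  ∀ M : ℕ, ∃ c : ℕ, ∀ (V : Type) [Fintype V] [DecidableEq V] (G : SimpleGraph V)
    [DecidableRel G.Adj] (P D Z : Finset V) (ρ : ℕ),
    Z.card = M → Disjoint Z D → Disjoint D P → reg G P Z →
    (∀ z ∈ Z, ∀ z' ∈ Z, lev G D z ≤ lev G D z' + ρ) →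
    ∃ D' : Finset V, D ⊆ D' ∧ Disjoint (D' \ D) (Z ∪ P) ∧ (D' \ D).card ≤ c * (ρ + 1) ∧
      ∀ z ∈ Z, ∀ z' ∈ Z, lev G D' z = lev G D' z'

/-- lowering the maximum degree without touching the degrees in `Z` -/
def S_TL : Prop :=
  ∀ (V : Type) [Fintype V] [DecidableEq V] (G : SimpleGraph V) [DecidableRel G.Adj]
    (P D Z A : Finset V) (l t : ℕ),
    (∀ z ∈ Z, z ∉ D ∧ z ∉ P ∧ lev G D z ≤ l) → (∃ z ∈ Z, lev G D z = l) → Disjoint D P →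
    (∀ D' : Finset V, D ⊆ D' → Disjoint (D' \ D) (Z ∪ P ∪ nbU G Z) →
      (D' \ D).card ≤ t * (ht G P D - l) → (top G P D').card ≤ t) →
    ∃ D' : Finset V, D ⊆ D' ∧ Disjoint (D' \ D) (Z ∪ P ∪ A ∪ nbU G Z) ∧
      (D' \ D).card ≤ t * (ht G P D - l) ∧ l ≤ ht G P D' ∧
      (ht G P D' = l ∨ ∃ y ∈ top G P D', nb G y ⊆ D' ∪ Z ∪ P ∪ A ∪ nbU G Z)

/-- Ramsey -/
def S_RM : Prop :=
  ∀ M p : ℕ, ∃ N : ℕ, ∀ (V : Type) [Fintype V] [DecidableEq V] (G : SimpleGraph V)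
    [DecidableRel G.Adj] (P Y : Finset V), P.card ≤ p → N ≤ Y.card →
    ∃ Z ⊆ Y, Z.card = M ∧ ∃ v, hom G P Z v

/-- averaging -/
def S_AV : Prop :=
  ∀ m q : ℕ, ∃ N e : ℕ, 0 < e ∧ ∀ (V : Type) [Fintype V] [DecidableEq V] (G : SimpleGraph V)
    [DecidableRel G.Adj] (W Y : Finset V), Y.card = N →
    (∀ y ∈ Y, W.card ≤ q * (W \ nb G y).card) →
    ∃ Z ⊆ Y, Z.card = m ∧ W.card ≤ e * (W \ nbU G Z).card

/-- many near competitors with neighbourhoods in the union of the neighbourhoods of `Z` -/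
def S_AP : Prop :=
  ∀ t p N₂ M N₀ : ℕ, t + 1 ≤ M → N₂ ≤ M → ∃ K : ℕ, ∀ (V : Type) [Fintype V] [DecidableEq V]
    (G : SimpleGraph V) [DecidableRel G.Adj] (P B Z : Finset V) (ρ R : ℕ),
    P.card ≤ p → Disjoint B P → Z.card = M → Z ⊆ near G P B ρ → reg G P Z →
    K * (ρ + 1) ≤ R → ¬ Out G P B (t + 1) N₂ R →
    ∃ Y : Finset V, Y.card = N₀ ∧ Y ⊆ near G P B (K * (ρ + 1)) ∧
      ∀ y ∈ Y, (nb G y \ (B ∪ nbU G Z)).card ≤ K * (ρ + 1)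

/-- the union of the neighbourhoods of a regular set can be made smaller by a constant factor -/
def S_AS : Prop :=
  ∀ t p N₂ M q c₀ : ℕ, t + 1 ≤ M → N₂ ≤ M → 1 ≤ q → ∃ e K : ℕ, 0 < e ∧ ∀ (V : Type) [Fintype V]
    [DecidableEq V] (G : SimpleGraph V) [DecidableRel G.Adj] (P B C Z : Finset V) (g ρ R : ℕ),
    P.card ≤ p → Disjoint B P → Disjoint C B → ht G P B = C.card + g →
    (∀ s, s ≤ K * (ρ + 1) → ∀ y ∈ near G P B s, (C \ nb G y).card ≤ s + c₀) →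
    Z.card = M → Z ⊆ near G P B ρ → reg G P Z →
    K * (ρ + 1) ≤ R → K * (ρ + 1) ≤ g → ¬ Out G P B (t + 1) N₂ R →
    (2 * q + 1) * g < 2 * q * (nbU G Z \ (B ∪ C)).card →
    ∃ Z' : Finset V, Z'.card = M ∧ Z' ⊆ near G P B (K * (ρ + 1)) ∧ reg G P Z' ∧
      2 * e * (nbU G Z' \ (B ∪ C)).card ≤ (2 * e - 1) * (nbU G Z \ (B ∪ C)).card

/-- there are `m` near competitors with almost equal neighbourhoods -/
def S_A : Prop :=
  ∀ t p N₂ m q : ℕ, 1 ≤ t → 1 ≤ q → ∃ N K : ℕ, ∀ (V : Type) [Fintype V] [DecidableEq V]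
    (G : SimpleGraph V) [DecidableRel G.Adj] (P B : Finset V) (r R : ℕ),
    P.card ≤ p → Disjoint B P → (top G P B).card = t → N ≤ (near G P B r).card →
    K * (r + 1) ≤ R → (core G P B).card + K * (r + 1) ≤ ht G P B →
    ¬ Out G P B (t + 1) N₂ R →
    ∃ Z : Finset V, Z.card = m ∧ Z ⊆ near G P B (K * (r + 1)) ∧
      q * (nbU G Z \ (B ∪ core G P B)).card ≤ (q + 1) * (ht G P B - (core G P B).card)

/-- counting lemma for random subsets -/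
def S_SM0 : Prop :=
  ∀ (V : Type) [DecidableEq V] (U : Finset V) (x : ℕ) (I : Type) [Fintype I] (E : I → Finset V)
    (j : I → ℕ), x ≤ U.card → (∀ i, E i ⊆ U) →
    (∀ i, Fintype.card I * 2 ^ x * (E i).card ^ (j i) < U.card ^ (j i)) →
    ∃ X ⊆ U, X.card = x ∧ ∀ i, (X ∩ E i).card < j i

/-- a small set `X` which represents `U` -/
def S_SM : Prop :=
  ∀ t u : ℕ, 1 ≤ t → 1 ≤ u → ∀ (V : Type) [Fintype V] [DecidableEq V] (G : SimpleGraph V)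
    [DecidableRel G.Adj] (U : Finset V) (x L : ℕ), Fintype.card V ≤ 2 ^ L → 10 * u ∣ x →
    t * L + 1 ≤ x → x ≤ U.card →
    ∃ X ⊆ U, X.card = x ∧
      (∀ y : V, 2 ^ (3 * u) * (U \ nb G y).card ≤ U.card → (X \ nb G y).card < x / u) ∧
      (∀ A : Finset V, A.card = t → 16 * (U ∩ com G A).card ≤ U.card →
        10 * (X ∩ com G A).card < 9 * x)

/-- one step of the collection of near twins of `C` -/
def S_R1 : Prop :=
  ∀ (V : Type) [Fintype V] [DecidableEq V] (G : SimpleGraph V) [DecidableRel G.Adj]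
    (P B C D Z : Finset V) (t N₂ M v Γ R a : ℕ),
    Disjoint B P → Disjoint C B → ht G P B ≤ C.card + Γ → Z.card = M → t + 1 ≤ M → N₂ ≤ M →
    Z ⊆ cp P B → hom G P Z v → (∀ z ∈ Z, (C \ nb G z).card ≤ Γ) →
    B ⊆ D → Disjoint (D \ B) (Z ∪ P) → (D \ B).card ≤ a →
    (∀ w, w ∉ D ∪ Z ∪ P → ∀ z ∈ Z, (w ∈ C ↔ G.Adj z w)) →
    (t + 3) * (Γ + a + M + P.card) ≤ R → ¬ Out G P B (t + 1) N₂ R →
    ∃ (D' : Finset V) (y : V), D ⊆ D' ∧ Disjoint (D' \ D) (Z ∪ P) ∧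
      (D' \ D).card ≤ t * (Γ + a + M + P.card) ∧ y ∉ D' ∧ y ∉ P ∧ y ∉ Z ∧
      nb G y ⊆ D' ∪ Z ∪ P ∪ C ∧
      ((y ∈ C ∧ ((C \ (D' ∪ Z ∪ P)) \ nb G y).card + v + 1 ≤ M + (nb G y ∩ P).card) ∨
        (y ∉ C ∧ ((C \ (D' ∪ Z ∪ P)) \ nb G y).card + v + 1 ≤ (nb G y ∩ P).card))

/-- the collection of near twins of `C` -/
def S_R2 : Prop :=
  ∀ t p N₂ M N₁ : ℕ, t + 1 ≤ M → N₂ ≤ M → ∃ K : ℕ, ∀ (V : Type) [Fintype V] [DecidableEq V]
    (G : SimpleGraph V) [DecidableRel G.Adj] (P B C Z : Finset V) (v Γ R : ℕ),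
    P.card ≤ p → Disjoint B P → Disjoint C B → ht G P B ≤ C.card + Γ → Z.card = M →
    Z ⊆ cp P B → (∀ z ∈ Z, (C \ nb G z).card ≤ Γ ∧ (nb G z \ (B ∪ C)).card ≤ Γ) →
    hom G P Z v → K * (Γ + 1) ≤ R → ¬ Out G P B (t + 1) N₂ R →
    ∃ Y : Finset V, Y.card = N₁ ∧ Y ⊆ cp P B ∧
      (∀ y ∈ Y, (C \ nb G y).card ≤ K * (Γ + 1) ∧ (nb G y \ (B ∪ C)).card ≤ K * (Γ + 1)) ∧
      (∀ y ∈ Y, y ∈ C → v + 2 ≤ M + (nb G y ∩ P).card) ∧
      (∀ y ∈ Y, y ∉ C → v + 1 ≤ (nb G y ∩ P).card) ∧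
      (∀ y ∈ Y, ∀ y' ∈ Y, y ∈ C → y' ∈ C → y ≠ y' → G.Adj y y')

/-- the case when the competitors are near twins -/
def S_SG : Prop :=
  ∀ t p N₂ : ℕ, 1 ≤ t → ∃ N K : ℕ, ∀ (V : Type) [Fintype V] [DecidableEq V]
    (G : SimpleGraph V) [DecidableRel G.Adj] (P B : Finset V) (r Γ : ℕ),
    P.card ≤ p → Disjoint B P → (top G P B).card = t → N ≤ (near G P B r).card →
    ht G P B ≤ (core G P B).card + Γ → Out G P B (t + 1) N₂ (K * (r + Γ + 1))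

/-- the far vertex `a₀` of maximum degree and the set `U` -/
def S_F1 : Prop :=
  ∀ (V : Type) [Fintype V] [DecidableEq V] (G : SimpleGraph V) [DecidableRel G.Adj]
    (P B Z : Finset V) (t m q ρ g : ℕ),
    1 ≤ t → 1 ≤ m → (top G P B).card = t → Disjoint B P → Z.card = m → Z ⊆ near G P B ρ →
    ht G P B = (core G P B).card + g →
    q * (nbU G Z \ (B ∪ core G P B)).card ≤ (q + 1) * g →
    16 * t * m ≤ q → 16 * t * (m + 1) * (ρ + P.card + 2) ≤ g →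
    ∃ a₀ ∈ top G P B, a₀ ∉ Z ∧ ∃ U : Finset V, U ⊆ com G Z ∧
      Disjoint U (B ∪ P ∪ {a₀} ∪ nb G a₀) ∧ g ≤ 4 * t * U.card ∧
      g ≤ 8 * t * (nb G a₀ \ (B ∪ nbU G Z)).card ∧
      q * (nbU G Z \ B).card ≤ q * ht G P B + g

/-- lowering all competitors which are not adjacent to most of `X` -/
def S_F2 : Prop :=
  ∀ (V : Type) [Fintype V] [DecidableEq V] (G : SimpleGraph V) [DecidableRel G.Adj]
    (P B Z U X E : Finset V) (a₀ : V) (t N₂ ρ x u w R : ℕ),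
    Disjoint B P → Z ⊆ near G P B ρ → N₂ ≤ Z.card → Z.Nonempty → a₀ ∉ B → a₀ ∉ Z →
    (nbU G Z \ B).card ≤ ht G P B + w →
    U ⊆ com G Z → Disjoint U (B ∪ P ∪ {a₀}) →
    Disjoint E (B ∪ Z ∪ P ∪ {a₀} ∪ nbU G Z) → X ⊆ U → X.card = x →
    (∀ y, 2 ^ (3 * u) * (U \ nb G y).card ≤ U.card → (X \ nb G y).card < x / u) →
    E.card + (t + 2) * (ρ + x) + Z.card + P.card + 1 ≤ R →
    2 ^ (3 * u) * (w + E.card + (t + 2) * (ρ + x) + Z.card + P.card + 1) ≤ U.card →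
    ¬ Out G P B (t + 1) N₂ R →
    ∃ E' : Finset V, E ⊆ E' ∧ Disjoint E' (B ∪ Z ∪ P ∪ {a₀} ∪ nbU G Z) ∧
      E'.card ≤ E.card + t * (ρ + x) ∧
      ∀ v, v ∉ B ∪ E' ∪ X → v ∉ P → lev G (B ∪ E' ∪ X) v + x ≤ ht G P B + x / u

/-- `k` disjoint samples -/
def S_F4 : Prop :=
  ∀ k : ℕ, ∀ (V : Type) [Fintype V] [DecidableEq V] (G : SimpleGraph V) [DecidableRel G.Adj]
    (P B Z U : Finset V) (a₀ : V) (t N₂ ρ x u w L R : ℕ),
    1 ≤ t → 1 ≤ u →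
    Disjoint B P → Z ⊆ near G P B ρ → N₂ ≤ Z.card → Z.Nonempty → a₀ ∉ B → a₀ ∉ Z →
    Fintype.card V ≤ 2 ^ L → 10 * u ∣ x → t * L + 1 ≤ x →
    (nbU G Z \ B).card ≤ ht G P B + w → U ⊆ com G Z → Disjoint U (B ∪ P ∪ {a₀}) →
    (k + 1) * (t + 2) * (ρ + x) + Z.card + P.card + 1 ≤ R →
    2 * 2 ^ (3 * u) * (w + (k + 1) * (t + 2) * (ρ + x) + Z.card + P.card + 1) ≤ U.card →
    ¬ Out G P B (t + 1) N₂ R →
    ∃ (E : Finset V) (U' X : Fin k → Finset V), E.card ≤ k * (t * (ρ + x)) ∧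
      Disjoint E (B ∪ Z ∪ P ∪ {a₀} ∪ nbU G Z) ∧
      (∀ i, X i ⊆ U' i ∧ (X i).card = x ∧ U' i ⊆ U ∧ U.card ≤ 2 * (U' i).card) ∧
      (∀ i j, i ≠ j → Disjoint (X i) (X j)) ∧
      (∀ i, ∀ A : Finset V, A.card = t → 16 * (U' i ∩ com G A).card ≤ (U' i).card →
        10 * (X i ∩ com G A).card < 9 * x) ∧
      (∀ i v, v ∉ B ∪ E ∪ X i → v ∉ P → lev G (B ∪ E ∪ X i) v + x ≤ ht G P B + x / u)

/-- the last part of the induction step -/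
def S_F3 : Prop :=
  ∀ t p N₂ Nt Kt : ℕ, 1 ≤ t →
    (∀ (V : Type) [Fintype V] [DecidableEq V] (G : SimpleGraph V) [DecidableRel G.Adj]
      (P B : Finset V) (r L : ℕ), P.card ≤ p + 1 → Disjoint B P → Fintype.card V ≤ 2 ^ L →
      Nt ≤ (near G P B r).card → Out G P B t N₂ (Kt * (r + L + 1))) →
    ∀ (V : Type) [Fintype V] [DecidableEq V] (G : SimpleGraph V) [DecidableRel G.Adj]
      (P B Z E : Finset V) (a₀ : V) (U X : Fin (t + 1) → Finset V) (ρ L x σ R : ℕ),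
      P.card ≤ p → Disjoint B P → Fintype.card V ≤ 2 ^ L → σ = Kt * (ρ + L + 1) →
      (top G P B).card = t → a₀ ∈ top G P B → Z ⊆ near G P B ρ → Nt ≤ Z.card → Z.Nonempty →
      a₀ ∉ Z → Disjoint E (B ∪ Z ∪ P ∪ {a₀} ∪ nbU G Z) →
      (∀ i, X i ⊆ U i ∧ (X i).card = x ∧ U i ⊆ com G Z ∧
        Disjoint (U i) (B ∪ P ∪ {a₀} ∪ nb G a₀)) →
      (∀ i j, i ≠ j → Disjoint (X i) (X j)) →
      (∀ i, ∀ A : Finset V, A.card = t → 16 * (U i ∩ com G A).card ≤ (U i).card →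
        10 * (X i ∩ com G A).card < 9 * x) →
      (∀ i v, v ∉ B ∪ E ∪ X i → v ∉ P →
        lev G (B ∪ E ∪ X i) v + x ≤ ht G P B + x / (20 * t)) →
      20 * t * (ρ + σ) ≤ x →
      E.card + Z.card + P.card + (ρ + σ + 1) ≤ (nb G a₀ \ (B ∪ nbU G Z)).card →
      (∀ i, 16 * (2 * (E.card + ρ + 2 * σ + 1) + N₂) ≤ (U i).card) →
      2 * (E.card + ρ + 2 * σ + 1) ≤ R → Out G P B (t + 1) N₂ R

/-- the case of a large core distance -/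
def S_FIN : Prop :=
  ∀ t : ℕ, 1 ≤ t → Claim t → ∀ p N₂ : ℕ, ∃ m q K : ℕ, 1 ≤ q ∧ ∀ (V : Type) [Fintype V]
    [DecidableEq V] (G : SimpleGraph V) [DecidableRel G.Adj] (P B Z : Finset V) (ρ L : ℕ),
    P.card ≤ p → Disjoint B P → Fintype.card V ≤ 2 ^ L → (top G P B).card = t → Z.card = m →
    Z ⊆ near G P B ρ →
    q * (nbU G Z \ (B ∪ core G P B)).card ≤ (q + 1) * (ht G P B - (core G P B).card) →
    (core G P B).card + K * (ρ + L + 1) ≤ ht G P B → Out G P B (t + 1) N₂ (K * (ρ + L + 1))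

/-- a window with many near competitors -/
def S_WIN : Prop :=
  ∀ (V : Type) [Fintype V] [DecidableEq V] (G : SimpleGraph V) [DecidableRel G.Adj] (N s h : ℕ)
    (D : Finset V), ht G ∅ D ≤ h → D.card + N * (h / (s + 1) + 2) ≤ Fintype.card V →
    ∃ D' : Finset V, D ⊆ D' ∧ (D' \ D).card ≤ N * (h / (s + 1) + 1) ∧ N ≤ (near G ∅ D' s).card

end Pool.Agent.W118.CY
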