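import Pool.Agent.W118.CY.Basic2
import Pool.Agent.W118.CY.Stm

/-! Caro-Yuster problem (MP_7c5d5d_co): a small set which represents a large one. -/

set_option autoImplicit false

namespace Pool.Agent.W118.CY

open Finset

theorem sm_aux {I2 x e n c j s : ℕ} (hI : I2 ≤ 2 ^ s) (he : 2 ^ c * e ≤ n) (hn : 1 ≤ n)
    (hj : 1 ≤ j) (hc : s + x < c * j) : I2 * 2 ^ x * e ^ j < n ^ j := by
  rcases Nat.eq_zero_or_pos e with h0 | h0
  · rw [h0, Nat.zero_pow (by omega), mul_zero]
    exact Nat.pow_pos hn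
  · calc I2 * 2 ^ x * e ^ j ≤ 2 ^ s * 2 ^ x * e ^ j := by gcongr
      _ = 2 ^ (s + x) * e ^ j := by rw [← pow_add]
      _ < 2 ^ (c * j) * e ^ j :=
          Nat.mul_lt_mul_of_pos_right (Nat.pow_lt_pow_right (by norm_num) hc) (Nat.pow_pos h0)
      _ = (2 ^ c * e) ^ j := by rw [mul_pow, pow_mul]
      _ ≤ n ^ j := Nat.pow_le_pow_left he j

theorem t_sm (h : S_SM0) : S_SM := by
  intro t u ht hu V _ _ G _ U x L hV hx hxL hxU
  obtain ⟨y0, hy0⟩ := hx
  have hy1 : 1 ≤ y0 := by
    rcases Nat.eq_zero_or_pos y0 with h0 | h0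
    · rw [h0, mul_zero] at hy0
      omega
    · exact h0
  have hux : x / u = 10 * y0 := by
    rw [hy0]
    have : 10 * u * y0 = u * (10 * y0) := by ring
    rw [this]
    exact Nat.mul_div_cancel_left _ hu
  have huy : 1 ≤ u * y0 := Nat.mul_pos hu hy1
  have hx' : x = 10 * (u * y0) := by rw [hy0]; ring
  have hx9 : 9 * x / 10 = 9 * (u * y0) := by omega
  classical
  have hcard : Fintype.card (V ⊕ {A : Finset V // A.card = t}) ≤ 2 ^ (t * L + 1) := by
    rw [Fintype.card_sum, Fintype.card_finset_len]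
    have h1 : (Fintype.card V).choose t ≤ (Fintype.card V) ^ t := Nat.choose_le_pow _ _
    have h2 : (Fintype.card V) ^ t ≤ 2 ^ (t * L) := by
      calc (Fintype.card V) ^ t ≤ (2 ^ L) ^ t := Nat.pow_le_pow_left hV t
        _ = 2 ^ (t * L) := by rw [← pow_mul, mul_comm]
    have h3 : 2 ^ L ≤ 2 ^ (t * L) := Nat.pow_le_pow_right (by norm_num)
      (Nat.le_mul_of_pos_left _ ht)
    rw [pow_succ]
    omega
  obtain ⟨E, hE⟩ : ∃ E : V ⊕ {A : Finset V // A.card = t} → Finset V, E = fun i =>
    Sum.elim (fun y => if 2 ^ (3 * u) * (U \ nb G y).card ≤ U.card then U \ nb G y else ∅)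
      (fun A => if 16 * (U ∩ com G A.1).card ≤ U.card then U ∩ com G A.1 else ∅) i := ⟨_, rfl⟩
  obtain ⟨j, hj⟩ : ∃ j : V ⊕ {A : Finset V // A.card = t} → ℕ, j = fun i =>
    Sum.elim (fun _ => 10 * y0) (fun _ => 9 * (u * y0)) i := ⟨_, rfl⟩
  obtain ⟨X, hXU, hXc, hX⟩ := h V U x (V ⊕ {A : Finset V // A.card = t}) E j hxU (by
    rintro (y | A)
    · rw [hE]
      simp only [Sum.elim_inl]
      split_ifs
      · exact sdiff_subset
      · exact empty_subset _
    · rw [hE]
      simp only [Sum.elim_inr]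
      split_ifs
      · exact inter_subset_left
      · exact empty_subset _) (by
    rintro (y | A)
    · refine sm_aux (c := 3 * u) hcard ?_ (by omega) ?_ ?_
      · rw [hE]
        simp only [Sum.elim_inl]
        split_ifs with h1
        · exact h1
        · simp
      · rw [hj]
        simp only [Sum.elim_inl]
        omega
      · rw [hj]
        simp only [Sum.elim_inl]
        have : 3 * u * (10 * y0) = 30 * (u * y0) := by ring
        omega
    · refine sm_aux (c := 4) hcard ?_ (by omega) ?_ ?_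
      · rw [hE]
        simp only [Sum.elim_inr]
        split_ifs with h1
        · omega
        · simp
      · rw [hj]
        simp only [Sum.elim_inr]
        omega
      · rw [hj]
        simp only [Sum.elim_inr]
        omega)
  refine ⟨X, hXU, hXc, ?_, ?_⟩
  · intro y hy
    have h1 := hX (Sum.inl y)
    rw [hE, hj] at h1
    simp only [Sum.elim_inl] at h1
    rw [if_pos hy] at h1
    rw [hux]
    refine lt_of_le_of_lt (card_le_card ?_) h1
    intro v hv
    rw [mem_sdiff] at hv
    rw [mem_inter, mem_sdiff]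
    exact ⟨hv.1, hXU hv.1, hv.2⟩
  · intro A hA hA16
    have h1 := hX (Sum.inr ⟨A, hA⟩)
    rw [hE, hj] at h1
    simp only [Sum.elim_inr] at h1
    rw [if_pos hA16] at h1
    have h2 : (X ∩ com G A).card ≤ (X ∩ (U ∩ com G A)).card := by
      refine card_le_card ?_
      intro v hv
      rw [mem_inter] at hv
      rw [mem_inter, mem_inter]
      exact ⟨hv.1, hXU hv.1, hv.2⟩
    omega

end Pool.Agent.W118.CY
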