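import Pool.Agent.W118.CY.Basic2

/-!
Project CY (helper118), frozen S09677 of MP_7c5d5d_co: part CY-SM0 (helper654).
-/

set_option autoImplicit false

open Finset

namespace Pool.Agent.W118.CY

theorem sm0_desc {e u : ℕ} (h : e ≤ u) (j : ℕ) :
    e.descFactorial j * u ^ j ≤ u.descFactorial j * e ^ j := by
  induction j with
  | zero => simp
  | succ j ih =>
    rw [Nat.descFactorial_succ, Nat.descFactorial_succ, pow_succ, pow_succ]
    have h1 : (e - j) * u ≤ (u - j) * e := by
      rcases le_total e j with h2 | h2
      · rw [Nat.sub_eq_zero_of_le h2, zero_mul]; exact Nat.zero_le _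
      · rw [Nat.sub_mul, Nat.sub_mul, mul_comm e u]
        exact Nat.sub_le_sub_left (Nat.mul_le_mul_left j h) _
    calc (e - j) * e.descFactorial j * (u ^ j * u) =
          ((e - j) * u) * (e.descFactorial j * u ^ j) := by ring
      _ ≤ ((u - j) * e) * (u.descFactorial j * e ^ j) := Nat.mul_le_mul h1 ih
      _ = (u - j) * u.descFactorial j * (e ^ j * e) := by ring

theorem sm0_choose {e u : ℕ} (h : e ≤ u) (j : ℕ) :
    e.choose j * u ^ j ≤ u.choose j * e ^ j := by
  have h1 := sm0_desc h j
  rw [Nat.descFactorial_eq_factorial_mul_choose, Nat.descFactorial_eq_factorial_mul_choose,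
    mul_assoc, mul_assoc] at h1
  exact Nat.le_of_mul_le_mul_left h1 (Nat.factorial_pos j)

theorem sm0_bad {V : Type} [DecidableEq V] (U E : Finset V) (x j : ℕ) :
    ((U.powersetCard x).filter (fun X => j ≤ (X ∩ E).card)).card ≤
      E.card.choose j * (U.card - j).choose (x - j) := by
  have h1 : (U.powersetCard x).filter (fun X => j ≤ (X ∩ E).card) ⊆
      (E.powersetCard j).biUnion (fun J => (U.powersetCard x).filter (fun X => J ⊆ X)) := by
    intro X hX
    obtain ⟨hX1, hX2⟩ := Finset.mem_filter.1 hX
    obtain ⟨J, hJ1, hJ2⟩ := Finset.exists_subset_card_eq hX2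
    refine Finset.mem_biUnion.2 ⟨J, Finset.mem_powersetCard.2
      ⟨hJ1.trans Finset.inter_subset_right, hJ2⟩, Finset.mem_filter.2
      ⟨hX1, hJ1.trans Finset.inter_subset_left⟩⟩
  refine (Finset.card_le_card h1).trans ?_
  rw [← Finset.card_powersetCard j E]
  refine Finset.card_biUnion_le_card_mul _ _ _ ?_
  intro J hJ
  have hJc : J.card = j := (Finset.mem_powersetCard.1 hJ).2
  by_cases hJU : J ⊆ U
  · have h2 : (U.powersetCard x).filter (fun X => J ⊆ X) ⊆
        ((U \ J).powersetCard (x - j)).image (fun Y => Y ∪ J) := by
      intro X hX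
      obtain ⟨hX1, hX2⟩ := Finset.mem_filter.1 hX
      obtain ⟨hX3, hX4⟩ := Finset.mem_powersetCard.1 hX1
      refine Finset.mem_image.2 ⟨X \ J, Finset.mem_powersetCard.2
        ⟨Finset.sdiff_subset_sdiff hX3 (Finset.Subset.refl _), ?_⟩,
        Finset.sdiff_union_of_subset hX2⟩
      rw [Finset.card_sdiff_of_subset hX2, hX4, hJc]
    refine (Finset.card_le_card h2).trans (Finset.card_image_le.trans ?_)
    rw [Finset.card_powersetCard, Finset.card_sdiff_of_subset hJU, hJc]
  · have h2 : (U.powersetCard x).filter (fun X => J ⊆ X) = ∅ := by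
      refine Finset.filter_eq_empty_iff.2 fun X hX hJX => hJU ?_
      exact hJX.trans (Finset.mem_powersetCard.1 hX).1
    rw [h2, Finset.card_empty]
    exact Nat.zero_le _

theorem t_sm0 : S_SM0 := by
  intro V _ U x I _ E j hx hE hj
  by_contra hcon
  push Not at hcon
  set u := U.card with hu
  have hcx : 0 < u.choose x := Nat.choose_pos hx
  -- each set of bad subsets is small
  have hbad : ∀ i, Fintype.card I *
      ((U.powersetCard x).filter (fun X => j i ≤ (X ∩ E i).card)).card < u.choose x := by
    intro i
    rcases le_or_gt (j i) x with hji | hji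
    · have hb := sm0_bad U (E i) x (j i)
      have heu : (E i).card ≤ u := Finset.card_le_card (hE i)
      have hcj : 0 < u.choose (j i) := Nat.choose_pos (hji.trans hx)
      have h1 : (((U.powersetCard x).filter (fun X => j i ≤ (X ∩ E i).card)).card *
          u ^ (j i)) * u.choose (j i) ≤
          (u.choose x * 2 ^ x * (E i).card ^ (j i)) * u.choose (j i) := by
        calc (((U.powersetCard x).filter (fun X => j i ≤ (X ∩ E i).card)).card *
              u ^ (j i)) * u.choose (j i) ≤
              ((E i).card.choose (j i) * (u - j i).choose (x - j i) * u ^ (j i)) *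
                u.choose (j i) :=
              Nat.mul_le_mul_right _ (Nat.mul_le_mul_right _ hb)
          _ = (u.choose (j i) * (u - j i).choose (x - j i)) *
                ((E i).card.choose (j i) * u ^ (j i)) := by ring
          _ = (u.choose x * x.choose (j i)) * ((E i).card.choose (j i) * u ^ (j i)) := by
              rw [Nat.choose_mul (n := u) hji]
          _ ≤ (u.choose x * 2 ^ x) * (u.choose (j i) * (E i).card ^ (j i)) :=
              Nat.mul_le_mul (Nat.mul_le_mul_left _ (Nat.choose_le_two_pow _ _))
                (sm0_choose heu (j i))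
          _ = (u.choose x * 2 ^ x * (E i).card ^ (j i)) * u.choose (j i) := by ring
      have h2 := Nat.le_of_mul_le_mul_right h1 hcj
      have h3 : Fintype.card I *
          ((U.powersetCard x).filter (fun X => j i ≤ (X ∩ E i).card)).card * u ^ (j i) <
          u.choose x * u ^ (j i) := by
        calc Fintype.card I *
              ((U.powersetCard x).filter (fun X => j i ≤ (X ∩ E i).card)).card * u ^ (j i) =
              Fintype.card I *
              (((U.powersetCard x).filter (fun X => j i ≤ (X ∩ E i).card)).card *
                u ^ (j i)) := by ring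
          _ ≤ Fintype.card I * (u.choose x * 2 ^ x * (E i).card ^ (j i)) :=
              Nat.mul_le_mul_left _ h2
          _ = u.choose x * (Fintype.card I * 2 ^ x * (E i).card ^ (j i)) := by ring
          _ < u.choose x * u ^ (j i) := Nat.mul_lt_mul_of_pos_left (hj i) hcx
      exact Nat.lt_of_mul_lt_mul_right h3
    · have h1 : (U.powersetCard x).filter (fun X => j i ≤ (X ∩ E i).card) = ∅ := by
        refine Finset.filter_eq_empty_iff.2 fun X hX h => ?_
        have h2 : (X ∩ E i).card ≤ x := by
          rw [← (Finset.mem_powersetCard.1 hX).2]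
          exact Finset.card_le_card Finset.inter_subset_left
        omega
      rw [h1, Finset.card_empty, mul_zero]
      exact hcx
  -- every subset is bad
  have hcov : U.powersetCard x ⊆ Finset.univ.biUnion (fun i =>
      (U.powersetCard x).filter (fun X => j i ≤ (X ∩ E i).card)) := by
    intro X hX
    obtain ⟨hX1, hX2⟩ := Finset.mem_powersetCard.1 hX
    obtain ⟨i, hi⟩ := hcon X hX1 hX2
    exact Finset.mem_biUnion.2 ⟨i, Finset.mem_univ i, Finset.mem_filter.2 ⟨hX, hi⟩⟩
  have h1 : u.choose x ≤ ∑ i, ((U.powersetCard x).filter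
      (fun X => j i ≤ (X ∩ E i).card)).card := by
    have := (Finset.card_le_card hcov).trans Finset.card_biUnion_le
    rwa [Finset.card_powersetCard] at this
  have hne : Nonempty I := by
    obtain ⟨X, hX1, hX2⟩ := Finset.exists_subset_card_eq hx
    obtain ⟨i, _⟩ := hcon X hX1 hX2
    exact ⟨i⟩
  have h2 : Fintype.card I * u.choose x < Fintype.card I * u.choose x := by
    calc Fintype.card I * u.choose x ≤ Fintype.card I * ∑ i, ((U.powersetCard x).filter
          (fun X => j i ≤ (X ∩ E i).card)).card := Nat.mul_le_mul_left _ h1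
      _ = ∑ i, Fintype.card I * ((U.powersetCard x).filter
          (fun X => j i ≤ (X ∩ E i).card)).card := by rw [Finset.mul_sum]
      _ < ∑ _i : I, u.choose x :=
          Finset.sum_lt_sum_of_nonempty Finset.univ_nonempty (fun i _ => hbad i)
      _ = Fintype.card I * u.choose x := by
          rw [Finset.sum_const, Finset.card_univ, smul_eq_mul]
  exact lt_irrefl _ h2

end Pool.Agent.W118.CY
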