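import Pool.Agent.W118.CY.Basic2

/-! Caro-Yuster problem (MP_7c5d5d_co): making the degrees of a regular set equal. -/

set_option autoImplicit false

namespace Pool.Agent.W118.CY

open Finset

theorem tie_card {V : Type} [DecidableEq V] (A B : Finset V) :
    ((A ∩ B).card : ℤ) = ∑ i ∈ B, if i ∈ A then (1 : ℤ) else 0 := by
  rw [inter_comm, ← filter_mem_eq_inter, card_filter]
  push_cast
  rfl

theorem t_tie (h : S_ZS) : S_TIE := by
  intro M
  obtain ⟨c, hc⟩ := h M 1
  refine ⟨c, ?_⟩
  intro V _ _ G _ P D Z ρ hM hZD hDP hreg hlev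
  rcases Z.eq_empty_or_nonempty with hZ | ⟨z0, hz0⟩
  · refine ⟨D, Subset.refl _, ?_, ?_, ?_⟩
    · rw [sdiff_self]
      exact disjoint_bot_left
    · rw [sdiff_self]
      exact Nat.zero_le _
    · intro z hz
      rw [hZ] at hz
      exact absurd hz (notMem_empty _)
  -- the family
  set U : Finset V := univ \ (D ∪ Z ∪ P) with hU
  let S : Finset (Finset V) := U.powerset.filter
    fun F => ∀ z ∈ Z, ∀ z' ∈ Z, lev G (D ∪ F) z = lev G (D ∪ F) z'
  have hUS : U ∈ S := by
    refine mem_filter.2 ⟨mem_powerset.2 (Subset.refl _), ?_⟩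
    have key : ∀ z, nb G z \ (D ∪ U) = nb G z ∩ (P ∪ Z) := by
      intro z
      ext u
      rw [mem_sdiff, mem_inter, mem_union, mem_union, hU, mem_sdiff, mem_union, mem_union]
      constructor
      · rintro ⟨h1, h2⟩
        refine ⟨h1, ?_⟩
        by_contra h3
        apply h2
        by_cases h4 : u ∈ D
        · exact Or.inl h4
        · refine Or.inr ⟨mem_univ _, ?_⟩
          rintro ((h5 | h5) | h5)
          · exact h4 h5
          · exact h3 (Or.inr h5)
          · exact h3 (Or.inl h5)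
      · rintro ⟨h1, h2⟩
        refine ⟨h1, ?_⟩
        rintro (h3 | ⟨_, h3⟩)
        · rcases h2 with h2 | h2
          · exact disjoint_left.1 hDP h3 h2
          · exact disjoint_left.1 hZD h2 h3
        · rcases h2 with h2 | h2
          · exact h3 (Or.inr h2)
          · exact h3 (Or.inl (Or.inr h2))
    intro z hz z' hz'
    unfold lev
    rw [key, key]
    exact hreg z hz z' hz'
  obtain ⟨F, hFS, hmin⟩ := exists_min_image S card ⟨U, hUS⟩
  obtain ⟨hFU, hF⟩ := mem_filter.1 hFS
  rw [mem_powerset] at hFU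
  have hFD : Disjoint F D := by
    rw [disjoint_left]
    intro u hu huD
    have := hFU hu
    rw [hU, mem_sdiff, mem_union, mem_union] at this
    exact this.2 (Or.inl (Or.inl huD))
  have hFZP : Disjoint F (Z ∪ P) := by
    rw [disjoint_left]
    intro u hu huD
    have := hFU hu
    rw [hU, mem_sdiff, mem_union, mem_union] at this
    rw [mem_union] at huD
    rcases huD with h1 | h1
    · exact this.2 (Or.inl (Or.inr h1))
    · exact this.2 (Or.inr h1)
  have hsd : (D ∪ F) \ D = F := by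
    rw [union_sdiff_left, sdiff_eq_self_of_disjoint hFD]
  by_cases hcard : F.card ≤ c * (ρ + 1)
  · refine ⟨D ∪ F, subset_union_left, ?_, ?_, hF⟩
    · rw [hsd]; exact hFZP
    · rw [hsd]; exact hcard
  exfalso
  push Not at hcard
  let e := Z.equivFinOfCardEq hM
  have hsum : ∀ (B : Finset V) (j : Fin M),
      ∑ i ∈ B, ((if i ∈ nb G (e.symm j : V) then (1 : ℤ) else 0) -
        (if i ∈ nb G z0 then (1 : ℤ) else 0)) =
      ((nb G (e.symm j : V) ∩ B).card : ℤ) - ((nb G z0 ∩ B).card : ℤ) := by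
    intro B j
    rw [tie_card, tie_card, sum_sub_distrib]
  obtain ⟨B, hBF, hBne, hB⟩ := hc V F (fun i j => (if i ∈ nb G (e.symm j : V) then (1 : ℤ) else 0) -
    (if i ∈ nb G z0 then (1 : ℤ) else 0)) ρ (by
      intro i _ j
      show |(if i ∈ nb G (e.symm j : V) then (1 : ℤ) else 0) -
        (if i ∈ nb G z0 then (1 : ℤ) else 0)| ≤ ((1 : ℕ) : ℤ)
      split_ifs <;> simp) (by
      intro j
      show |∑ i ∈ F, ((if i ∈ nb G (e.symm j : V) then (1 : ℤ) else 0) -
        (if i ∈ nb G z0 then (1 : ℤ) else 0))| ≤ (ρ : ℤ)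
      rw [hsum]
      have h1 := lev_union (G := G) D F (e.symm j : V) hFD
      have h2 := lev_union (G := G) D F z0 hFD
      have h3 := hF _ (e.symm j).2 z0 hz0
      have h4 := hlev _ (e.symm j).2 z0 hz0
      have h5 := hlev z0 hz0 _ (e.symm j).2
      rw [abs_le]
      constructor <;> omega) hcard
  have hB' : ∀ z ∈ Z, (nb G z ∩ B).card = (nb G z0 ∩ B).card := by
    intro z hz
    have h1 := hB (e ⟨z, hz⟩)
    have h2 : ∑ i ∈ B, ((if i ∈ nb G (e.symm (e ⟨z, hz⟩) : V) then (1 : ℤ) else 0) -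
        (if i ∈ nb G z0 then (1 : ℤ) else 0)) = 0 := h1
    rw [hsum, Equiv.symm_apply_apply] at h2
    have h3 : ((nb G z ∩ B).card : ℤ) = ((nb G z0 ∩ B).card : ℤ) := by linarith
    exact_mod_cast h3
  have hDB : Disjoint B (D ∪ F \ B) := by
    rw [disjoint_left]
    intro u hu hu'
    rw [mem_union, mem_sdiff] at hu'
    rcases hu' with h1 | h1
    · exact disjoint_left.1 hFD (hBF hu) h1
    · exact h1.2 hu
  have hDF : D ∪ F \ B ∪ B = D ∪ F := by
    rw [union_assoc, sdiff_union_of_subset hBF]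
  have hmem : F \ B ∈ S := by
    refine mem_filter.2 ⟨mem_powerset.2 (sdiff_subset.trans hFU), ?_⟩
    have key : ∀ z ∈ Z, lev G (D ∪ F \ B) z = lev G (D ∪ F) z + (nb G z0 ∩ B).card := by
      intro z hz
      have h1 := lev_union (G := G) (D ∪ F \ B) B z hDB
      rw [hDF, hB' z hz] at h1
      exact h1.symm
    intro z hz z' hz'
    rw [key z hz, key z' hz', hF z hz z' hz']
  have h1 := hmin _ hmem
  have h2 : (F \ B).card < F.card := by
    rw [card_sdiff_of_subset hBF]
    have h3 := card_pos.2 hBne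
    have h4 := card_le_card hBF
    omega
  omega

end Pool.Agent.W118.CY
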