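import Pool.Agent.W118.CY.Basic2

/-! Caro-Yuster problem (MP_7c5d5d_co): lowering the maximum degree without touching the degrees
in `Z`. -/

set_option autoImplicit false

namespace Pool.Agent.W118.CY

open Finset

/-- the potential argument -/
theorem tl_key {V : Type} [Fintype V] [DecidableEq V] {G : SimpleGraph V} [DecidableRel G.Adj]
    {P D Z A : Finset V} {l t : ℕ} (hZ : ∀ z ∈ Z, z ∉ D ∧ z ∉ P ∧ lev G D z ≤ l)
    (hl : ∃ z ∈ Z, lev G D z = l)
    (hb : ∀ D' : Finset V, D ⊆ D' → Disjoint (D' \ D) (Z ∪ P ∪ nbU G Z) →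
      (D' \ D).card ≤ t * (ht G P D - l) → (top G P D').card ≤ t) :
    ∀ (n : ℕ) (D' : Finset V), D ⊆ D' → Disjoint (D' \ D) (Z ∪ P ∪ A ∪ nbU G Z) →
      l < ht G P D' →
      (D' \ D).card + (t * (ht G P D' - l - 1) + (top G P D').card) ≤ t * (ht G P D - l) →
      t * (ht G P D' - l - 1) + (top G P D').card ≤ n →
    ∃ D' : Finset V, D ⊆ D' ∧ Disjoint (D' \ D) (Z ∪ P ∪ A ∪ nbU G Z) ∧
      (D' \ D).card ≤ t * (ht G P D - l) ∧ l ≤ ht G P D' ∧
      (ht G P D' = l ∨ ∃ y ∈ top G P D', nb G y ⊆ D' ∪ Z ∪ P ∪ A ∪ nbU G Z) := by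
  obtain ⟨z₀, hz₀, hz₀l⟩ := hl
  -- levels in `Z`
  have hgood : ∀ D' : Finset V, D ⊆ D' → Disjoint (D' \ D) (Z ∪ P ∪ A ∪ nbU G Z) →
      z₀ ∉ D' ∧ lev G D' z₀ = l := by
    intro D' h1 h2
    refine ⟨fun h3 => ?_, ?_⟩
    · refine disjoint_left.1 h2 (mem_sdiff.2 ⟨h3, (hZ z₀ hz₀).1⟩) ?_
      simp only [mem_union]
      tauto
    · rw [← hz₀l]
      refine lev_eq_of_disjoint h1 ?_
      refine disjoint_of_subset_right ?_ h2
      intro u hu
      simp only [mem_union]
      right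
      exact mem_nbU.2 ⟨z₀, hz₀, mem_nb.1 hu⟩
  intro n
  induction n with
  | zero =>
    intro D' h1 h2 h3 h4 h5
    exfalso
    obtain ⟨g1, g2⟩ := hgood D' h1 h2
    have hne : (cp P D').Nonempty := ⟨z₀, mem_cp.2 ⟨g1, (hZ z₀ hz₀).2.1⟩⟩
    have := card_pos.2 (top_nonempty (G := G) hne)
    omega
  | succ n ih =>
    intro D' h1 h2 h3 h4 h5
    obtain ⟨g1, g2⟩ := hgood D' h1 h2
    have hne : (cp P D').Nonempty := ⟨z₀, mem_cp.2 ⟨g1, (hZ z₀ hz₀).2.1⟩⟩
    obtain ⟨y, hy⟩ := top_nonempty (G := G) hne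
    have htop := card_pos.2 ⟨y, hy⟩
    by_cases hcase : nb G y ⊆ D' ∪ Z ∪ P ∪ A ∪ nbU G Z
    · exact ⟨D', h1, h2, by omega, by omega, Or.inr ⟨y, hy, hcase⟩⟩
    obtain ⟨v, hvy, hv⟩ := not_subset.1 hcase
    simp only [mem_union, not_or] at hv
    obtain ⟨⟨⟨⟨hvD', hvZ⟩, hvP⟩, hvA⟩, hvU⟩ := hv
    set D'' : Finset V := D' ∪ {v} with hD''
    have hsub : D' ⊆ D'' := subset_union_left
    have e1 : D ⊆ D'' := h1.trans hsub
    have hsd : D'' \ D ⊆ insert v (D' \ D) := by
      intro u hu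
      rw [mem_sdiff, hD'', mem_union, mem_singleton] at hu
      rw [mem_insert, mem_sdiff]
      tauto
    have e2 : Disjoint (D'' \ D) (Z ∪ P ∪ A ∪ nbU G Z) := by
      refine disjoint_of_subset_left hsd ?_
      rw [disjoint_insert_left]
      refine ⟨?_, h2⟩
      simp only [mem_union, not_or]
      exact ⟨⟨⟨hvZ, hvP⟩, hvA⟩, hvU⟩
    have e2' : Disjoint (D'' \ D) (Z ∪ P ∪ nbU G Z) := by
      refine disjoint_of_subset_right ?_ e2
      intro u hu
      simp only [mem_union] at hu ⊢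
      tauto
    have e3 : (D'' \ D).card ≤ (D' \ D).card + 1 :=
      (card_le_card hsd).trans (card_insert_le _ _)
    obtain ⟨g3, g4⟩ := hgood D'' e1 e2
    have e4 : l ≤ ht G P D'' := by
      rw [← g4]
      exact le_ht' g3 (hZ z₀ hz₀).2.1
    have e5 : ht G P D'' ≤ ht G P D' := ht_mono hsub
    rcases Nat.lt_or_ge l (ht G P D'') with h6 | h6
    · rcases Nat.lt_or_ge (ht G P D'') (ht G P D') with h7 | h7
      · -- the maximum degree drops
        have e6 : (top G P D'').card ≤ t := hb D'' e1 e2' (by omega)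
        have e7 : t * (ht G P D'' - l - 1) + t ≤ t * (ht G P D' - l - 1) := by
          have : ht G P D'' - l - 1 + 1 ≤ ht G P D' - l - 1 := by omega
          calc t * (ht G P D'' - l - 1) + t = t * (ht G P D'' - l - 1 + 1) := by ring
            _ ≤ _ := Nat.mul_le_mul_left t this
        exact ih D'' e1 e2 h6 (by omega) (by omega)
      · -- the maximum degree stays
        have e6 : ht G P D'' = ht G P D' := le_antisymm e5 h7
        have e7 : top G P D'' ⊆ (top G P D').erase y := by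
          intro w hw
          rw [mem_top] at hw
          obtain ⟨⟨hw1, hw2⟩, hw3⟩ := hw
          have hw4 : w ∉ D' := fun h => hw1 (hsub h)
          have hw5 := lev_mono (G := G) hsub w
          have hw6 := le_ht' (G := G) (P := P) hw4 hw2
          rw [mem_erase, mem_top]
          refine ⟨?_, ⟨hw4, hw2⟩, by omega⟩
          rintro rfl
          have hw7 := lev_union (G := G) D' {v} w (disjoint_singleton_left.2 hvD')
          rw [inter_singleton_of_mem hvy, card_singleton, ← hD''] at hw7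
          omega
        have e8 : (top G P D'').card + 1 ≤ (top G P D').card := by
          have h8 := card_le_card e7
          rw [card_erase_of_mem hy] at h8
          omega
        rw [← e6] at h4 h5
        exact ih D'' e1 e2 h6 (by omega) (by omega)
    · exact ⟨D'', e1, e2, by omega, e4, Or.inl (le_antisymm h6 e4)⟩

theorem t_tl : S_TL := by
  intro V _ _ G _ P D Z A l t hZ hl hDP hb
  obtain ⟨z₀, hz₀, hz₀l⟩ := hl
  have h1 : l ≤ ht G P D := by
    rw [← hz₀l]
    exact le_ht' (hZ z₀ hz₀).1 (hZ z₀ hz₀).2.1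
  rcases Nat.lt_or_ge l (ht G P D) with h2 | h2
  · have h3 : (top G P D).card ≤ t := hb D (Subset.refl _) (by simp) (by simp)
    have h4 : t * (ht G P D - l - 1) + t = t * (ht G P D - l) := by
      have : ht G P D - l = ht G P D - l - 1 + 1 := by omega
      conv_rhs => rw [this]
      ring
    refine tl_key hZ ⟨z₀, hz₀, hz₀l⟩ hb _ D (Subset.refl _) (by simp) h2 ?_ le_rfl
    have h5 : (D \ D).card = 0 := by simp
    omega
  · exact ⟨D, Subset.refl _, by simp, by simp, h1, Or.inl (le_antisymm h2 h1)⟩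

end Pool.Agent.W118.CY
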