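import Pool.Agent.W118.CY.Basic2

/-! Caro-Yuster problem (MP_7c5d5d_co), part WIN (helper962): a window with many near
competitors. -/

set_option autoImplicit false

namespace Pool.Agent.W118.CY

open Finset

theorem t_win : S_WIN := by
  intro V _ _ G _ N s h
  induction h using Nat.strong_induction_on with
  | _ h ih =>
  intro D hht hcard
  by_cases hN : N ≤ (near G ∅ D s).card
  · exact ⟨D, Subset.refl D, by simp, hN⟩
  · push Not at hN
    have hdisj : Disjoint D (near G ∅ D s) := by
      rw [disjoint_left]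
      intro v hv hv'
      exact (mem_near.1 hv').1.1 hv
    have hc1 : (D ∪ near G ∅ D s).card = D.card + (near G ∅ D s).card :=
      card_union_of_disjoint hdisj
    have hlt : (D ∪ near G ∅ D s).card < Fintype.card V := by
      have h1 : N * 2 ≤ N * (h / (s + 1) + 2) := Nat.mul_le_mul_left _ (Nat.le_add_left _ _)
      omega
    obtain ⟨v0, hv0⟩ : ∃ v, v ∉ D ∪ near G ∅ D s := by
      by_contra hcon
      push Not at hcon
      have : D ∪ near G ∅ D s = univ := eq_univ_of_forall hcon
      rw [this, card_univ] at hlt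
      exact lt_irrefl _ hlt
    have hkey : ∀ v, v ∉ D ∪ near G ∅ D s → lev G D v + (s + 1) ≤ ht G ∅ D := by
      intro v hv
      rw [mem_union, not_or] at hv
      by_contra hcon
      exact hv.2 (mem_near.2 ⟨⟨hv.1, by simp⟩, by omega⟩)
    have hs : s + 1 ≤ h := by
      have := hkey v0 hv0
      omega
    obtain ⟨h', rfl⟩ : ∃ h', h = h' + (s + 1) := ⟨h - (s + 1), by omega⟩
    have hdiv : (h' + (s + 1)) / (s + 1) = h' / (s + 1) + 1 :=
      Nat.add_div_right h' (Nat.succ_pos s)
    have hht' : ht G ∅ (D ∪ near G ∅ D s) ≤ h' := by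
      refine ht_le fun v h1 _ => ?_
      have h2 := hkey v h1
      have h3 := lev_mono (G := G) (subset_union_left (s₁ := D) (s₂ := near G ∅ D s)) v
      omega
    have hcard' : (D ∪ near G ∅ D s).card + N * (h' / (s + 1) + 2) ≤ Fintype.card V := by
      rw [hdiv] at hcard
      have e1 : N * (h' / (s + 1) + 1 + 2) = N * (h' / (s + 1) + 2) + N := by ring
      omega
    obtain ⟨D', h1, h2, h3⟩ := ih h' (by omega) (D ∪ near G ∅ D s) hht' hcard'
    refine ⟨D', subset_union_left.trans h1, ?_, h3⟩
    rw [hdiv]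
    have e2 : D' \ D ⊆ (D' \ (D ∪ near G ∅ D s)) ∪ near G ∅ D s := by
      intro v hv
      rw [mem_sdiff] at hv
      rw [mem_union, mem_sdiff, mem_union]
      by_cases hn : v ∈ near G ∅ D s
      · exact Or.inr hn
      · exact Or.inl ⟨hv.1, fun h4 => h4.elim hv.2 hn⟩
    have e3 := (card_le_card e2).trans (card_union_le _ _)
    have e4 : N * (h' / (s + 1) + 1 + 1) = N * (h' / (s + 1) + 1) + N := by ring
    omega

end Pool.Agent.W118.CY
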