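import Pool.Agent.W118.CY.Basic2

/-! Caro-Yuster problem (MP_7c5d5d_co): the zero sum lemma. -/

set_option autoImplicit false

namespace Pool.Agent.W118.CY

open Finset

/-- a short zero sum block -/
lemma zs_block {ι : Type} [DecidableEq ι] (b ρ : ℕ) (F : Finset ι) (f : ι → ℤ)
    (h1 : ∀ i ∈ F, |f i| ≤ b) (h2 : |∑ i ∈ F, f i| ≤ ρ) (h3 : ρ + b ^ 3 + b ^ 2 < F.card) :
    ∃ B ⊆ F, B.Nonempty ∧ B.card ≤ 2 * b + 1 ∧ ∑ i ∈ B, f i = 0 := by
  by_cases hz : ∃ x ∈ F, f x = 0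
  · obtain ⟨x, hx, hfx⟩ := hz
    exact ⟨{x}, by simpa using hx, by simp, by simp, by simp [hfx]⟩
  push Not at hz
  set P := F.filter (fun x => 0 < f x) with hP
  set N := F.filter (fun x => ¬ 0 < f x) with hN
  have hPN : P.card + N.card = F.card := Finset.card_filter_add_card_filter_not _
  have hsum : ∑ i ∈ P, f i + ∑ i ∈ N, f i = ∑ i ∈ F, f i := Finset.sum_filter_add_sum_filter_not _ _ _
  have hPp : ∀ x ∈ P, 1 ≤ f x ∧ f x ≤ b := by
    intro x hx
    rw [hP, Finset.mem_filter] at hx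
    have := abs_le.mp (h1 x hx.1)
    exact ⟨by omega, this.2⟩
  have hNn : ∀ x ∈ N, f x ≤ -1 ∧ -(b : ℤ) ≤ f x := by
    intro x hx
    rw [hN, Finset.mem_filter] at hx
    have := abs_le.mp (h1 x hx.1)
    have h4 := hz x hx.1
    exact ⟨by omega, this.1⟩
  have hb := abs_le.mp h2
  have s1 : ∑ i ∈ P, f i ≤ P.card * (b : ℤ) := by
    have := Finset.sum_le_card_nsmul P f b (fun x hx => (hPp x hx).2)
    simpa using this
  have s2 : (P.card : ℤ) ≤ ∑ i ∈ P, f i := by
    have := Finset.card_nsmul_le_sum P f 1 (fun x hx => (hPp x hx).1)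
    simpa using this
  have s3 : ∑ i ∈ N, f i ≤ - (N.card : ℤ) := by
    have := Finset.sum_le_card_nsmul N f (-1) (fun x hx => (hNn x hx).1)
    simpa using this
  have s4 : - (N.card * (b : ℤ)) ≤ ∑ i ∈ N, f i := by
    have := Finset.card_nsmul_le_sum N f (-b) (fun x hx => (hNn x hx).2)
    simpa using this
  have h3' : ((ρ : ℤ) + b ^ 3 + b ^ 2) < F.card := by exact_mod_cast h3
  have hPN' : (P.card : ℤ) + N.card = F.card := by exact_mod_cast hPN
  have hPc : b * b < P.card := by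
    by_contra hcon
    push Not at hcon
    have e1 : (P.card : ℤ) ≤ b * b := by exact_mod_cast hcon
    have e2 : (P.card : ℤ) * b ≤ (b * b) * b := mul_le_mul_of_nonneg_right e1 (by positivity)
    have e3 : (b : ℤ) ^ 3 = (b * b) * b := by ring
    have e4 : (b : ℤ) ^ 2 = b * b := by ring
    rw [e3, e4] at h3'
    linarith [hb.1]
  have hNc : b * b < N.card := by
    by_contra hcon
    push Not at hcon
    have e1 : (N.card : ℤ) ≤ b * b := by exact_mod_cast hcon
    have e2 : (N.card : ℤ) * b ≤ (b * b) * b := mul_le_mul_of_nonneg_right e1 (by positivity)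
    have e3 : (b : ℤ) ^ 3 = (b * b) * b := by ring
    have e4 : (b : ℤ) ^ 2 = b * b := by ring
    rw [e3, e4] at h3'
    linarith [hb.2]
  have c1 : (Finset.Icc 1 b).card = b := by simp
  obtain ⟨a, ha, hac⟩ := Finset.exists_lt_card_fiber_of_mul_lt_card_of_maps_to
    (s := P) (t := Finset.Icc 1 b) (f := fun x => (f x).natAbs) (n := b)
    (fun x hx => by
      rw [Finset.mem_Icc]
      have := hPp x hx
      omega) (by rw [c1]; exact hPc)
  obtain ⟨a', ha', hac'⟩ := Finset.exists_lt_card_fiber_of_mul_lt_card_of_maps_to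
    (s := N) (t := Finset.Icc 1 b) (f := fun x => (f x).natAbs) (n := b)
    (fun x hx => by
      rw [Finset.mem_Icc]
      have := hNn x hx
      omega) (by rw [c1]; exact hNc)
  rw [Finset.mem_Icc] at ha ha'
  obtain ⟨A, hA, hAc⟩ := Finset.exists_subset_card_eq (show a' ≤ _ from ha'.2.trans hac.le)
  obtain ⟨A', hA', hAc'⟩ := Finset.exists_subset_card_eq (show a ≤ _ from ha.2.trans hac'.le)
  have vA : ∀ x ∈ A, x ∈ P ∧ f x = a := by
    intro x hx
    have h5 := Finset.mem_filter.mp (hA hx)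
    have h6 := hPp x h5.1
    refine ⟨h5.1, ?_⟩
    have := h5.2
    omega
  have vA' : ∀ x ∈ A', x ∈ N ∧ f x = -a' := by
    intro x hx
    have h5 := Finset.mem_filter.mp (hA' hx)
    have h6 := hNn x h5.1
    refine ⟨h5.1, ?_⟩
    have := h5.2
    omega
  have hdis : Disjoint A A' := by
    rw [Finset.disjoint_left]
    intro x hx hx'
    have h5 := (vA x hx).2
    have h6 := (vA' x hx').2
    omega
  refine ⟨A ∪ A', ?_, ?_, ?_, ?_⟩
  · intro x hx
    rcases Finset.mem_union.mp hx with h | h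
    · exact (Finset.mem_filter.mp (vA x h).1).1
    · exact (Finset.mem_filter.mp (vA' x h).1).1
  · rw [← Finset.card_pos, Finset.card_union_of_disjoint hdis]
    omega
  · rw [Finset.card_union_of_disjoint hdis]
    omega
  · rw [Finset.sum_union hdis, Finset.sum_congr rfl (fun x hx => (vA x hx).2),
      Finset.sum_congr rfl (fun x hx => (vA' x hx).2), Finset.sum_const, Finset.sum_const, hAc, hAc']
    simp only [nsmul_eq_mul]
    ring

/-- decomposition into short zero sum blocks -/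
lemma zs_blocks {ι : Type} [DecidableEq ι] (b ρ : ℕ) (f : ι → ℤ) (F : Finset ι) :
    (∀ i ∈ F, |f i| ≤ b) → |∑ i ∈ F, f i| ≤ ρ →
    ∃ BB : Finset (Finset ι), (∀ X ∈ BB, X ⊆ F ∧ X.Nonempty ∧ X.card ≤ 2 * b + 1 ∧
      ∑ i ∈ X, f i = 0) ∧ (∀ X ∈ BB, ∀ Y ∈ BB, X ≠ Y → Disjoint X Y) ∧
      (F \ BB.biUnion id).card ≤ ρ + b ^ 3 + b ^ 2 := by
  induction F using Finset.strongInduction with
  | H F ih =>
    intro h1 h2
    by_cases h3 : F.card ≤ ρ + b ^ 3 + b ^ 2
    · exact ⟨∅, by simp, by simp, by simpa using h3⟩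
    push Not at h3
    obtain ⟨B, hB, hne, hBc, hB0⟩ := zs_block b ρ F f h1 h2 h3
    have hs : F \ B ⊂ F := Finset.sdiff_ssubset hB hne
    have hsum : ∑ i ∈ F \ B, f i = ∑ i ∈ F, f i := by
      rw [← Finset.sum_sdiff hB, hB0, add_zero]
    obtain ⟨BB, k1, k2, k3⟩ := ih (F \ B) hs (fun i hi => h1 i (Finset.sdiff_subset hi))
      (by rw [hsum]; exact h2)
    have dj : ∀ X ∈ BB, Disjoint B X := by
      intro X hX
      rw [Finset.disjoint_left]
      intro x hx hx'
      exact (Finset.mem_sdiff.mp ((k1 X hX).1 hx')).2 hx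
    refine ⟨insert B BB, ?_, ?_, ?_⟩
    · intro X hX
      rcases Finset.mem_insert.mp hX with h | h
      · subst h
        exact ⟨hB, hne, hBc, hB0⟩
      · exact ⟨(k1 X h).1.trans Finset.sdiff_subset, (k1 X h).2⟩
    · intro X hX Y hY hXY
      rcases Finset.mem_insert.mp hX with h | h <;> rcases Finset.mem_insert.mp hY with h' | h'
      · exact absurd (h.trans h'.symm) hXY
      · rw [h]; exact dj Y h'
      · rw [h']; exact (dj X h).symm
      · exact k2 X h Y h' hXY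
    · have : F \ (insert B BB).biUnion id = (F \ B) \ BB.biUnion id := by
        rw [Finset.biUnion_insert, id, Finset.sdiff_sdiff_left']
        ext x
        simp only [Finset.mem_sdiff, Finset.mem_union, Finset.mem_inter]
        tauto
      rw [this]
      exact k3

theorem t_zs : S_ZS := by
  intro d
  induction d with
  | zero =>
    intro b
    refine ⟨0, ?_⟩
    intro ι _ F w ρ _ _ h
    rw [zero_mul, Finset.card_pos] at h
    exact ⟨F, Finset.Subset.refl _, h, fun j => j.elim0⟩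
  | succ d ih =>
    intro b
    obtain ⟨c', hc'⟩ := ih ((2 * b + 1) * b)
    refine ⟨(2 * b + 1) * (c' * (1 + b + b ^ 3 + b ^ 4)) + (1 + b ^ 3 + b ^ 2), ?_⟩
    intro ι _ F w ρ h1 h2 h3
    obtain ⟨BB, k1, k2, k3⟩ := zs_blocks b ρ (fun i => w i 0) F (fun i hi => h1 i hi 0) (h2 0)
    have hpd : ∀ BB' ⊆ BB, ((BB' : Finset (Finset ι)) : Set (Finset ι)).PairwiseDisjoint id := by
      intro BB' hB X hX Y hY hXY
      exact k2 X (hB hX) Y (hB hY) hXY
    have hU : BB.biUnion id ⊆ F := by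
      intro x hx
      obtain ⟨X, hX, hx'⟩ := Finset.mem_biUnion.mp hx
      exact (k1 X hX).1 hx'
    have g1 : ∀ X ∈ BB, ∀ j : Fin d, |∑ x ∈ X, w x j.succ| ≤ ((2 * b + 1) * b : ℕ) := by
      intro X hX j
      calc |∑ x ∈ X, w x j.succ| ≤ ∑ x ∈ X, |w x j.succ| := Finset.abs_sum_le_sum_abs _ _
        _ ≤ X.card • (b : ℤ) := Finset.sum_le_card_nsmul _ _ _ (fun x hx => h1 x ((k1 X hX).1 hx) _)
        _ ≤ ((2 * b + 1) * b : ℕ) := by
          rw [nsmul_eq_mul]
          have := (k1 X hX).2.2.1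
          exact_mod_cast Nat.mul_le_mul_right b this
    have g2 : ∀ j : Fin d, |∑ X ∈ BB, ∑ x ∈ X, w x j.succ| ≤
        ((ρ + b * (ρ + b ^ 3 + b ^ 2) : ℕ) : ℤ) := by
      intro j
      have e1 : ∑ X ∈ BB, ∑ x ∈ X, w x j.succ = ∑ x ∈ BB.biUnion id, w x j.succ :=
        (Finset.sum_biUnion (hpd BB (Finset.Subset.refl _))).symm
      have e2 := Finset.sum_sdiff hU (f := fun x => w x j.succ)
      have e3 : |∑ x ∈ F \ BB.biUnion id, w x j.succ| ≤ ((b * (ρ + b ^ 3 + b ^ 2) : ℕ) : ℤ) := by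
        calc |∑ x ∈ F \ BB.biUnion id, w x j.succ| ≤ ∑ x ∈ F \ BB.biUnion id, |w x j.succ| :=
              Finset.abs_sum_le_sum_abs _ _
          _ ≤ (F \ BB.biUnion id).card • (b : ℤ) :=
              Finset.sum_le_card_nsmul _ _ _ (fun x hx => h1 x (Finset.sdiff_subset hx) _)
          _ ≤ ((b * (ρ + b ^ 3 + b ^ 2) : ℕ) : ℤ) := by
            rw [nsmul_eq_mul, mul_comm]
            exact_mod_cast Nat.mul_le_mul_left b k3
      have e4 := abs_le.mp e3
      have e5 := abs_le.mp (h2 j.succ)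
      rw [e1, abs_le]
      push_cast at e4 ⊢
      constructor <;> linarith [e4.1, e4.2, e5.1, e5.2]
    have g3 : c' * (ρ + b * (ρ + b ^ 3 + b ^ 2) + 1) < BB.card := by
      by_contra hcon
      push Not at hcon
      have a1 : (BB.biUnion id).card ≤ BB.card * (2 * b + 1) :=
        Finset.card_biUnion_le_card_mul _ _ _ (fun X hX => (k1 X hX).2.2.1)
      have a2 : F.card = (F \ BB.biUnion id).card + (BB.biUnion id).card := by
        rw [Finset.card_sdiff_add_card_eq_card hU]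
      have a3 : BB.card * (2 * b + 1) ≤
          (c' * (ρ + b * (ρ + b ^ 3 + b ^ 2) + 1)) * (2 * b + 1) := Nat.mul_le_mul_right _ hcon
      have a4 : ρ + b * (ρ + b ^ 3 + b ^ 2) + 1 ≤ (1 + b + b ^ 3 + b ^ 4) * (ρ + 1) := by
        have : (1 + b + b ^ 3 + b ^ 4) * (ρ + 1) =
          ρ + b * (ρ + b ^ 3 + b ^ 2) + 1 + (b + b ^ 3 * ρ + b ^ 4 * ρ) := by ring
        omega
      have a5 : (c' * (ρ + b * (ρ + b ^ 3 + b ^ 2) + 1)) * (2 * b + 1) ≤
          (c' * ((1 + b + b ^ 3 + b ^ 4) * (ρ + 1))) * (2 * b + 1) :=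
        Nat.mul_le_mul_right _ (Nat.mul_le_mul_left _ a4)
      have a6 : ρ + b ^ 3 + b ^ 2 ≤ (1 + b ^ 3 + b ^ 2) * (ρ + 1) := by
        have : (1 + b ^ 3 + b ^ 2) * (ρ + 1) = ρ + b ^ 3 + b ^ 2 + (1 + b ^ 3 * ρ + b ^ 2 * ρ) := by
          ring
        omega
      have a7 : ((2 * b + 1) * (c' * (1 + b + b ^ 3 + b ^ 4)) + (1 + b ^ 3 + b ^ 2)) * (ρ + 1) =
        (c' * ((1 + b + b ^ 3 + b ^ 4) * (ρ + 1))) * (2 * b + 1) +
          (1 + b ^ 3 + b ^ 2) * (ρ + 1) := by ring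
      rw [a7] at h3
      omega
    obtain ⟨BB', hBB', hne, hz⟩ := hc' (Finset ι) BB (fun X j => ∑ x ∈ X, w x j.succ)
      (ρ + b * (ρ + b ^ 3 + b ^ 2)) g1 g2 g3
    refine ⟨BB'.biUnion id, ?_, ?_, ?_⟩
    · intro x hx
      obtain ⟨X, hX, hx'⟩ := Finset.mem_biUnion.mp hx
      exact (k1 X (hBB' hX)).1 hx'
    · obtain ⟨X, hX⟩ := hne
      obtain ⟨x, hx⟩ := (k1 X (hBB' hX)).2.1
      exact ⟨x, Finset.mem_biUnion.mpr ⟨X, hX, hx⟩⟩
    · intro j
      rw [Finset.sum_biUnion (hpd BB' hBB')]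
      refine Fin.cases ?_ (fun j => ?_) j
      · exact Finset.sum_eq_zero (fun X hX => (k1 X (hBB' hX)).2.2.2)
      · exact hz j

end Pool.Agent.W118.CY
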