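import Mathlib

/-! Caro-Yuster problem (MP_7c5d5d_co): basic definitions and lemmas. -/

set_option autoImplicit false

namespace Pool.Agent.W118.CY

open Finset

section

variable {V : Type} [Fintype V] [DecidableEq V]

/-- the neighbours of `v` -/
def nb (G : SimpleGraph V) [DecidableRel G.Adj] (v : V) : Finset V := univ.filter (G.Adj v)

/-- the degree of `v` after the deletion of `D` -/
def lev (G : SimpleGraph V) [DecidableRel G.Adj] (D : Finset V) (v : V) : ℕ := (nb G v \ D).card

/-- the competitors: vertices which are neither deleted (`D`) nor in `P` -/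
def cp (P D : Finset V) : Finset V := univ \ (D ∪ P)

/-- the maximum degree of the competitors -/
def ht (G : SimpleGraph V) [DecidableRel G.Adj] (P D : Finset V) : ℕ := (cp P D).sup (lev G D)

/-- the competitors of maximum degree -/
def top (G : SimpleGraph V) [DecidableRel G.Adj] (P D : Finset V) : Finset V :=
  (cp P D).filter (fun v => lev G D v = ht G P D)

/-- the competitors whose degree is at least the maximum degree minus `s` -/
def near (G : SimpleGraph V) [DecidableRel G.Adj] (P D : Finset V) (s : ℕ) : Finset V :=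
  (cp P D).filter (fun v => ht G P D ≤ lev G D v + s)

/-- the union of the neighbourhoods -/
def nbU (G : SimpleGraph V) [DecidableRel G.Adj] (Z : Finset V) : Finset V := Z.biUnion (nb G)

/-- the common neighbours of the vertices in `A` -/
def com (G : SimpleGraph V) [DecidableRel G.Adj] (A : Finset V) : Finset V :=
  univ.filter (fun v => ∀ a ∈ A, G.Adj a v)

/-- there is a set `D` of deleted vertices with at least `k` vertices of maximum degree and at least
`N` competitors of almost maximum degree, at most `R` steps away from `B` -/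
def Out (G : SimpleGraph V) [DecidableRel G.Adj] (P B : Finset V) (k N R : ℕ) : Prop :=
  ∃ D : Finset V, B ⊆ D ∧ Disjoint D P ∧ (D \ B).card ≤ R ∧ k ≤ (top G P D).card ∧
    N ≤ (near G P D R).card ∧ ht G P B ≤ ht G P D + R

variable {G : SimpleGraph V} [DecidableRel G.Adj]

theorem mem_nb {v u : V} : u ∈ nb G v ↔ G.Adj v u := by simp [nb]

theorem not_mem_nb_self {v : V} : v ∉ nb G v := by simp [nb]

theorem mem_nb_comm {v u : V} : u ∈ nb G v ↔ v ∈ nb G u := by
  rw [mem_nb, mem_nb, G.adj_comm]

theorem mem_cp {P D : Finset V} {v : V} : v ∈ cp P D ↔ v ∉ D ∧ v ∉ P := by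
  simp [cp, not_or]

theorem mem_nbU {Z : Finset V} {v : V} : v ∈ nbU G Z ↔ ∃ z ∈ Z, G.Adj z v := by
  simp [nbU, mem_nb]

theorem mem_com {A : Finset V} {v : V} : v ∈ com G A ↔ ∀ a ∈ A, G.Adj a v := by
  simp [com]

theorem mem_top {P D : Finset V} {v : V} :
    v ∈ top G P D ↔ (v ∉ D ∧ v ∉ P) ∧ lev G D v = ht G P D := by
  rw [top, mem_filter, mem_cp]

theorem mem_near {P D : Finset V} {v : V} {s : ℕ} :
    v ∈ near G P D s ↔ (v ∉ D ∧ v ∉ P) ∧ ht G P D ≤ lev G D v + s := by
  rw [near, mem_filter, mem_cp]

theorem lev_mono {D D' : Finset V} (h : D ⊆ D') (v : V) : lev G D' v ≤ lev G D v :=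
  card_le_card (sdiff_subset_sdiff (Subset.refl _) h)

theorem lev_le_add (D D' : Finset V) (v : V) : lev G D v ≤ lev G D' v + (D' \ D).card := by
  unfold lev
  rw [← card_union_add_card_inter]
  refine le_trans (card_le_card ?_) (Nat.le_add_right _ _)
  intro u hu
  rw [mem_sdiff] at hu
  rw [mem_union, mem_sdiff, mem_sdiff]
  by_cases h : u ∈ D'
  · exact Or.inr ⟨h, hu.2⟩
  · exact Or.inl ⟨hu.1, h⟩

/-- deleting vertices which are not adjacent to `v` does not change its degree -/
theorem lev_eq_of_disjoint {D D' : Finset V} (h : D ⊆ D') {v : V}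
    (hd : Disjoint (D' \ D) (nb G v)) : lev G D' v = lev G D v := by
  unfold lev
  congr 1
  ext u
  rw [mem_sdiff, mem_sdiff]
  constructor
  · rintro ⟨h1, h2⟩
    exact ⟨h1, fun h3 => h2 (h h3)⟩
  · rintro ⟨h1, h2⟩
    refine ⟨h1, fun h3 => ?_⟩
    exact disjoint_left.1 hd (mem_sdiff.2 ⟨h3, h2⟩) h1

/-- the change of the degree is the number of deleted neighbours -/
theorem lev_union (D F : Finset V) (v : V) (h : Disjoint F D) :
    lev G (D ∪ F) v + (nb G v ∩ F).card = lev G D v := by
  unfold lev
  rw [← card_union_of_disjoint]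
  · congr 1
    ext u
    simp only [mem_union, mem_sdiff, mem_inter]
    constructor
    · rintro (⟨h1, h2⟩ | ⟨h1, h2⟩)
      · exact ⟨h1, fun h3 => h2 (Or.inl h3)⟩
      · exact ⟨h1, fun h3 => disjoint_left.1 h h2 h3⟩
    · rintro ⟨h1, h2⟩
      by_cases h3 : u ∈ F
      · exact Or.inr ⟨h1, h3⟩
      · exact Or.inl ⟨h1, fun h4 => h4.elim h2 h3⟩
  · rw [disjoint_left]
    intro u hu hu'
    rw [mem_sdiff, mem_union] at hu
    exact hu.2 (Or.inr (mem_inter.1 hu').2)

theorem le_ht {P D : Finset V} {v : V} (h : v ∈ cp P D) : lev G D v ≤ ht G P D :=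
  Finset.le_sup (f := lev G D) h

theorem le_ht' {P D : Finset V} {v : V} (h1 : v ∉ D) (h2 : v ∉ P) : lev G D v ≤ ht G P D :=
  le_ht (mem_cp.2 ⟨h1, h2⟩)

theorem ht_le {P D : Finset V} {m : ℕ} (h : ∀ v, v ∉ D → v ∉ P → lev G D v ≤ m) :
    ht G P D ≤ m :=
  Finset.sup_le fun v hv => h v (mem_cp.1 hv).1 (mem_cp.1 hv).2

theorem top_nonempty {P D : Finset V} (h : (cp P D).Nonempty) : (top G P D).Nonempty := by
  obtain ⟨v, hv, h1⟩ := Finset.exists_mem_eq_sup (cp P D) h (lev G D)
  exact ⟨v, mem_filter.2 ⟨hv, h1.symm⟩⟩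

theorem cp_mono {P D D' : Finset V} (h : D ⊆ D') : cp P D' ⊆ cp P D := by
  intro v hv
  rw [mem_cp] at hv ⊢
  exact ⟨fun h1 => hv.1 (h h1), hv.2⟩

theorem ht_mono {P D D' : Finset V} (h : D ⊆ D') : ht G P D' ≤ ht G P D :=
  ht_le fun v h1 h2 => (lev_mono h v).trans (le_ht' (fun h3 => h1 (h h3)) h2)

theorem top_subset_near {P D : Finset V} (s : ℕ) : top G P D ⊆ near G P D s := by
  intro v hv
  rw [mem_top] at hv
  rw [mem_near]
  exact ⟨hv.1, by omega⟩

theorem near_mono {P D : Finset V} {s s' : ℕ} (h : s ≤ s') : near G P D s ⊆ near G P D s' := by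
  intro v hv
  rw [mem_near] at hv ⊢
  exact ⟨hv.1, by omega⟩

/-- a near competitor stays near when few vertices are deleted -/
theorem near_of_subset {P B D : Finset V} {s m : ℕ} {v : V} (hv : v ∈ near G P B s) (h : B ⊆ D)
    (hvD : v ∉ D) (hm : (D \ B).card ≤ m) : v ∈ near G P D (s + m) := by
  rw [mem_near] at hv ⊢
  refine ⟨⟨hvD, hv.1.2⟩, ?_⟩
  have h1 := ht_mono (G := G) (P := P) h
  have h2 := lev_le_add (G := G) B D v
  omega

/-- the maximum degree does not drop much if a near competitor is kept -/
theorem ht_le_of_near {P B D : Finset V} {s : ℕ} {v : V} (hv : v ∈ near G P B s)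
    (hvD : v ∉ D) : ht G P B ≤ ht G P D + s + (D \ B).card := by
  rw [mem_near] at hv
  have h1 := lev_le_add (G := G) B D v
  have h2 := le_ht' (G := G) (P := P) hvD hv.1.2
  omega

/-- if the degree after the deletion is still large, then the vertex was near before -/
theorem near_back {P B D : Finset V} {s : ℕ} {v : V} (h : B ⊆ D) (hvD : v ∉ D) (hvP : v ∉ P)
    (hs : ht G P B ≤ lev G D v + s) : v ∈ near G P B s := by
  rw [mem_near]
  have h1 := lev_mono (G := G) h v
  exact ⟨⟨fun h2 => hvD (h h2), hvP⟩, by omega⟩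

/-- `Out` is monotone in the base and in the bound -/
theorem Out.mono {P B D : Finset V} {k N R R₁ : ℕ} (h : Out G P D k N R) (hBD : B ⊆ D)
    (hc : (D \ B).card ≤ R₁) (hh : ht G P B ≤ ht G P D + R₁) : Out G P B k N (R + R₁) := by
  obtain ⟨E, h1, h2, h3, h4, h5, h6⟩ := h
  refine ⟨E, hBD.trans h1, h2, ?_, h4, h5.trans (card_le_card (near_mono (by omega))), by omega⟩
  have : E \ B ⊆ (E \ D) ∪ (D \ B) := by
    intro v hv
    rw [mem_sdiff] at hv
    rw [mem_union, mem_sdiff, mem_sdiff]
    by_cases hD : v ∈ D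
    · exact Or.inr ⟨hD, hv.2⟩
    · exact Or.inl ⟨hv.1, hD⟩
  have := (card_le_card this).trans (card_union_le _ _)
  omega

theorem Out.mono' {P B : Finset V} {k N R R₁ : ℕ} (h : Out G P B k N R) (hR : R ≤ R₁) :
    Out G P B k N R₁ := by
  obtain ⟨E, h1, h2, h3, h4, h5, h6⟩ := h
  exact ⟨E, h1, h2, by omega, h4, h5.trans (card_le_card (near_mono hR)), by omega⟩

/-- the basic use of the negation of `Out`: if `N` near competitors `Z` are kept, then there are at
most `t` vertices of maximum degree -/
theorem top_le_of_not_out {P B D Z : Finset V} {t N R s : ℕ} (h : ¬ Out G P B (t + 1) N R)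
    (hZ : Z ⊆ near G P B s) (hN : N ≤ Z.card) (hZ0 : Z.Nonempty) (hBD : B ⊆ D) (hDP : Disjoint D P)
    (hZD : Disjoint Z D) (hR : s + (D \ B).card ≤ R) : (top G P D).card ≤ t := by
  by_contra hcon
  refine h ⟨D, hBD, hDP, by omega, by omega, ?_, ?_⟩
  · refine hN.trans (card_le_card fun z hz => ?_)
    exact near_mono hR (near_of_subset (hZ hz) hBD (disjoint_left.1 hZD hz) le_rfl)
  · obtain ⟨z, hz⟩ := hZ0
    have := ht_le_of_near (D := D) (hZ hz) (disjoint_left.1 hZD hz)
    omega

/-- **Extension lemma.** Common neighbours of the vertices of maximum degree which are not adjacent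
to a near competitor `y` give one more vertex of maximum degree. -/
theorem extend {P : Finset V} {y : V} {s : ℕ} : ∀ {D F : Finset V}, y ∈ near G P D s →
    y ∉ top G P D → F.card = s → Disjoint F D → Disjoint F P → y ∉ F →
    (∀ v ∈ F, ¬ G.Adj y v) → (∀ v ∈ F, ∀ a ∈ top G P D, G.Adj a v) →
    ∃ F' ⊆ F, (top G P D).card + 1 ≤ (top G P (D ∪ F')).card ∧
      ht G P D ≤ ht G P (D ∪ F') + F'.card := by
  induction s with
  | zero =>
    intro D F hy hyt
    exfalso
    rw [mem_near] at hy
    have := le_ht' (G := G) hy.1.1 hy.1.2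
    exact hyt (mem_top.2 ⟨hy.1, by omega⟩)
  | succ s ih =>
    intro D F hy hyt hF hFD hFP hyF hyA hS
    obtain ⟨v, hv⟩ : F.Nonempty := by
      rw [← card_pos]
      omega
    have hvD : v ∉ D := disjoint_left.1 hFD hv
    set D₁ := D ∪ {v} with hD₁
    have hsub : D ⊆ D₁ := subset_union_left
    have hlev : ∀ u, lev G D₁ u + (nb G u ∩ {v}).card = lev G D u := fun u =>
      lev_union D {v} u (disjoint_singleton_left.2 hvD)
    have hne : (cp P D).Nonempty := ⟨y, mem_cp.2 (mem_near.1 hy).1⟩
    obtain ⟨a₀, ha₀⟩ := top_nonempty (G := G) hne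
    have hadj : ∀ a ∈ top G P D, lev G D₁ a + 1 = lev G D a := by
      intro a ha
      rw [← hlev a, inter_singleton_of_mem (mem_nb.2 (hS v hv a ha)), card_singleton]
    have haD₁ : ∀ a ∈ top G P D, a ∉ D₁ := by
      intro a ha h1
      rw [hD₁, mem_union, mem_singleton] at h1
      rcases h1 with h1 | h1
      · exact (mem_top.1 ha).1.1 h1
      · have := hS v hv a ha
        rw [h1] at this
        exact G.loopless.irrefl _ this
    have hht : ht G P D₁ + 1 = ht G P D := by
      have h1 : ht G P D₁ ≤ ht G P D - 1 := by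
        refine ht_le fun u hu huP => ?_
        by_cases hut : u ∈ top G P D
        · have h3 := hadj u hut
          have h4 := (mem_top.1 hut).2
          omega
        · have h3 : u ∉ D := fun h => hu (hsub h)
          have h4 := le_ht' (G := G) h3 huP
          have h5 : lev G D u ≠ ht G P D := fun h => hut (mem_top.2 ⟨⟨h3, huP⟩, h⟩)
          have h6 := lev_mono (G := G) hsub u
          omega
      have h2 := hadj a₀ ha₀
      have h3 := (mem_top.1 ha₀).2
      have h4 := le_ht' (G := G) (haD₁ a₀ ha₀) (mem_top.1 ha₀).1.2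
      omega
    have hST : top G P D ⊆ top G P D₁ := by
      intro a ha
      have h2 := hadj a ha
      have h3 := (mem_top.1 ha).2
      exact mem_top.2 ⟨⟨haD₁ a ha, (mem_top.1 ha).1.2⟩, by omega⟩
    by_cases heq : top G P D₁ = top G P D
    · have hy₁ : y ∈ near G P D₁ s := by
        rw [mem_near] at hy ⊢
        refine ⟨⟨?_, hy.1.2⟩, ?_⟩
        · rw [hD₁, mem_union, mem_singleton]
          rintro (h | h)
          · exact hy.1.1 h
          · exact hyF (h ▸ hv)
        · have h1 := hlev y
          have h2 : nb G y ∩ {v} = ∅ := by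
            rw [inter_singleton_of_notMem]
            rw [mem_nb]
            exact hyA v hv
          rw [h2, card_empty] at h1
          omega
      obtain ⟨F', hF', h1, h2⟩ := ih (D := D₁) (F := F.erase v) hy₁ (heq ▸ hyt)
        (by rw [card_erase_of_mem hv]; omega)
        (by
          rw [hD₁, disjoint_union_right, disjoint_singleton_right]
          exact ⟨disjoint_of_subset_left (erase_subset _ _) hFD, notMem_erase v F⟩)
        (disjoint_of_subset_left (erase_subset _ _) hFP) (fun h => hyF (erase_subset _ _ h))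
        (fun u hu => hyA u (erase_subset _ _ hu))
        (fun u hu a ha => hS u (erase_subset _ _ hu) a (heq ▸ ha))
      refine ⟨insert v F', ?_, ?_, ?_⟩
      · intro u hu
        rw [mem_insert] at hu
        rcases hu with rfl | hu
        · exact hv
        · exact erase_subset _ _ (hF' hu)
      · have : D ∪ insert v F' = D₁ ∪ F' := by
          rw [hD₁]
          ext u
          simp only [mem_union, mem_insert, mem_singleton]
          tauto
        rw [this, ← heq]
        exact h1
      · have : D ∪ insert v F' = D₁ ∪ F' := by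
          rw [hD₁]
          ext u
          simp only [mem_union, mem_insert, mem_singleton]
          tauto
        rw [this, card_insert_of_notMem (fun h => notMem_erase v F (hF' h))]
        omega
    · refine ⟨{v}, singleton_subset_iff.2 hv, ?_, ?_⟩
      · have : top G P D ⊂ top G P D₁ := hST.ssubset_of_ne (Ne.symm heq)
        exact card_lt_card this
      · rw [← hD₁, card_singleton]
        omega

end

end Pool.Agent.W118.CY
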