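import Pool.Agent.W118.CY.Stm

/-! Caro-Yuster problem (MP_7c5d5d_co): two lemmas used in several parts. -/

set_option autoImplicit false

namespace Pool.Agent.W118.CY

open Finset

section

variable {V : Type} [Fintype V] [DecidableEq V] {G : SimpleGraph V} [DecidableRel G.Adj]

/-- in a homogeneous set every vertex has `v` neighbours in `P ∪ Z` -/
theorem hom_deg {P Z : Finset V} {v : ℕ} (hd : Disjoint Z P) (h : hom G P Z v) :
    ∀ z ∈ Z, (nb G z ∩ (P ∪ Z)).card = v := by
  intro z hz
  have hsplit : (nb G z ∩ (P ∪ Z)).card = (nb G z ∩ P).card + (nb G z ∩ Z).card := by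
    rw [inter_union_distrib_left, card_union_of_disjoint]
    rw [disjoint_left]
    intro u hu hu'
    exact disjoint_left.1 hd (mem_inter.1 hu').2 (mem_inter.1 hu).2
  rcases h with ⟨h1, h2⟩ | ⟨h1, h2⟩
  · have h3 : nb G z ∩ Z = Z.erase z := by
      ext u
      rw [mem_inter, mem_erase, mem_nb]
      constructor
      · rintro ⟨h3, h4⟩
        refine ⟨?_, h4⟩
        rintro rfl
        exact G.loopless.irrefl _ h3
      · rintro ⟨h3, h4⟩
        exact ⟨h1 z hz u h4 (Ne.symm h3), h4⟩
    rw [hsplit, h3, card_erase_of_mem hz, h2 z hz]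
  · have h3 : nb G z ∩ Z = ∅ := by
      rw [eq_empty_iff_forall_notMem]
      intro u hu
      rw [mem_inter, mem_nb] at hu
      exact h1 z hz u hu.2 hu.1
    rw [hsplit, h3, card_empty, h2 z hz]
    rfl

/-- homogeneous sets are regular -/
theorem reg_of_hom {P Z : Finset V} {v : ℕ} (hd : Disjoint Z P) (h : hom G P Z v) :
    reg G P Z := fun z hz z' hz' => by rw [hom_deg hd h z hz, hom_deg hd h z' hz']

theorem mem_core {P B : Finset V} {v : V} :
    v ∈ core G P B ↔ (∀ a ∈ top G P B, G.Adj a v) ∧ v ∉ B := by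
  rw [core, mem_sdiff, mem_com]

theorem core_disjoint {P B : Finset V} : Disjoint (core G P B) B := sdiff_disjoint

/-- near competitors are adjacent to almost all of the core -/
theorem core_near {P B : Finset V} {t N₂ R r s : ℕ} {y : V} (h : ¬ Out G P B (t + 1) N₂ R)
    (hBP : Disjoint B P) (hN : N₂ ≤ (near G P B r).card) (ht' : (top G P B).card = t)
    (hy : y ∈ near G P B s) (hR : r + s ≤ R) :
    (core G P B \ nb G y).card ≤ s + P.card + 1 + N₂ := by
  by_cases hyt : y ∈ top G P B
  · have : core G P B \ nb G y = ∅ := by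
      rw [eq_empty_iff_forall_notMem]
      intro v hv
      rw [mem_sdiff, mem_core, mem_nb] at hv
      exact hv.2 (hv.1.1 y hyt)
    rw [this, card_empty]
    omega
  by_contra hcon
  push Not at hcon
  obtain ⟨T, hT, hTc⟩ := exists_subset_card_eq hN
  have h1 : s ≤ (core G P B \ (nb G y ∪ P ∪ {y} ∪ T)).card := by
    have h2 : core G P B \ nb G y ⊆ (core G P B \ (nb G y ∪ P ∪ {y} ∪ T)) ∪ (P ∪ {y} ∪ T) := by
      intro v hv
      rw [mem_sdiff] at hv
      simp only [mem_union, mem_sdiff, mem_singleton]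
      by_cases h3 : v ∈ P ∪ {y} ∪ T
      · simp only [mem_union, mem_singleton] at h3
        exact Or.inr h3
      · simp only [mem_union, mem_singleton] at h3
        exact Or.inl ⟨hv.1, fun h4 => by tauto⟩
    have h3 := card_le_card h2
    have h4 := card_union_le (core G P B \ (nb G y ∪ P ∪ {y} ∪ T)) (P ∪ {y} ∪ T)
    have h5 := card_union_le (P ∪ {y}) T
    have h6 := card_union_le P {y}
    rw [card_singleton] at h6
    omega
  obtain ⟨F, hF, hFc⟩ := exists_subset_card_eq h1
  have hFm : ∀ v ∈ F, v ∈ core G P B ∧ v ∉ nb G y ∧ v ∉ P ∧ v ≠ y ∧ v ∉ T := by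
    intro v hv
    have := hF hv
    simp only [mem_sdiff, mem_union, mem_singleton, not_or] at this
    tauto
  have hFB : Disjoint F B := by
    rw [disjoint_left]
    intro v hv hvB
    exact (mem_core.1 (hFm v hv).1).2 hvB
  obtain ⟨F', hF', h2, h3⟩ := extend (G := G) (P := P) (D := B) (F := F) hy hyt hFc hFB
    (by
      rw [disjoint_left]
      intro v hv hvP
      exact (hFm v hv).2.2.1 hvP)
    (fun h4 => (hFm y h4).2.2.2.1 rfl)
    (fun v hv h4 => (hFm v hv).2.1 (mem_nb.2 h4))
    (fun v hv a ha => (mem_core.1 (hFm v hv).1).1 a ha)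
  have hcard : F'.card ≤ s := by
    rw [← hFc]
    exact card_le_card hF'
  have hsd : (B ∪ F') \ B ⊆ F' := by
    intro v hv
    rw [mem_sdiff, mem_union] at hv
    tauto
  have hsdc := card_le_card hsd
  refine h ⟨B ∪ F', subset_union_left, ?_, by omega, by omega, ?_, by omega⟩
  · rw [disjoint_union_left]
    refine ⟨hBP, ?_⟩
    rw [disjoint_left]
    intro v hv hvP
    exact (hFm v (hF' hv)).2.2.1 hvP
  · rw [← hTc]
    refine card_le_card fun z hz => ?_
    refine near_mono (s := r + s) hR (near_of_subset (hT hz) subset_union_left ?_ (by omega))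
    rw [mem_union, not_or]
    exact ⟨(mem_near.1 (hT hz)).1.1, fun h4 => (hFm z (hF' h4)).2.2.2.2 hz⟩

end

end Pool.Agent.W118.CY
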