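import Pool.Agent.W118.CY.Basic2

/-! Caro-Yuster problem (MP_7c5d5d_co): the induction on `t`. -/

set_option autoImplicit false

namespace Pool.Agent.W118.CY

open Finset

/-- one more vertex of maximum degree -/
theorem core_step (h1 : S_A) (h2 : S_SG) (h3 : S_FIN) (t : ℕ) (ht1 : 1 ≤ t) (hcl : Claim t)
    (p N₂ : ℕ) : ∃ N K : ℕ, ∀ (V : Type) [Fintype V] [DecidableEq V] (G : SimpleGraph V)
    [DecidableRel G.Adj] (P B : Finset V) (r L : ℕ),
    P.card ≤ p → Disjoint B P → Fintype.card V ≤ 2 ^ L → (top G P B).card = t →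
    N ≤ (near G P B r).card → Out G P B (t + 1) N₂ (K * (r + L + 1)) := by
  obtain ⟨m, q, K₁, hq, hF⟩ := h3 t ht1 hcl p N₂
  obtain ⟨N₃, K₃, hA⟩ := h1 t p N₂ m q ht1 hq
  obtain ⟨N₄, K₄, hS⟩ := h2 t p N₂ ht1
  -- rho = K₃ (r+1), G0 = K₁ (rho + L + 1) + K₃ (r + 1)
  refine ⟨max N₃ N₄, K₃ + K₁ * (K₃ + 1) + K₄ * (1 + K₁ * (K₃ + 1) + K₃), ?_⟩
  intro V _ _ G _ P B r L hP hBP hV htop hN
  have hN₃ := (le_max_left N₃ N₄).trans hN
  have hN₄ := (le_max_right N₃ N₄).trans hN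
  set lam := r + L + 1 with hlam
  have e1 : K₃ * (r + 1) ≤ K₃ * lam := Nat.mul_le_mul le_rfl (by omega)
  have e2 : K₁ * (K₃ * (r + 1) + L + 1) ≤ K₁ * (K₃ + 1) * lam := by
    rw [mul_assoc]
    refine Nat.mul_le_mul le_rfl ?_
    rw [add_mul]
    omega
  by_cases hG : ht G P B < (core G P B).card + (K₁ * (K₃ * (r + 1) + L + 1) + K₃ * (r + 1))
  · refine (hS V G P B r (K₁ * (K₃ * (r + 1) + L + 1) + K₃ * (r + 1)) hP hBP htop hN₄
      hG.le).mono' ?_
    have : r + (K₁ * (K₃ * (r + 1) + L + 1) + K₃ * (r + 1)) + 1 ≤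
        (1 + K₁ * (K₃ + 1) + K₃) * lam := by
      rw [add_mul, add_mul]
      omega
    calc K₄ * (r + (K₁ * (K₃ * (r + 1) + L + 1) + K₃ * (r + 1)) + 1)
        ≤ K₄ * ((1 + K₁ * (K₃ + 1) + K₃) * lam) := Nat.mul_le_mul le_rfl this
      _ = K₄ * (1 + K₁ * (K₃ + 1) + K₃) * lam := by rw [mul_assoc]
      _ ≤ (K₃ + K₁ * (K₃ + 1) + K₄ * (1 + K₁ * (K₃ + 1) + K₃)) * lam :=
          Nat.mul_le_mul (by omega) le_rfl
  · push Not at hG
    by_contra hout
    have hR1 : K₃ * (r + 1) ≤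
        (K₃ + K₁ * (K₃ + 1) + K₄ * (1 + K₁ * (K₃ + 1) + K₃)) * lam :=
      e1.trans (Nat.mul_le_mul (by omega) le_rfl)
    obtain ⟨Z, hZc, hZ, hZq⟩ := hA V G P B r _ hP hBP htop hN₃ hR1 (by omega) hout
    refine hout ((hF V G P B Z (K₃ * (r + 1)) L hP hBP hV htop hZc hZ hZq (by omega)).mono' ?_)
    exact e2.trans (Nat.mul_le_mul (by omega) le_rfl)

theorem claim_one : Claim 1 := by
  intro p N₂
  refine ⟨max N₂ 1, 1, ?_⟩
  intro V _ _ G _ P B r L hP hBP hV hN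
  refine ⟨B, Subset.refl _, hBP, by simp, ?_, ?_, by omega⟩
  · rw [Nat.one_le_iff_ne_zero, ← Nat.pos_iff_ne_zero, card_pos]
    have : 0 < (near G P B r).card := by
      have := (le_max_right N₂ 1).trans hN
      omega
    obtain ⟨v, hv⟩ := card_pos.1 this
    exact top_nonempty ⟨v, mem_cp.2 (mem_near.1 hv).1⟩
  · refine ((le_max_left N₂ 1).trans hN).trans (card_le_card (near_mono (by omega)))

theorem claim_succ (h1 : S_A) (h2 : S_SG) (h3 : S_FIN) (t : ℕ) (ht1 : 1 ≤ t) (hcl : Claim t) :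
    Claim (t + 1) := by
  intro p N₂
  obtain ⟨Nc, Kc, hc⟩ := core_step h1 h2 h3 t ht1 hcl p N₂
  obtain ⟨N, K, hN⟩ := hcl p (max Nc N₂)
  refine ⟨N, Kc * (K + 1) + K, ?_⟩
  intro V _ _ G _ P B r L hP hBP hV hNB
  obtain ⟨D, hBD, hDP, hDc, htop, hnear, hht⟩ := hN V G P B r L hP hBP hV hNB
  set lam := r + L + 1 with hlam
  rcases Nat.lt_or_ge t (top G P D).card with h | h
  · refine Out.mono' (R := K * lam) ⟨D, hBD, hDP, hDc, h, (le_max_right _ _).trans hnear, hht⟩ ?_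
    exact Nat.mul_le_mul (by omega) le_rfl
  · have htc : (top G P D).card = t := by omega
    have h4 := hc V G P D (K * lam) L hP hDP hV htc ((le_max_left _ _).trans hnear)
    refine Out.mono' (h4.mono hBD hDc hht) ?_
    rw [add_mul]
    refine Nat.add_le_add ?_ le_rfl
    rw [mul_assoc]
    refine Nat.mul_le_mul le_rfl ?_
    rw [add_mul]
    omega

theorem claim_all (h1 : S_A) (h2 : S_SG) (h3 : S_FIN) : ∀ k : ℕ, 1 ≤ k → Claim k := by
  intro k hk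
  induction k, hk using Nat.le_induction with
  | base => exact claim_one
  | succ n hn ih => exact claim_succ h1 h2 h3 n hn ih

end Pool.Agent.W118.CY
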