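import Pool.Agent.W118.CY.Basic2

/-! Caro-Yuster problem (MP_7c5d5d_co): `k` disjoint samples. -/

set_option autoImplicit false

namespace Pool.Agent.W118.CY

open Finset

theorem t_f4 (h1 : S_SM) (h2 : S_F2) : S_F4 := by
  intro k
  induction k with
  | zero =>
    intro V _ _ G _ P B Z U a₀ t N₂ ρ x u w L R ht hu hBP hZ hN hZne haB haZ hV hux htL hnb hU hUd
      hR hbig hout
    exact ⟨∅, fun i => i.elim0, fun i => i.elim0, by simp, by simp, fun i => i.elim0,
      fun i => i.elim0, fun i => i.elim0, fun i => i.elim0⟩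
  | succ k ih =>
    intro V _ _ G _ P B Z U a₀ t N₂ ρ x u w L R ht hu hBP hZ hN hZne haB haZ hV hux htL hnb hU hUd
      hR hbig hout
    have e1 : (k + 1) * (t + 2) * (ρ + x) ≤ (k + 1 + 1) * (t + 2) * (ρ + x) :=
      Nat.mul_le_mul_right _ (Nat.mul_le_mul_right _ (by omega))
    have hp : 1 ≤ 2 ^ (3 * u) := Nat.one_le_two_pow
    obtain ⟨E, U', X, hE, hEd, hUX, hdis, hcom, hlev⟩ := ih V G P B Z U a₀ t N₂ ρ x u w L R ht hu
      hBP hZ hN hZne haB haZ hV hux htL hnb hU hUd (by omega)
      (le_trans (Nat.mul_le_mul_left _ (by omega)) hbig) hout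
    set Un := U \ univ.biUnion X with hUn
    have hXc : (univ.biUnion X).card ≤ k * x := by
      refine card_biUnion_le.trans ?_
      rw [sum_congr rfl fun i _ => (hUX i).2.1]
      simp
    have hUc : U.card ≤ Un.card + k * x := by
      have := le_card_sdiff (univ.biUnion X) U
      rw [hUn]
      omega
    have e2 : (k + 1 + 1) * (t + 2) * (ρ + x) ≤ w + (k + 1 + 1) * (t + 2) * (ρ + x) +
        Z.card + P.card + 1 := by omega
    have e3 : 2 * ((k + 1 + 1) * (t + 2) * (ρ + x)) ≤ U.card := by
      refine le_trans ?_ hbig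
      rw [mul_assoc 2]
      apply Nat.mul_le_mul_left
      calc (k + 1 + 1) * (t + 2) * (ρ + x) = 1 * ((k + 1 + 1) * (t + 2) * (ρ + x)) := by ring
        _ ≤ _ := Nat.mul_le_mul hp e2
    have e4 : k * x + x ≤ (k + 1 + 1) * (t + 2) * (ρ + x) := by nlinarith [Nat.zero_le (k * x)]
    have hU2 : U.card ≤ 2 * Un.card := by omega
    have hxU : x ≤ Un.card := by omega
    obtain ⟨Xn, hXn, hXnc, hA, hB⟩ := h1 t u ht hu V G Un x L hV hux htL hxU
    have hUnU : Un ⊆ U := sdiff_subset
    have e5 : E.card + (t + 2) * (ρ + x) ≤ (k + 1 + 1) * (t + 2) * (ρ + x) := by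
      refine (Nat.add_le_add_right hE _).trans ?_
      nlinarith [Nat.zero_le (k * (ρ + x)), Nat.zero_le ((t + 2) * (ρ + x))]
    have e6 : 2 ^ (3 * u) * (w + E.card + (t + 2) * (ρ + x) + Z.card + P.card + 1) ≤ Un.card := by
      have h3 : 2 ^ (3 * u) * (w + E.card + (t + 2) * (ρ + x) + Z.card + P.card + 1) ≤
          2 ^ (3 * u) * (w + (k + 1 + 1) * (t + 2) * (ρ + x) + Z.card + P.card + 1) :=
        Nat.mul_le_mul_left _ (by omega)
      rw [mul_assoc 2] at hbig
      omega
    obtain ⟨E', hEE, hEd', hEc', hlev'⟩ := h2 V G P B Z Un Xn E a₀ t N₂ ρ x u w R hBP hZ hN hZne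
      haB haZ hnb (hUnU.trans hU) (disjoint_of_subset_left hUnU hUd) hEd hXn hXnc hA
      (by omega) e6 hout
    have hXd : ∀ j, Disjoint Xn (X j) := by
      intro j
      rw [disjoint_left]
      intro v hv hv'
      have := hXn hv
      rw [hUn, mem_sdiff, mem_biUnion] at this
      exact this.2 ⟨j, mem_univ _, hv'⟩
    refine ⟨E', Fin.snoc (α := fun _ => Finset V) U' Un, Fin.snoc (α := fun _ => Finset V) X Xn,
      ?_, hEd', ?_, ?_, ?_, ?_⟩
    · calc E'.card ≤ E.card + t * (ρ + x) := hEc'
        _ ≤ k * (t * (ρ + x)) + t * (ρ + x) := Nat.add_le_add_right hE _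
        _ = _ := by ring
    · intro i
      refine Fin.lastCases ?_ (fun i => ?_) i
      · rw [Fin.snoc_last, Fin.snoc_last]
        exact ⟨hXn, hXnc, hUnU, hU2⟩
      · rw [Fin.snoc_castSucc, Fin.snoc_castSucc]
        exact hUX i
    · intro i j
      refine Fin.lastCases ?_ (fun i => ?_) i
      · refine Fin.lastCases ?_ (fun j => ?_) j
        · intro h
          exact absurd rfl h
        · intro _
          rw [Fin.snoc_last, Fin.snoc_castSucc]
          exact hXd j
      · refine Fin.lastCases ?_ (fun j => ?_) j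
        · intro _
          rw [Fin.snoc_last, Fin.snoc_castSucc]
          exact (hXd i).symm
        · intro h
          rw [Fin.snoc_castSucc, Fin.snoc_castSucc]
          exact hdis i j fun h' => h (by rw [h'])
    · intro i
      refine Fin.lastCases ?_ (fun i => ?_) i
      · rw [Fin.snoc_last, Fin.snoc_last]
        exact hB
      · rw [Fin.snoc_castSucc, Fin.snoc_castSucc]
        exact hcom i
    · intro i
      refine Fin.lastCases ?_ (fun i => ?_) i
      · rw [Fin.snoc_last]
        exact hlev'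
      · rw [Fin.snoc_castSucc]
        intro v hv hvP
        have hsub : B ∪ E ∪ X i ⊆ B ∪ E' ∪ X i :=
          union_subset_union (union_subset_union (Subset.refl _) hEE) (Subset.refl _)
        have h3 := hlev i v (fun h => hv (hsub h)) hvP
        have h4 := lev_mono (G := G) hsub v
        omega

end Pool.Agent.W118.CY
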