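import Pool.Agent.W118.CY.Basic2

/-! Caro-Yuster problem (MP_7c5d5d_co): the case when the competitors are near twins. -/

set_option autoImplicit false

namespace Pool.Agent.W118.CY

open Finset

/-- the constants of the recursion -/
def kcSG (K₂ : ℕ) : ℕ → ℕ
  | 0 => 0
  | j + 1 => K₂ + kcSG K₂ j * (K₂ + 2)

theorem sg_claim {t p N₂ M N' K₂ : ℕ} (hM2 : 2 ≤ M)
    (hN' : ∀ (V : Type) [Fintype V] [DecidableEq V] (G : SimpleGraph V)
      [DecidableRel G.Adj] (P Y : Finset V), P.card ≤ p → N' ≤ Y.card →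
      ∃ Z ⊆ Y, Z.card = M ∧ ∃ v, hom G P Z v)
    (hK₂ : ∀ (V : Type) [Fintype V] [DecidableEq V] (G : SimpleGraph V)
      [DecidableRel G.Adj] (P B C Z : Finset V) (v Γ R : ℕ),
      P.card ≤ p → Disjoint B P → Disjoint C B → ht G P B ≤ C.card + Γ → Z.card = M →
      Z ⊆ cp P B → (∀ z ∈ Z, (C \ nb G z).card ≤ Γ ∧ (nb G z \ (B ∪ C)).card ≤ Γ) →
      hom G P Z v → K₂ * (Γ + 1) ≤ R → ¬ Out G P B (t + 1) N₂ R →
      ∃ Y : Finset V, Y.card = 2 * N' ∧ Y ⊆ cp P B ∧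
        (∀ y ∈ Y, (C \ nb G y).card ≤ K₂ * (Γ + 1) ∧ (nb G y \ (B ∪ C)).card ≤ K₂ * (Γ + 1)) ∧
        (∀ y ∈ Y, y ∈ C → v + 2 ≤ M + (nb G y ∩ P).card) ∧
        (∀ y ∈ Y, y ∉ C → v + 1 ≤ (nb G y ∩ P).card) ∧
        (∀ y ∈ Y, ∀ y' ∈ Y, y ∈ C → y' ∈ C → y ≠ y' → G.Adj y y'))
    (V : Type) [Fintype V] [DecidableEq V] (G : SimpleGraph V) [DecidableRel G.Adj]
    (P B C : Finset V) (R : ℕ) (hP : P.card ≤ p) (hBP : Disjoint B P) (hCB : Disjoint C B)
    (hout : ¬ Out G P B (t + 1) N₂ R) :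
    ∀ (j : ℕ) (Z : Finset V) (Γ v : ℕ), Z ⊆ cp P B → Z.card = M → hom G P Z v →
      p + M ≤ v + j → (∀ z ∈ Z, (C \ nb G z).card ≤ Γ ∧ (nb G z \ (B ∪ C)).card ≤ Γ) →
      ht G P B ≤ C.card + Γ → kcSG K₂ j * (Γ + 1) ≤ R → False := by
  intro j
  induction j with
  | zero =>
    intro Z Γ v hZ hZM hom1 hv hzz hht hK
    have hne : Z.Nonempty := by
      rw [← card_pos]
      omega
    obtain ⟨z, hz⟩ := hne
    have h1 : (nb G z ∩ P).card ≤ p := (card_le_card inter_subset_right).trans hP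
    rcases hom1 with ⟨_, h2⟩ | ⟨_, h2⟩
    · have := h2 z hz
      omega
    · have := h2 z hz
      omega
  | succ j ih =>
    intro Z Γ v hZ hZM hom1 hv hzz hht hK
    have hKe : kcSG K₂ (j + 1) = K₂ + kcSG K₂ j * (K₂ + 2) := rfl
    have hK1 : K₂ * (Γ + 1) ≤ R := by
      refine le_trans (Nat.mul_le_mul_right _ ?_) hK
      rw [hKe]
      exact Nat.le_add_right _ _
    obtain ⟨Y, hY, hYcp, hYn, hY1, hY2, hY3⟩ := hK₂ V G P B C Z v Γ R hP hBP hCB hht hZM hZ hzz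
      hom1 hK1 hout
    have hle : K₂ * (Γ + 1) ≤ (K₂ + 1) * (Γ + 1) := Nat.mul_le_mul_right _ (Nat.le_succ _)
    have hle' : Γ ≤ (K₂ + 1) * (Γ + 1) := by nlinarith
    have hfin : kcSG K₂ j * ((K₂ + 1) * (Γ + 1) + 1) ≤ R := by
      refine le_trans ?_ hK
      rw [hKe]
      have h1 : (K₂ + 1) * (Γ + 1) + 1 ≤ (K₂ + 2) * (Γ + 1) := by nlinarith
      calc kcSG K₂ j * ((K₂ + 1) * (Γ + 1) + 1)
          ≤ kcSG K₂ j * ((K₂ + 2) * (Γ + 1)) := Nat.mul_le_mul_left _ h1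
        _ = (kcSG K₂ j * (K₂ + 2)) * (Γ + 1) := by ring
        _ ≤ (K₂ + kcSG K₂ j * (K₂ + 2)) * (Γ + 1) :=
            Nat.mul_le_mul_right _ (Nat.le_add_left _ _)
    have hsplit : (Y ∩ C).card + (Y \ C).card = Y.card := card_inter_add_card_sdiff Y C
    have hcase : N' ≤ (Y ∩ C).card ∨ N' ≤ (Y \ C).card := by omega
    rcases hcase with hc | hc
    · obtain ⟨Z', hZ', hZ'M, v', hom2⟩ := hN' V G P (Y ∩ C) hP hc
      have hmem : ∀ z ∈ Z', z ∈ Y ∧ z ∈ C := fun z hz => mem_inter.1 (hZ' hz)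
      have hlt : 1 < Z'.card := by omega
      obtain ⟨z, hz, z', hz', hzz'⟩ := one_lt_card.1 hlt
      have hv' : v + 1 ≤ v' := by
        rcases hom2 with ⟨_, h2⟩ | ⟨h1, _⟩
        · have h3 := h2 z hz
          have h4 := hY1 z (hmem z hz).1 (hmem z hz).2
          omega
        · exact absurd (hY3 z (hmem z hz).1 z' (hmem z' hz').1 (hmem z hz).2 (hmem z' hz').2 hzz')
            (h1 z hz z' hz')
      refine ih Z' ((K₂ + 1) * (Γ + 1)) v' (fun u hu => hYcp (hmem u hu).1) hZ'M hom2 (by omega)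
        (fun u hu => ?_) (by omega) hfin
      have := hYn u (hmem u hu).1
      exact ⟨this.1.trans hle, this.2.trans hle⟩
    · obtain ⟨Z', hZ', hZ'M, v', hom2⟩ := hN' V G P (Y \ C) hP hc
      have hmem : ∀ z ∈ Z', z ∈ Y ∧ z ∉ C := fun z hz => mem_sdiff.1 (hZ' hz)
      have hlt : 1 < Z'.card := by omega
      obtain ⟨z, hz, z', hz', hzz'⟩ := one_lt_card.1 hlt
      have hv' : v + 1 ≤ v' := by
        have h4 := hY2 z (hmem z hz).1 (hmem z hz).2
        rcases hom2 with ⟨_, h2⟩ | ⟨_, h2⟩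
        · have h3 := h2 z hz
          omega
        · have h3 := h2 z hz
          omega
      refine ih Z' ((K₂ + 1) * (Γ + 1)) v' (fun u hu => hYcp (hmem u hu).1) hZ'M hom2 (by omega)
        (fun u hu => ?_) (by omega) hfin
      have := hYn u (hmem u hu).1
      exact ⟨this.1.trans hle, this.2.trans hle⟩

theorem t_sg (h1 : S_R2) (h2 : S_RM) : S_SG := by
  intro t p N₂ ht1
  set M := max N₂ (t + 1) + 1 with hM
  have hM1 : t + 1 ≤ M := by omega
  have hM2 : N₂ ≤ M := by omega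
  have hM3 : 2 ≤ M := by omega
  obtain ⟨N', hN'⟩ := h2 M p
  obtain ⟨K₂, hK₂⟩ := h1 t p N₂ M (2 * N') hM1 hM2
  refine ⟨max N' N₂, kcSG K₂ (p + M) * (p + N₂ + 2) + 2, ?_⟩
  intro V _ _ G _ P B r Γ hP hBP htop hN hht
  by_contra hout
  set R := (kcSG K₂ (p + M) * (p + N₂ + 2) + 2) * (r + Γ + 1) with hR
  have hRr : r + r ≤ R := by
    have : 2 * (r + Γ + 1) ≤ R := by
      rw [hR]
      exact Nat.mul_le_mul_right _ (Nat.le_add_left _ _)
    omega
  have hRK : kcSG K₂ (p + M) * ((Γ + r + p + 1 + N₂) + 1) ≤ R := by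
    have h3 : (Γ + r + p + 1 + N₂) + 1 ≤ (p + N₂ + 2) * (r + Γ + 1) := by nlinarith
    calc kcSG K₂ (p + M) * ((Γ + r + p + 1 + N₂) + 1)
        ≤ kcSG K₂ (p + M) * ((p + N₂ + 2) * (r + Γ + 1)) := Nat.mul_le_mul_left _ h3
      _ = (kcSG K₂ (p + M) * (p + N₂ + 2)) * (r + Γ + 1) := by ring
      _ ≤ R := by
        rw [hR]
        exact Nat.mul_le_mul_right _ (Nat.le_add_right _ _)
  obtain ⟨Z, hZ, hZM, v, hom1⟩ := hN' V G P (near G P B r) hP ((le_max_left _ _).trans hN)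
  have hN2' : N₂ ≤ (near G P B r).card := (le_max_right _ _).trans hN
  refine sg_claim (t := t) (p := p) (N₂ := N₂) (M := M) (N' := N') (K₂ := K₂) hM3 hN' hK₂ V G P B
    (core G P B) R hP hBP core_disjoint hout (p + M) Z (Γ + r + p + 1 + N₂) v ?_ hZM hom1
    (by omega) ?_ (by omega) hRK
  · intro z hz
    rw [mem_cp]
    exact (mem_near.1 (hZ hz)).1
  · intro z hz
    have hc := core_near hout hBP hN2' htop (hZ hz) hRr
    have h3 : (core G P B \ nb G z).card ≤ r + p + 1 + N₂ := by omega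
    refine ⟨by omega, ?_⟩
    have h4 : lev G B z ≤ ht G P B :=
      le_ht' (mem_near.1 (hZ hz)).1.1 (mem_near.1 (hZ hz)).1.2
    have h5 : (core G P B ∩ nb G z).card + (core G P B \ nb G z).card = (core G P B).card :=
      card_inter_add_card_sdiff _ _
    have h6 : (core G P B ∩ nb G z).card + (nb G z \ (B ∪ core G P B)).card ≤ lev G B z := by
      rw [lev, ← card_union_of_disjoint]
      · refine card_le_card ?_
        intro u hu
        rw [mem_union, mem_inter, mem_sdiff, mem_union, not_or] at hu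
        rw [mem_sdiff]
        rcases hu with ⟨h7, h8⟩ | ⟨h7, h8, _⟩
        · exact ⟨h8, disjoint_left.1 core_disjoint h7⟩
        · exact ⟨h7, h8⟩
      · rw [disjoint_left]
        intro u hu hu'
        rw [mem_inter] at hu
        rw [mem_sdiff, mem_union, not_or] at hu'
        exact hu'.2.2 hu.1
    omega

end Pool.Agent.W118.CY
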